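import Mathlib
import Pool.Agent.H5R2.ON.Defs
import Pool.Agent.H5R2.ON.Basic

set_option autoImplicit false

noncomputable section

namespace Pool.Agent.H5R2.ON
namespace MSdev

open MeasureTheory Metric ComplexConjugate

/-! ### rotations in the plane of the first two coordinates -/

/-- rotated vector -/
def rotFun (n : ℕ) (θ : ℝ) (v : EuclideanSpace ℝ (Fin (n + 2))) : EuclideanSpace ℝ (Fin (n + 2)) :=
  WithLp.toLp 2 (fun i => if i = 0 then Real.cos θ * v 0 - Real.sin θ * v 1
    else if i = 1 then Real.sin θ * v 0 + Real.cos θ * v 1 else v i)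

lemma rotFun_zero (n : ℕ) (θ : ℝ) (v : EuclideanSpace ℝ (Fin (n + 2))) :
    rotFun n θ v 0 = Real.cos θ * v 0 - Real.sin θ * v 1 := by
  simp [rotFun]

lemma rotFun_one (n : ℕ) (θ : ℝ) (v : EuclideanSpace ℝ (Fin (n + 2))) :
    rotFun n θ v 1 = Real.sin θ * v 0 + Real.cos θ * v 1 := by
  simp [rotFun]

lemma rotFun_succ (n : ℕ) (θ : ℝ) (v : EuclideanSpace ℝ (Fin (n + 2))) (i : Fin n) :
    rotFun n θ v i.succ.succ = v i.succ.succ := by
  have h0 : (i.succ.succ : Fin (n + 2)) ≠ 0 := Fin.succ_ne_zero _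
  have h1 : (i.succ.succ : Fin (n + 2)) ≠ 1 := by
    intro h
    have := congrArg Fin.val h
    simp at this
  simp [rotFun, h0, h1]

lemma inner_eq_sum (n : ℕ) (v w : EuclideanSpace ℝ (Fin (n + 2))) :
    inner ℝ v w = v 0 * w 0 + v 1 * w 1 + ∑ i : Fin n, v i.succ.succ * w i.succ.succ := by
  rw [PiLp.inner_apply, Fin.sum_univ_succ, Fin.sum_univ_succ]
  simp only [RCLike.inner_apply, conj_trivial, Fin.succ_zero_eq_one]
  have : ∀ i : Fin n, w i.succ.succ * v i.succ.succ = v i.succ.succ * w i.succ.succ :=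
    fun i => mul_comm _ _
  simp only [this]
  ring

lemma inner_rot (n : ℕ) (θ : ℝ) (v : EuclideanSpace ℝ (Fin (n + 2))) :
    inner ℝ (rotFun n θ v) (rotFun n θ v) = inner ℝ v v := by
  rw [inner_eq_sum, inner_eq_sum]
  simp only [rotFun_zero, rotFun_one, rotFun_succ]
  have := Real.sin_sq_add_cos_sq θ
  have e : (Real.cos θ * v 0 - Real.sin θ * v 1) * (Real.cos θ * v 0 - Real.sin θ * v 1) +
      (Real.sin θ * v 0 + Real.cos θ * v 1) * (Real.sin θ * v 0 + Real.cos θ * v 1) =
      (Real.sin θ ^ 2 + Real.cos θ ^ 2) * (v 0 * v 0 + v 1 * v 1) := by ring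
  rw [e, this, one_mul]

lemma rot_rot (n : ℕ) (θ : ℝ) (v : EuclideanSpace ℝ (Fin (n + 2))) :
    rotFun n (-θ) (rotFun n θ v) = v := by
  have h := Real.sin_sq_add_cos_sq θ
  ext i
  refine Fin.cases ?_ (fun i => Fin.cases ?_ (fun i => ?_) i) i
  · rw [rotFun_zero, rotFun_zero, rotFun_one, Real.cos_neg, Real.sin_neg]
    linear_combination (v 0) * h
  · show rotFun n (-θ) (rotFun n θ v) 1 = v 1
    rw [rotFun_one, rotFun_zero, rotFun_one, Real.cos_neg, Real.sin_neg]
    linear_combination (v 1) * h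
  · rw [rotFun_succ, rotFun_succ]

/-- rotation as a linear isometry -/
def rotL (n : ℕ) (θ : ℝ) : EuclideanSpace ℝ (Fin (n + 2)) ≃ₗᵢ[ℝ] EuclideanSpace ℝ (Fin (n + 2)) where
  toFun := rotFun n θ
  invFun := rotFun n (-θ)
  left_inv := rot_rot n θ
  right_inv v := by
    have := rot_rot n (-θ) v
    rwa [neg_neg] at this
  map_add' v w := by
    ext i
    refine Fin.cases ?_ (fun i => Fin.cases ?_ (fun i => ?_) i) i
    · simp only [PiLp.add_apply, rotFun_zero]; ring
    · show rotFun n θ (v + w) 1 = (rotFun n θ v + rotFun n θ w) 1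
      simp only [PiLp.add_apply, rotFun_one]; ring
    · simp only [PiLp.add_apply, rotFun_succ]
  map_smul' c v := by
    ext i
    refine Fin.cases ?_ (fun i => Fin.cases ?_ (fun i => ?_) i) i
    · simp only [PiLp.smul_apply, rotFun_zero, smul_eq_mul, RingHom.id_apply]; ring
    · show rotFun n θ (c • v) 1 = (c • rotFun n θ v) 1
      simp only [PiLp.smul_apply, rotFun_one, smul_eq_mul]; ring
    · simp only [PiLp.smul_apply, rotFun_succ, smul_eq_mul, RingHom.id_apply]
  norm_map' v := by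
    show ‖rotFun n θ v‖ = ‖v‖
    have h := inner_rot n θ v
    rw [real_inner_self_eq_norm_sq, real_inner_self_eq_norm_sq] at h
    exact (sq_eq_sq₀ (norm_nonneg _) (norm_nonneg _)).1 h

lemma rotL_apply (n : ℕ) (θ : ℝ) (v : EuclideanSpace ℝ (Fin (n + 2))) :
    rotL n θ v = rotFun n θ v := rfl

/-- rotation of the sphere -/
def rotS (n : ℕ) (θ : ℝ) : Sph (n + 2) ≃ₜ Sph (n + 2) where
  toFun s := ⟨rotL n θ s, by
    have := s.2
    rw [mem_sphere_zero_iff_norm] at this ⊢
    rw [LinearIsometryEquiv.norm_map, this]⟩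
  invFun s := ⟨(rotL n θ).symm s, by
    have := s.2
    rw [mem_sphere_zero_iff_norm] at this ⊢
    rw [LinearIsometryEquiv.norm_map, this]⟩
  left_inv s := by ext1; simp
  right_inv s := by ext1; simp
  continuous_toFun := by fun_prop
  continuous_invFun := by fun_prop

lemma rotS_coe (n : ℕ) (θ : ℝ) (s : Sph (n + 2)) :
    (rotS n θ s : EuclideanSpace ℝ (Fin (n + 2))) = rotL n θ s := rfl

lemma zeta_rot (n : ℕ) (θ : ℝ) (s : Sph (n + 2)) :
    zeta (rotS n θ s) = Complex.exp (θ * Complex.I) * zeta s := by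
  have h0 : (rotS n θ s : EuclideanSpace ℝ (Fin (n + 2))) 0 =
      Real.cos θ * (s : EuclideanSpace ℝ (Fin (n + 2))) 0 -
        Real.sin θ * (s : EuclideanSpace ℝ (Fin (n + 2))) 1 := by
    rw [rotS_coe, rotL_apply, rotFun_zero]
  have h1 : (rotS n θ s : EuclideanSpace ℝ (Fin (n + 2))) 1 =
      Real.sin θ * (s : EuclideanSpace ℝ (Fin (n + 2))) 0 +
        Real.cos θ * (s : EuclideanSpace ℝ (Fin (n + 2))) 1 := by
    rw [rotS_coe, rotL_apply, rotFun_one]
  rw [Complex.exp_mul_I, ← Complex.ofReal_cos, ← Complex.ofReal_sin]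
  unfold zeta
  rw [h0, h1]
  generalize Real.cos θ = C
  generalize Real.sin θ = D
  apply Complex.ext
  · simp
  · simp; ring

/-- the part of the inner product not in the plane -/
def vv {n : ℕ} (s s' : Sph (n + 2)) : ℝ :=
  inner ℝ (s : EuclideanSpace ℝ (Fin (n + 2))) s' - (zeta s * conj (zeta s')).re

lemma vv_eq {n : ℕ} (s s' : Sph (n + 2)) : vv s s' =
    ∑ i : Fin n, (s : EuclideanSpace ℝ (Fin (n + 2))) i.succ.succ *
      (s' : EuclideanSpace ℝ (Fin (n + 2))) i.succ.succ := by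
  unfold vv
  rw [inner_eq_sum]
  simp [zeta]

lemma vv_rot {n : ℕ} (θ θ' : ℝ) (s s' : Sph (n + 2)) :
    vv (rotS n θ s) (rotS n θ' s') = vv s s' := by
  rw [vv_eq, vv_eq]
  simp only [rotS_coe, rotL_apply, rotFun_succ]

lemma continuous_zeta {n : ℕ} : Continuous (zeta (n := n)) := by
  have : zeta (n := n) = fun s : Sph (n + 2) =>
      (((s : EuclideanSpace ℝ (Fin (n + 2))) 0 : ℝ) : ℂ) +
        (((s : EuclideanSpace ℝ (Fin (n + 2))) 1 : ℝ) : ℂ) * Complex.I := by
    funext s
    apply Complex.ext <;> simp [zeta]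
  rw [this]
  fun_prop

lemma norm_zeta_le {n : ℕ} (s : Sph (n + 2)) : ‖zeta s‖ ≤ 1 := by
  have h1 : ‖(s : EuclideanSpace ℝ (Fin (n + 2)))‖ = 1 := by
    have := s.2
    rwa [mem_sphere_zero_iff_norm] at this
  have h2 : inner ℝ (s : EuclideanSpace ℝ (Fin (n + 2))) s = 1 := by
    rw [real_inner_self_eq_norm_sq, h1]; norm_num
  rw [inner_eq_sum] at h2
  have h3 : 0 ≤ ∑ i : Fin n, (s : EuclideanSpace ℝ (Fin (n + 2))) i.succ.succ *
      (s : EuclideanSpace ℝ (Fin (n + 2))) i.succ.succ :=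
    Finset.sum_nonneg fun i _ => mul_self_nonneg _
  have h4 : ‖zeta s‖ ^ 2 ≤ 1 := by
    rw [← Complex.normSq_eq_norm_sq, Complex.normSq_apply]
    simp only [zeta]
    linarith
  exact (sq_le_one_iff₀ (norm_nonneg _)).1 h4

/-! ### the Gibbs measure as a density -/

lemma continuous_pairSum (n L : ℕ) [NeZero L] : Continuous (pairSum (N := n) (L := L)) := by
  unfold pairSum
  fun_prop

lemma integral_gm (n L : ℕ) [NeZero L] (β : ℝ) {E : Type*} [NormedAddCommGroup E]
    [NormedSpace ℝ E] (f : Conf (n + 2) L → E) :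
    ∫ S, f S ∂(gm (n + 2) L β) =
      (Zpart (n + 2) L β)⁻¹ • ∫ S, Real.exp (β * pairSum S) • f S ∂(prior (n + 2) L) := by
  have hZ : 0 ≤ Zpart (n + 2) L β := integral_nonneg fun S => (Real.exp_pos _).le
  have hcont : Continuous fun S : Conf (n + 2) L => Real.exp (β * pairSum S) / Zpart (n + 2) L β :=
    (Real.continuous_exp.comp (continuous_const.mul (continuous_pairSum (n + 2) L))).div_const _
  unfold gm
  rw [integral_withDensity_eq_integral_toReal_smul₀]
  · rw [← integral_smul]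
    congr 1
    funext S
    rw [ENNReal.toReal_ofReal (div_nonneg (Real.exp_pos _).le hZ), smul_smul]
    congr 1
    rw [div_eq_inv_mul]
  · exact (hcont.measurable.ennreal_ofReal).aemeasurable
  · exact Filter.Eventually.of_forall fun S => ENNReal.ofReal_lt_top

/-! ### the analytic family -/

section family
set_option linter.unusedSectionVars false
variable {n L : ℕ} [NeZero L] (β : ℝ) (m : ℕ) (a : Tor L → ℝ) (x y : Tor L)

/-- energy of the pair `z, z'` with complex parameter `w` -/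
def En (w : ℂ) (S : Conf (n + 2) L) (z z' : Tor L) : ℂ :=
  1 / 2 * (Complex.exp (Complex.I * w * (a z - a z' : ℝ)) * (zeta (S z) * conj (zeta (S z'))) +
    Complex.exp (-(Complex.I * w * (a z - a z' : ℝ))) * (conj (zeta (S z)) * zeta (S z'))) +
    (vv (S z) (S z') : ℝ)

/-- the integrand -/
def Fw (w : ℂ) (S : Conf (n + 2) L) : ℂ :=
  Complex.exp (Complex.I * w * (m * (a x - a y) : ℝ)) *
    (zeta (S x) ^ m * conj (zeta (S y)) ^ m) *
    Complex.exp (β * ∑ z, (En a w S z (z + (1, 0)) + En a w S z (z + (0, 1))))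

/-- rotation by `t * a z` at every site -/
def Rt (t : ℝ) (S : Conf (n + 2) L) : Conf (n + 2) L := fun z => rotS n (t * a z) (S z)

lemma En_rot (t : ℝ) (w : ℂ) (S : Conf (n + 2) L) (z z' : Tor L) :
    En a w (Rt a t S) z z' = En a (w + t) S z z' := by
  unfold En Rt
  rw [vv_rot, zeta_rot, zeta_rot]
  have hc : ∀ θ : ℝ, conj (Complex.exp (θ * Complex.I)) = Complex.exp (-(θ * Complex.I)) := by
    intro θ
    rw [← Complex.exp_conj]
    congr 1
    simp
  rw [map_mul, map_mul, hc, hc]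
  have e1 : Complex.exp (Complex.I * (w + t) * (a z - a z' : ℝ)) =
      Complex.exp (Complex.I * w * (a z - a z' : ℝ)) *
        (Complex.exp ((t * a z : ℝ) * Complex.I) * Complex.exp (-((t * a z' : ℝ) * Complex.I))) := by
    rw [← Complex.exp_add, ← Complex.exp_add]
    congr 1
    push_cast
    ring
  have e2 : Complex.exp (-(Complex.I * (w + t) * (a z - a z' : ℝ))) =
      Complex.exp (-(Complex.I * w * (a z - a z' : ℝ))) *
        (Complex.exp (-((t * a z : ℝ) * Complex.I)) * Complex.exp ((t * a z' : ℝ) * Complex.I)) := by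
    rw [← Complex.exp_add, ← Complex.exp_add]
    congr 1
    push_cast
    ring
  rw [e1, e2]
  ring

lemma Fw_rot (t : ℝ) (w : ℂ) (S : Conf (n + 2) L) :
    Fw β m a x y w (Rt a t S) = Fw β m a x y (w + t) S := by
  unfold Fw
  simp only [En_rot]
  congr 1
  unfold Rt
  rw [zeta_rot, zeta_rot, map_mul, mul_pow, mul_pow, ← Complex.exp_conj, ← Complex.exp_nat_mul,
    ← Complex.exp_nat_mul]
  have e : Complex.exp (Complex.I * (w + t) * (m * (a x - a y) : ℝ)) =
      Complex.exp (Complex.I * w * (m * (a x - a y) : ℝ)) *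
        (Complex.exp (m * ((t * a x : ℝ) * Complex.I)) *
          Complex.exp (m * conj ((t * a y : ℝ) * Complex.I))) := by
    rw [← Complex.exp_add, ← Complex.exp_add]
    congr 1
    rw [map_mul, Complex.conj_I, Complex.conj_ofReal]
    push_cast
    ring
  rw [e]
  ring

lemma measurePreserving_Rt (t : ℝ) :
    MeasurePreserving (Rt (n := n) a t) (prior (n + 2) L) (prior (n + 2) L) := by
  have := unif_isProbabilityMeasure (n + 2) (by omega)
  unfold prior Rt
  refine measurePreserving_pi (fun _ => unif (n + 2)) (fun _ => unif (n + 2)) fun z => ?_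
  exact ⟨(rotS n (t * a z)).continuous.measurable,
    map_unif (n + 2) (rotL n (t * a z)) (rotS n (t * a z)) (rotS_coe n _)⟩

def RtH (t : ℝ) : Conf (n + 2) L ≃ₜ Conf (n + 2) L :=
  Homeomorph.piCongrRight fun z => rotS n (t * a z)

/-- the analytic family -/
def Hw (w : ℂ) : ℂ := ∫ S : Conf (n + 2) L, Fw β m a x y w S ∂(prior (n + 2) L)

lemma Hw_add (t : ℝ) (w : ℂ) : Hw (n := n) β m a x y (w + t) = Hw (n := n) β m a x y w := by
  unfold Hw
  simp only [← Fw_rot]
  have h := measurePreserving_Rt (n := n) a t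
  exact h.integral_comp (RtH (n := n) a t).measurableEmbedding (Fw β m a x y w)

/-- derivative in `w` of the energy -/
def En' (w : ℂ) (S : Conf (n + 2) L) (z z' : Tor L) : ℂ :=
  1 / 2 * (Complex.exp (Complex.I * w * (a z - a z' : ℝ)) * (Complex.I * (a z - a z' : ℝ)) *
      (zeta (S z) * conj (zeta (S z'))) +
    Complex.exp (-(Complex.I * w * (a z - a z' : ℝ))) * (-(Complex.I * (a z - a z' : ℝ))) *
      (conj (zeta (S z)) * zeta (S z')))

lemma hasDerivAt_lin (c : ℂ) (w : ℂ) : HasDerivAt (fun w : ℂ => Complex.I * w * c) (Complex.I * c) w := by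
  have h := ((hasDerivAt_id w).const_mul Complex.I).mul_const c
  refine h.congr_deriv ?_
  ring

lemma hasDerivAt_En (w : ℂ) (S : Conf (n + 2) L) (z z' : Tor L) :
    HasDerivAt (fun w => En a w S z z') (En' a w S z z') w := by
  unfold En En'
  have h1 := (hasDerivAt_lin ((a z - a z' : ℝ) : ℂ) w).cexp
  have h2 := (hasDerivAt_lin ((a z - a z' : ℝ) : ℂ) w).neg.cexp
  exact (((h1.mul_const _).add (h2.mul_const _)).const_mul _).add_const _

/-- derivative in `w` of the integrand -/
def Fw' (w : ℂ) (S : Conf (n + 2) L) : ℂ :=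
  Complex.exp (Complex.I * w * (m * (a x - a y) : ℝ)) * (Complex.I * (m * (a x - a y) : ℝ)) *
    (zeta (S x) ^ m * conj (zeta (S y)) ^ m) *
    Complex.exp (β * ∑ z, (En a w S z (z + (1, 0)) + En a w S z (z + (0, 1)))) +
  Complex.exp (Complex.I * w * (m * (a x - a y) : ℝ)) *
    (zeta (S x) ^ m * conj (zeta (S y)) ^ m) *
    (Complex.exp (β * ∑ z, (En a w S z (z + (1, 0)) + En a w S z (z + (0, 1)))) *
      (β * ∑ z, (En' a w S z (z + (1, 0)) + En' a w S z (z + (0, 1)))))

lemma hasDerivAt_Fw (w : ℂ) (S : Conf (n + 2) L) :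
    HasDerivAt (fun w => Fw β m a x y w S) (Fw' β m a x y w S) w := by
  unfold Fw Fw'
  have h1 := ((hasDerivAt_lin ((m * (a x - a y) : ℝ) : ℂ) w).cexp).mul_const
    (zeta (S x) ^ m * conj (zeta (S y)) ^ m)
  have h2 : HasDerivAt (fun w => ∑ z, (En a w S z (z + (1, 0)) + En a w S z (z + (0, 1))))
      (∑ z, (En' a w S z (z + (1, 0)) + En' a w S z (z + (0, 1)))) w :=
    HasDerivAt.fun_sum fun z _ => (hasDerivAt_En a w S z _).add (hasDerivAt_En a w S z _)
  exact h1.mul (h2.const_mul (β : ℂ)).cexp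

lemma continuous_En (z z' : Tor L) :
    Continuous fun p : ℂ × Conf (n + 2) L => En a p.1 p.2 z z' := by
  unfold En vv
  have h1 : Continuous fun p : ℂ × Conf (n + 2) L => zeta (p.2 z) :=
    continuous_zeta.comp ((continuous_apply z).comp continuous_snd)
  have h2 : Continuous fun p : ℂ × Conf (n + 2) L => zeta (p.2 z') :=
    continuous_zeta.comp ((continuous_apply z').comp continuous_snd)
  fun_prop

lemma continuous_En' (z z' : Tor L) :
    Continuous fun p : ℂ × Conf (n + 2) L => En' a p.1 p.2 z z' := by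
  unfold En'
  have h1 : Continuous fun p : ℂ × Conf (n + 2) L => zeta (p.2 z) :=
    continuous_zeta.comp ((continuous_apply z).comp continuous_snd)
  have h2 : Continuous fun p : ℂ × Conf (n + 2) L => zeta (p.2 z') :=
    continuous_zeta.comp ((continuous_apply z').comp continuous_snd)
  fun_prop

lemma continuous_Fw : Continuous fun p : ℂ × Conf (n + 2) L => Fw β m a x y p.1 p.2 := by
  unfold Fw
  have h1 : Continuous fun p : ℂ × Conf (n + 2) L => zeta (p.2 x) :=
    continuous_zeta.comp ((continuous_apply x).comp continuous_snd)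
  have h2 : Continuous fun p : ℂ × Conf (n + 2) L => zeta (p.2 y) :=
    continuous_zeta.comp ((continuous_apply y).comp continuous_snd)
  have h3 := continuous_En (n := n) a
  fun_prop

lemma continuous_Fw' : Continuous fun p : ℂ × Conf (n + 2) L => Fw' β m a x y p.1 p.2 := by
  unfold Fw'
  have h1 : Continuous fun p : ℂ × Conf (n + 2) L => zeta (p.2 x) :=
    continuous_zeta.comp ((continuous_apply x).comp continuous_snd)
  have h2 : Continuous fun p : ℂ × Conf (n + 2) L => zeta (p.2 y) :=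
    continuous_zeta.comp ((continuous_apply y).comp continuous_snd)
  have h3 := continuous_En (n := n) a
  have h4 := continuous_En' (n := n) a
  fun_prop

lemma isProb_prior : IsProbabilityMeasure (prior (n + 2) L) := by
  have := unif_isProbabilityMeasure (n + 2) (by omega)
  unfold prior
  infer_instance

lemma continuous_pair (w : ℂ) :
    Continuous fun S : Conf (n + 2) L => ((w, S) : ℂ × Conf (n + 2) L) :=
  continuous_const.prodMk continuous_id

attribute [local irreducible] Fw Fw'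

lemma continuous_sec (w : ℂ) : Continuous fun S : Conf (n + 2) L => Fw β m a x y w S :=
  (continuous_Fw (n := n) β m a x y).comp (continuous_pair w)

lemma continuous_sec' (w : ℂ) : Continuous fun S : Conf (n + 2) L => Fw' β m a x y w S :=
  (continuous_Fw' (n := n) β m a x y).comp (continuous_pair w)

lemma integrable_cont {f : Conf (n + 2) L → ℂ} (hf : Continuous f) :
    Integrable f (prior (n + 2) L) := by
  have := isProb_prior (n := n) (L := L)
  obtain ⟨C', hC'⟩ := isCompact_univ.exists_bound_of_continuousOn hf.continuousOn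
  exact Integrable.of_bound hf.aestronglyMeasurable C'
    (Filter.Eventually.of_forall fun S => hC' S (Set.mem_univ _))

lemma exists_bound' (w : ℂ) : ∃ C : ℝ, ∀ w' ∈ ball w 1, ∀ S : Conf (n + 2) L,
    ‖Fw' β m a x y w' S‖ ≤ C := by
  have hK : IsCompact ((closedBall w 1) ×ˢ (Set.univ : Set (Conf (n + 2) L))) :=
    (isCompact_closedBall w 1).prod isCompact_univ
  obtain ⟨C, hC⟩ := hK.exists_bound_of_continuousOn (continuous_Fw' (n := n) β m a x y).continuousOn
  exact ⟨C, fun w' hw' S => hC (w', S) ⟨ball_subset_closedBall hw', Set.mem_univ _⟩⟩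

lemma hasDerivAt_Hw (w : ℂ) :
    HasDerivAt (Hw (n := n) β m a x y) (∫ S : Conf (n + 2) L, Fw' β m a x y w S ∂(prior (n + 2) L))
      w := by
  have := isProb_prior (n := n) (L := L)
  obtain ⟨C, hC⟩ := exists_bound' (n := n) β m a x y w
  have hCi : Integrable (fun _ : Conf (n + 2) L => C) (prior (n + 2) L) := integrable_const C
  refine (hasDerivAt_integral_of_dominated_loc_of_deriv_le (μ := prior (n + 2) L)
    (F := Fw β m a x y) (F' := Fw' β m a x y) (x₀ := w)
    (s := ball w 1) (bound := fun _ => C) (ball_mem_nhds w one_pos) ?_ ?_ ?_ ?_ hCi ?_).2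
  · exact Filter.Eventually.of_forall fun w => (continuous_sec β m a x y w).aestronglyMeasurable
  · exact integrable_cont (continuous_sec β m a x y w)
  · exact (continuous_sec' β m a x y w).aestronglyMeasurable
  · exact Filter.Eventually.of_forall fun S w' hw' => hC w' hw' S
  · exact Filter.Eventually.of_forall fun S w' _ => hasDerivAt_Fw β m a x y w' S

lemma Hw_const (w w' : ℂ) : Hw (n := n) β m a x y w = Hw (n := n) β m a x y w' := by
  have hd : Differentiable ℂ (Hw (n := n) β m a x y) := fun w =>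
    (hasDerivAt_Hw β m a x y w).differentiableAt
  apply is_const_of_deriv_eq_zero hd
  intro w
  -- derivative in the real direction
  have h1 : HasDerivAt (fun t : ℝ => Hw (n := n) β m a x y (w + t))
      (deriv (Hw (n := n) β m a x y) w) 0 := by
    have h2 : HasDerivAt (Hw (n := n) β m a x y) (deriv (Hw (n := n) β m a x y) w)
        (w + ((0 : ℝ) : ℂ)) := by
      rw [Complex.ofReal_zero, add_zero]
      exact (hd w).hasDerivAt
    have h3 : HasDerivAt (fun t : ℝ => w + (t : ℂ)) 1 0 := by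
      have := (Complex.ofRealCLM.hasDerivAt (x := (0 : ℝ))).const_add w
      simpa using this
    have h4 := h2.scomp_of_eq (0 : ℝ) h3 rfl
    rw [one_smul] at h4
    exact h4
  have h2 : HasDerivAt (fun t : ℝ => Hw (n := n) β m a x y (w + t)) 0 0 := by
    have : (fun t : ℝ => Hw (n := n) β m a x y (w + t)) = fun _ => Hw (n := n) β m a x y w :=
      funext fun t => Hw_add β m a x y t w
    rw [this]
    exact hasDerivAt_const _ _
  exact h1.unique h2

end family

/-! ### the two special values -/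

section values
set_option linter.unusedSectionVars false
variable {n L : ℕ} [NeZero L] (β : ℝ) (m : ℕ) (a : Tor L → ℝ) (x y : Tor L)

lemma En_zero (S : Conf (n + 2) L) (z z' : Tor L) :
    En a 0 S z z' = ((inner ℝ (S z : EuclideanSpace ℝ (Fin (n + 2))) (S z') : ℝ) : ℂ) := by
  unfold En vv
  rw [mul_zero, zero_mul, neg_zero, Complex.exp_zero, one_mul, one_mul]
  have e : conj (zeta (S z)) * zeta (S z') = conj (zeta (S z) * conj (zeta (S z'))) := by
    rw [map_mul, Complex.conj_conj]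
  rw [e, Complex.add_conj]
  push_cast
  ring

lemma Fw_zero (S : Conf (n + 2) L) : Fw β m a x y 0 S =
    Real.exp (β * pairSum S) • (zeta (S x) ^ m * conj (zeta (S y)) ^ m) := by
  unfold Fw
  rw [mul_zero, zero_mul, Complex.exp_zero, one_mul, Complex.real_smul, mul_comm]
  congr 1
  simp only [En_zero]
  unfold pairSum
  push_cast
  rfl

lemma re_En_I (S : Conf (n + 2) L) (z z' : Tor L) : (En a Complex.I S z z').re =
    Real.cosh (a z - a z') * (zeta (S z) * conj (zeta (S z'))).re + vv (S z) (S z') := by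
  unfold En
  have e : conj (zeta (S z)) * zeta (S z') = conj (zeta (S z) * conj (zeta (S z'))) := by
    rw [map_mul, Complex.conj_conj]
  rw [e, Complex.I_mul_I]
  set P := zeta (S z) * conj (zeta (S z'))
  have e1 : Complex.exp (-1 * ((a z - a z' : ℝ) : ℂ)) = ((Real.exp (-(a z - a z')) : ℝ) : ℂ) := by
    push_cast; congr 1; ring
  have e2 : Complex.exp (-(-1 * ((a z - a z' : ℝ) : ℂ))) = ((Real.exp (a z - a z') : ℝ) : ℂ) := by
    push_cast; congr 1; ring
  rw [e1, e2, Complex.add_re, Complex.ofReal_re, Real.cosh_eq]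
  have e3 : (1 / 2 * (((Real.exp (-(a z - a z')) : ℝ) : ℂ) * P +
      ((Real.exp (a z - a z') : ℝ) : ℂ) * conj P)).re =
      1 / 2 * (Real.exp (-(a z - a z')) * P.re + Real.exp (a z - a z') * P.re) := by
    have h2 : (1 / 2 : ℂ) = ((1 / 2 : ℝ) : ℂ) := by push_cast; rfl
    rw [h2, Complex.re_ofReal_mul, Complex.add_re, Complex.re_ofReal_mul, Complex.re_ofReal_mul,
      Complex.conj_re]
  rw [e3]
  ring

lemma re_En_I_le (S : Conf (n + 2) L) (z z' : Tor L) : (En a Complex.I S z z').re ≤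
    inner ℝ (S z : EuclideanSpace ℝ (Fin (n + 2))) (S z') +
      1 / 2 * (Real.cosh (a z - a z') - 1) * ‖zeta (S z)‖ ^ 2 +
      1 / 2 * (Real.cosh (a z - a z') - 1) * ‖zeta (S z')‖ ^ 2 := by
  rw [re_En_I]
  unfold vv
  have h1 : (zeta (S z) * conj (zeta (S z'))).re ≤ ‖zeta (S z)‖ * ‖zeta (S z')‖ := by
    refine (Complex.re_le_norm _).trans ?_
    rw [norm_mul, RCLike.norm_conj]
  have h2 : 0 ≤ Real.cosh (a z - a z') - 1 := by linarith [Real.one_le_cosh (a z - a z')]
  have h3 := mul_le_mul_of_nonneg_left h1 h2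
  have h4 : ‖zeta (S z)‖ * ‖zeta (S z')‖ ≤ 1 / 2 * ‖zeta (S z)‖ ^ 2 + 1 / 2 * ‖zeta (S z')‖ ^ 2 := by
    nlinarith [sq_nonneg (‖zeta (S z)‖ - ‖zeta (S z')‖)]
  have h5 := mul_le_mul_of_nonneg_left h4 h2
  linarith

lemma sum_shift (e : Tor L) (r : Tor L → ℝ) :
    ∑ z, (Real.cosh (a z - a (z + e)) - 1) * r (z + e) =
      ∑ z, (Real.cosh (a z - a (z - e)) - 1) * r z := by
  rw [← Equiv.sum_comp (Equiv.addRight e) (fun z => (Real.cosh (a z - a (z - e)) - 1) * r z)]
  refine Finset.sum_congr rfl fun z _ => ?_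
  simp only [Equiv.coe_addRight, add_sub_cancel_right]
  rw [← Real.cosh_neg, neg_sub]

lemma sum_En_le (S : Conf (n + 2) L) :
    (∑ z, (En a Complex.I S z (z + (1, 0)) + En a Complex.I S z (z + (0, 1)))).re ≤
      pairSum S + ∑ z, Wt a z * ‖zeta (S z)‖ ^ 2 := by
  rw [Complex.re_sum]
  have h1 : ∀ z : Tor L, (En a Complex.I S z (z + (1, 0)) + En a Complex.I S z (z + (0, 1))).re ≤
      (inner ℝ (S z : EuclideanSpace ℝ (Fin (n + 2))) (S (z + (1, 0))) +
        inner ℝ (S z : EuclideanSpace ℝ (Fin (n + 2))) (S (z + (0, 1)))) +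
      1 / 2 * ((Real.cosh (a z - a (z + (1, 0))) - 1) * ‖zeta (S z)‖ ^ 2) +
      1 / 2 * ((Real.cosh (a z - a (z + (1, 0))) - 1) * ‖zeta (S (z + (1, 0)))‖ ^ 2) +
      1 / 2 * ((Real.cosh (a z - a (z + (0, 1))) - 1) * ‖zeta (S z)‖ ^ 2) +
      1 / 2 * ((Real.cosh (a z - a (z + (0, 1))) - 1) * ‖zeta (S (z + (0, 1)))‖ ^ 2) := by
    intro z
    rw [Complex.add_re]
    have := re_En_I_le a S z (z + (1, 0))
    have := re_En_I_le a S z (z + (0, 1))
    linarith
  refine (Finset.sum_le_sum fun z _ => h1 z).trans (le_of_eq ?_)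
  rw [Finset.sum_add_distrib, Finset.sum_add_distrib, Finset.sum_add_distrib,
    Finset.sum_add_distrib, ← Finset.mul_sum, ← Finset.mul_sum, ← Finset.mul_sum,
    ← Finset.mul_sum, sum_shift a (1, 0) (fun z => ‖zeta (S z)‖ ^ 2),
    sum_shift a (0, 1) (fun z => ‖zeta (S z)‖ ^ 2)]
  unfold pairSum Wt
  rw [Finset.mul_sum, Finset.mul_sum, Finset.mul_sum, Finset.mul_sum, add_assoc, add_assoc,
    add_assoc, ← Finset.sum_add_distrib, ← Finset.sum_add_distrib, ← Finset.sum_add_distrib]
  congr 1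
  refine Finset.sum_congr rfl fun z _ => ?_
  ring

lemma norm_Fw_I_le (hβ : 0 ≤ β) (S : Conf (n + 2) L) : ‖Fw β m a x y Complex.I S‖ ≤
    Real.exp (-(m * (a x - a y))) *
      (Real.exp (β * pairSum S) * Real.exp (β * ∑ z, Wt a z * ‖zeta (S z)‖ ^ 2)) := by
  unfold Fw
  rw [norm_mul, norm_mul, norm_mul, norm_pow, norm_pow, RCLike.norm_conj, Complex.norm_exp,
    Complex.norm_exp, Complex.I_mul_I]
  have e1 : (-1 * ((m * (a x - a y) : ℝ) : ℂ)).re = -(m * (a x - a y)) := by
    rw [neg_one_mul, Complex.neg_re, Complex.ofReal_re]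
  rw [e1]
  have h1 : ‖zeta (S x)‖ ^ m * ‖zeta (S y)‖ ^ m ≤ 1 := by
    have g1 := pow_le_one₀ (n := m) (norm_nonneg _) (norm_zeta_le (S x))
    have g2 := pow_le_one₀ (n := m) (norm_nonneg _) (norm_zeta_le (S y))
    calc ‖zeta (S x)‖ ^ m * ‖zeta (S y)‖ ^ m ≤ 1 * 1 := by gcongr
      _ = 1 := one_mul 1
  have h2 : (β * ∑ z, (En a Complex.I S z (z + (1, 0)) + En a Complex.I S z (z + (0, 1))) : ℂ).re ≤
      β * pairSum S + β * ∑ z, Wt a z * ‖zeta (S z)‖ ^ 2 := by
    rw [Complex.re_ofReal_mul, ← mul_add]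
    exact mul_le_mul_of_nonneg_left (sum_En_le a S) hβ
  rw [← Real.exp_add]
  have h3 := Real.exp_le_exp.2 h2
  have h4 : 0 < Real.exp (-(m * (a x - a y))) := Real.exp_pos _
  calc Real.exp (-(m * (a x - a y))) * (‖zeta (S x)‖ ^ m * ‖zeta (S y)‖ ^ m) * _
      ≤ Real.exp (-(m * (a x - a y))) * 1 *
        Real.exp (β * pairSum S + β * ∑ z, Wt a z * ‖zeta (S z)‖ ^ 2) := by gcongr
    _ = _ := by ring

end values

end MSdev

open MeasureTheory Metric ComplexConjugate MSdev

/-- McBryan–Spencer inequality with the in-plane lengths kept. -/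
theorem ms (n L : ℕ) [NeZero L] (β : ℝ) (hβ : 0 ≤ β) (m : ℕ) (a : Tor L → ℝ) (x y : Tor L) :
    ‖∫ S, zeta (S x) ^ m * conj (zeta (S y)) ^ m ∂(gm (n + 2) L β)‖ ≤
      Real.exp (-(m * (a x - a y))) *
        ∫ S, Real.exp (β * ∑ z, Wt a z * ‖zeta (S z)‖ ^ 2) ∂(gm (n + 2) L β) := by
  have := isProb_prior (n := n) (L := L)
  have hZ : 0 ≤ Zpart (n + 2) L β := integral_nonneg fun S => (Real.exp_pos _).le
  have hZ' : 0 ≤ (Zpart (n + 2) L β)⁻¹ := inv_nonneg.2 hZ
  rw [MSdev.integral_gm, MSdev.integral_gm, norm_smul, Real.norm_of_nonneg hZ', smul_eq_mul]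
  have e0 : ∫ S, Real.exp (β * pairSum S) • (zeta (S x) ^ m * conj (zeta (S y)) ^ m)
      ∂(prior (n + 2) L) = Hw (n := n) β m a x y 0 := by
    unfold Hw
    congr 1
    funext S
    rw [Fw_zero]
  rw [e0, Hw_const β m a x y 0 Complex.I]
  have hzc : ∀ z : Tor L, Continuous fun S : Conf (n + 2) L => ‖zeta (S z)‖ ^ 2 := fun z =>
    ((continuous_zeta.comp (continuous_apply z)).norm.pow 2)
  have hps := MSdev.continuous_pairSum (n + 2) L
  have hc2 : Continuous fun S : Conf (n + 2) L => Real.exp (β * pairSum S) *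
      Real.exp (β * ∑ z, Wt a z * ‖zeta (S z)‖ ^ 2) := by fun_prop
  have hint2 : Integrable (fun S : Conf (n + 2) L => Real.exp (β * pairSum S) *
      Real.exp (β * ∑ z, Wt a z * ‖zeta (S z)‖ ^ 2)) (prior (n + 2) L) := by
    obtain ⟨C', hC'⟩ := isCompact_univ.exists_bound_of_continuousOn hc2.continuousOn
    exact Integrable.of_bound hc2.aestronglyMeasurable C'
      (Filter.Eventually.of_forall fun S => hC' S (Set.mem_univ _))
  have h1 : ‖Hw (n := n) β m a x y Complex.I‖ ≤ Real.exp (-(m * (a x - a y))) *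
      ∫ S : Conf (n + 2) L, Real.exp (β * pairSum S) *
        Real.exp (β * ∑ z, Wt a z * ‖zeta (S z)‖ ^ 2) ∂(prior (n + 2) L) := by
    rw [← integral_const_mul]
    refine (norm_integral_le_integral_norm _).trans ?_
    apply integral_mono_of_nonneg
    · exact Filter.Eventually.of_forall fun S => norm_nonneg _
    · exact hint2.const_mul _
    · exact Filter.Eventually.of_forall fun S => norm_Fw_I_le β m a x y hβ S
  simp only [smul_eq_mul]
  calc (Zpart (n + 2) L β)⁻¹ * ‖Hw (n := n) β m a x y Complex.I‖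
      ≤ (Zpart (n + 2) L β)⁻¹ * (Real.exp (-(m * (a x - a y))) *
      ∫ S : Conf (n + 2) L, Real.exp (β * pairSum S) *
        Real.exp (β * ∑ z, Wt a z * ‖zeta (S z)‖ ^ 2) ∂(prior (n + 2) L)) := by gcongr
    _ = _ := by ring

end Pool.Agent.H5R2.ON
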