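import Mathlib
import Pool.Agent.H5R2.ON.Basic

/-!
# Symmetry identities
-/

set_option autoImplicit false

noncomputable section

namespace Pool.Agent.H5R2.ON

open MeasureTheory Metric ComplexConjugate

/-- The homeomorphism of the sphere given by a linear isometry. -/
def sphHomeo {N : ℕ} (f : EuclideanSpace ℝ (Fin N) ≃ₗᵢ[ℝ] EuclideanSpace ℝ (Fin N)) :
    Sph N ≃ₜ Sph N where
  toFun s := ⟨f s, by simp⟩
  invFun s := ⟨f.symm s, by simp⟩
  left_inv s := by ext1; simp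
  right_inv s := by ext1; simp
  continuous_toFun := by fun_prop
  continuous_invFun := by fun_prop

theorem sphHomeo_coe {N : ℕ} (f : EuclideanSpace ℝ (Fin N) ≃ₗᵢ[ℝ] EuclideanSpace ℝ (Fin N))
    (s : Sph N) : (sphHomeo f s : EuclideanSpace ℝ (Fin N)) = f s := rfl

/-- invariance of the Gibbs measure under a global linear isometry -/
theorem integral_gm_rot' (N L : ℕ) (hN : N ≠ 0) [NeZero L] (β : ℝ)
    (f : EuclideanSpace ℝ (Fin N) ≃ₗᵢ[ℝ] EuclideanSpace ℝ (Fin N))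
    {E : Type*} [NormedAddCommGroup E] [NormedSpace ℝ E] (F : Conf N L → E) :
    ∫ S, F (fun x => sphHomeo f (S x)) ∂(gm N L β) = ∫ S, F S ∂(gm N L β) := by
  rw [integral_gm N L hN, integral_gm N L hN]
  have hps : ∀ S : Conf N L, pairSum (fun x => sphHomeo f (S x)) = pairSum S := by
    intro S
    unfold pairSum
    refine Finset.sum_congr rfl fun x _ => ?_
    simp only [sphHomeo_coe, LinearIsometryEquiv.inner_map_map]
  rw [← integral_prior_rot N L (fun _ => f) (fun _ => sphHomeo f) (fun _ s => sphHomeo_coe f s)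
    (fun S => (Real.exp (β * pairSum S) / Zpart N L β) • F S)]
  refine integral_congr_ae (Filter.Eventually.of_forall fun S => ?_)
  simp only [hps]

section
variable {n L : ℕ} [NeZero L] {β : ℝ}

/-- coordinate -/
def cc {N : ℕ} (a : Fin N) (s : Sph N) : ℝ := (s : EuclideanSpace ℝ (Fin N)) a

theorem continuous_cc {N : ℕ} (a : Fin N) : Continuous (cc a) := by
  unfold cc
  fun_prop

/-- invariance under permutations of the coordinates -/
theorem perm_inv (n L : ℕ) [NeZero L] (β : ℝ) (σ : Equiv.Perm (Fin (n + 2)))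
    (G : (Tor L → Fin (n + 2) → ℝ) → ℝ) :
    ∫ S : Conf (n + 2) L, G (fun x a => cc (σ a) (S x)) ∂(gm (n + 2) L β)
      = ∫ S : Conf (n + 2) L, G (fun x a => cc a (S x)) ∂(gm (n + 2) L β) := by
  have h := integral_gm_rot' (n + 2) L (by omega) β
    (LinearIsometryEquiv.piLpCongrLeft 2 ℝ ℝ σ.symm)
    (fun S : Conf (n + 2) L => G (fun x a => cc a (S x)))
  rw [← h]
  refine integral_congr_ae (Filter.Eventually.of_forall fun S => ?_)
  simp only
  congr 1

/-- reflection exchanging the real and the imaginary part of `ζ²` -/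
theorem refl_inv (n L : ℕ) [NeZero L] (β : ℝ) (G : (Tor L → ℝ × ℝ) → ℝ) :
    ∫ S : Conf (n + 2) L, G (fun x => ((cc 0 (S x) + cc 1 (S x)) / Real.sqrt 2,
        (cc 0 (S x) - cc 1 (S x)) / Real.sqrt 2)) ∂(gm (n + 2) L β)
      = ∫ S : Conf (n + 2) L, G (fun x => (cc 0 (S x), cc 1 (S x))) ∂(gm (n + 2) L β) := by
  let u : EuclideanSpace ℝ (Fin (n + 2)) :=
    WithLp.toLp 2 (fun a => if a = 0 then 1 + Real.sqrt 2 else if a = 1 then 1 else 0)
  have hu0 : u 0 = 1 + Real.sqrt 2 := by simp [u]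
  have hu1 : u 1 = 1 := by simp [u]
  have hs2 : Real.sqrt 2 ^ 2 = 2 := Real.sq_sqrt (by norm_num)
  have hsp : 0 < Real.sqrt 2 := Real.sqrt_pos.2 (by norm_num)
  have hinner : ∀ v : EuclideanSpace ℝ (Fin (n + 2)),
      inner ℝ u v = (1 + Real.sqrt 2) * v 0 + v 1 := by
    intro v
    rw [PiLp.inner_apply, Fin.sum_univ_succ, Fin.sum_univ_succ]
    have h0 : ∑ i : Fin n, inner ℝ (u i.succ.succ) (v i.succ.succ) = 0 := by
      refine Finset.sum_eq_zero fun i _ => ?_
      have h1 : u i.succ.succ = 0 := by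
        have h2 : i.succ.succ ≠ (1 : Fin (n + 2)) := by
          intro h
          have := congrArg Fin.val h
          simp at this
        simp [u, h2, Fin.succ_ne_zero]
      rw [h1]; simp
    rw [h0]
    have h3 : (Fin.succ 0 : Fin (n + 2)) = 1 := rfl
    rw [h3, hu0, hu1]
    simp [mul_comm]
  have hnorm : ‖u‖ ^ 2 = 4 + 2 * Real.sqrt 2 := by
    rw [← real_inner_self_eq_norm_sq, hinner, hu0, hu1]
    nlinarith
  have h := integral_gm_rot' (n + 2) L (by omega) β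
    ((Submodule.span ℝ {u}).reflection)
    (fun S : Conf (n + 2) L => G (fun x => (cc 0 (S x), cc 1 (S x))))
  rw [← h]
  refine integral_congr_ae (Filter.Eventually.of_forall fun S => ?_)
  simp only
  congr 1
  funext x
  have hform : ∀ a : Fin (n + 2), cc a (sphHomeo (Submodule.span ℝ {u}).reflection (S x))
      = 2 * (((1 + Real.sqrt 2) * cc 0 (S x) + cc 1 (S x)) / (4 + 2 * Real.sqrt 2)) * u a
        - cc a (S x) := by
    intro a
    unfold cc
    rw [sphHomeo_coe, Submodule.reflection_singleton_apply, hinner]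
    simp only [RCLike.ofReal_real_eq_id, id_eq, hnorm]
    simp [mul_assoc]
  rw [hform, hform, hu0, hu1]
  ext
  · simp only
    field_simp
    ring_nf
    rw [show Real.sqrt 2 ^ 3 = 2 * Real.sqrt 2 by rw [pow_succ, hs2], hs2]
    ring
  · simp only
    field_simp
    ring_nf
    rw [hs2]
    ring

theorem gm_integrable (n L : ℕ) [NeZero L] (β : ℝ) {F : Conf (n + 2) L → ℝ}
    (hF : Continuous F) : Integrable F (gm (n + 2) L β) :=
  integrable_gm (n + 2) L (by omega) β hF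

theorem cont_cc (n : ℕ) {L : ℕ} (a : Fin (n + 2)) (x : Tor L) :
    Continuous fun S : Conf (n + 2) L => cc a (S x) :=
  (continuous_cc a).comp (continuous_apply x)

theorem sum_cc_sq {N : ℕ} (s : Sph N) : ∑ a, cc a s ^ 2 = 1 := by
  have h := EuclideanSpace.real_norm_sq_eq (s : EuclideanSpace ℝ (Fin N))
  have h1 : ‖(s : EuclideanSpace ℝ (Fin N))‖ = 1 := by simp
  rw [h1] at h
  rw [← one_pow 2, h]
  rfl

theorem inner_eq_sum {N : ℕ} (s t : Sph N) :
    inner ℝ (s : EuclideanSpace ℝ (Fin N)) (t : EuclideanSpace ℝ (Fin N))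
      = ∑ a, cc a s * cc a t := by
  rw [PiLp.inner_apply]
  refine Finset.sum_congr rfl fun a _ => ?_
  simp [cc, mul_comm]

theorem corr_const (n L : ℕ) [NeZero L] (β : ℝ) (x y : Tor L) (a b : Fin (n + 2)) :
    ∫ S : Conf (n + 2) L, cc a (S x) * cc a (S y) ∂(gm (n + 2) L β)
      = ∫ S : Conf (n + 2) L, cc b (S x) * cc b (S y) ∂(gm (n + 2) L β) := by
  have h := perm_inv n L β (Equiv.swap b a) (fun c => c x b * c y b)
  simp only [Equiv.swap_apply_left] at h
  exact h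

theorem sq_const (n L : ℕ) [NeZero L] (β : ℝ) (x : Tor L) (a b : Fin (n + 2)) :
    ∫ S : Conf (n + 2) L, cc a (S x) ^ 2 ∂(gm (n + 2) L β)
      = ∫ S : Conf (n + 2) L, cc b (S x) ^ 2 ∂(gm (n + 2) L β) := by
  have h := perm_inv n L β (Equiv.swap b a) (fun c => c x b ^ 2)
  simp only [Equiv.swap_apply_left] at h
  exact h

/-- second moments of the squares -/
def MM (n L : ℕ) [NeZero L] (β : ℝ) (x y : Tor L) (a b : Fin (n + 2)) : ℝ :=
  ∫ S : Conf (n + 2) L, cc a (S x) ^ 2 * cc b (S y) ^ 2 ∂(gm (n + 2) L β)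

theorem MM_perm (n L : ℕ) [NeZero L] (β : ℝ) (x y : Tor L) (σ : Equiv.Perm (Fin (n + 2)))
    (a b : Fin (n + 2)) : MM n L β x y (σ a) (σ b) = MM n L β x y a b :=
  perm_inv n L β σ (fun c => c x a ^ 2 * c y b ^ 2)

theorem MM_diag (n L : ℕ) [NeZero L] (β : ℝ) (x y : Tor L) (a : Fin (n + 2)) :
    MM n L β x y a a = MM n L β x y 0 0 := by
  have h := MM_perm n L β x y (Equiv.swap 0 a) 0 0
  rwa [Equiv.swap_apply_left] at h

theorem MM_off (n L : ℕ) [NeZero L] (β : ℝ) (x y : Tor L) (a b : Fin (n + 2)) (hab : a ≠ b) :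
    MM n L β x y a b = MM n L β x y 0 1 := by
  set σ1 : Equiv.Perm (Fin (n + 2)) := Equiv.swap 0 a with hσ1
  have h1 : σ1 0 = a := Equiv.swap_apply_left 0 a
  set b' := σ1 b with hb'
  have hb2 : σ1 b' = b := by rw [hb', hσ1, Equiv.swap_apply_self]
  have hb0 : b' ≠ 0 := by
    intro h
    rw [h, h1] at hb2
    exact hab hb2
  set σ2 : Equiv.Perm (Fin (n + 2)) := Equiv.swap 1 b' with hσ2
  have h2 : σ2 0 = 0 := by
    rw [hσ2]
    exact Equiv.swap_apply_of_ne_of_ne (by simp) hb0.symm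
  have h3 : σ2 1 = b' := Equiv.swap_apply_left 1 b'
  have h := MM_perm n L β x y (σ1 * σ2) 0 1
  rw [Equiv.Perm.mul_apply, Equiv.Perm.mul_apply, h2, h3, h1, hb2] at h
  exact h

theorem zeta_re {n : ℕ} (s : Sph (n + 2)) : (zeta s).re = cc 0 s := rfl
theorem zeta_im {n : ℕ} (s : Sph (n + 2)) : (zeta s).im = cc 1 s := rfl

theorem norm_zeta_sq {n : ℕ} (s : Sph (n + 2)) : ‖zeta s‖ ^ 2 = cc 0 s ^ 2 + cc 1 s ^ 2 := by
  rw [Complex.sq_norm, Complex.normSq_apply, zeta_re, zeta_im]; ring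

theorem continuous_zeta {n : ℕ} : Continuous (zeta : Sph (n + 2) → ℂ) := by
  have h : (zeta : Sph (n + 2) → ℂ) = fun s => ((cc 0 s : ℝ) : ℂ) + ((cc 1 s : ℝ) : ℂ) * Complex.I := by
    funext s
    apply Complex.ext <;> simp [zeta_re, zeta_im]
  rw [h]
  exact (Complex.continuous_ofReal.comp (continuous_cc 0)).add
    ((Complex.continuous_ofReal.comp (continuous_cc 1)).mul continuous_const)

theorem cont_zeta (n : ℕ) {L : ℕ} (x : Tor L) :
    Continuous fun S : Conf (n + 2) L => zeta (S x) :=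
  continuous_zeta.comp (continuous_apply x)

theorem integral_re' (n L : ℕ) [NeZero L] (β : ℝ) {F : Conf (n + 2) L → ℂ} (hF : Continuous F) :
    (∫ S, F S ∂(gm (n + 2) L β)).re = ∫ S, (F S).re ∂(gm (n + 2) L β) := by
  have h := Complex.reCLM.integral_comp_comm (integrable_gm (n + 2) L (by omega) β hF)
  exact h.symm

end

theorem inner_eq (n L : ℕ) [NeZero L] (β : ℝ) (x y : Tor L) :
    ∫ S, inner ℝ (S x : EuclideanSpace ℝ (Fin (n + 2))) (S y) ∂(gm (n + 2) L β) =
      ((n + 2 : ℝ) / 2) * (∫ S, zeta (S x) * conj (zeta (S y)) ∂(gm (n + 2) L β)).re := by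
  have h1 : ∫ S : Conf (n + 2) L, inner ℝ (S x : EuclideanSpace ℝ (Fin (n + 2))) (S y)
      ∂(gm (n + 2) L β)
      = (n + 2 : ℝ) * ∫ S : Conf (n + 2) L, cc 0 (S x) * cc 0 (S y) ∂(gm (n + 2) L β) := by
    simp only [inner_eq_sum]
    rw [integral_finsetSum]
    · rw [Finset.sum_congr rfl fun a _ => corr_const n L β x y a 0]
      rw [Finset.sum_const, Finset.card_univ, Fintype.card_fin, nsmul_eq_mul]
      push_cast; ring
    · intro a _
      exact gm_integrable n L β ((cont_cc n a x).mul (cont_cc n a y))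
  have hc : Continuous fun S : Conf (n + 2) L => zeta (S x) * conj (zeta (S y)) :=
    (cont_zeta n x).mul (Complex.continuous_conj.comp (cont_zeta n y))
  rw [h1, integral_re' n L β hc]
  have h2 : ∫ S : Conf (n + 2) L, (zeta (S x) * conj (zeta (S y))).re ∂(gm (n + 2) L β)
      = 2 * ∫ S : Conf (n + 2) L, cc 0 (S x) * cc 0 (S y) ∂(gm (n + 2) L β) := by
    have h3 : ∀ S : Conf (n + 2) L, (zeta (S x) * conj (zeta (S y))).re
        = cc 0 (S x) * cc 0 (S y) + cc 1 (S x) * cc 1 (S y) := by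
      intro S
      simp [zeta_re, zeta_im]
    simp only [h3]
    have c0 : Continuous fun S : Conf (n + 2) L => cc 0 (S x) * cc 0 (S y) :=
      (cont_cc n 0 x).mul (cont_cc n 0 y)
    have c1 : Continuous fun S : Conf (n + 2) L => cc 1 (S x) * cc 1 (S y) :=
      (cont_cc n 1 x).mul (cont_cc n 1 y)
    rw [integral_add (gm_integrable n L β c0) (gm_integrable n L β c1), corr_const n L β x y 1 0]
    ring
  rw [h2]; ring

theorem sq_zero_mean (n L : ℕ) [NeZero L] (β : ℝ) (x : Tor L) (a : Fin (n + 2)) :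
    ∫ S : Conf (n + 2) L, cc a (S x) ^ 2 ∂(gm (n + 2) L β) = 1 / (n + 2 : ℝ) := by
  have hprob := gm_isProbabilityMeasure (n + 2) L (by omega) β
  have h1 : ∫ S : Conf (n + 2) L, ∑ b, cc b (S x) ^ 2 ∂(gm (n + 2) L β) = 1 := by
    simp only [sum_cc_sq]
    simp
  rw [integral_finsetSum] at h1
  · rw [Finset.sum_congr rfl fun b _ => sq_const n L β x b a, Finset.sum_const,
      Finset.card_univ, Fintype.card_fin, nsmul_eq_mul] at h1
    push_cast at h1
    have h2 : (0:ℝ) < n + 2 := by positivity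
    field_simp
    linarith
  · intro b _
    exact gm_integrable n L β ((cont_cc n b x).pow 2)

theorem sq_mean (n L : ℕ) [NeZero L] (β : ℝ) (x : Tor L) :
    ∫ S, ‖zeta (S x)‖ ^ 2 ∂(gm (n + 2) L β) = 2 / (n + 2 : ℝ) := by
  simp only [norm_zeta_sq]
  have c0 : Continuous fun S : Conf (n + 2) L => cc 0 (S x) ^ 2 := (cont_cc n 0 x).pow 2
  have c1 : Continuous fun S : Conf (n + 2) L => cc 1 (S x) ^ 2 := (cont_cc n 1 x).pow 2
  rw [integral_add (gm_integrable n L β c0) (gm_integrable n L β c1), sq_zero_mean, sq_zero_mean]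
  ring

theorem MM_rel (n L : ℕ) [NeZero L] (β : ℝ) (x y : Tor L) :
    (n + 2 : ℝ) * MM n L β x y 0 0 + (n + 2 : ℝ) * (n + 1) * MM n L β x y 0 1 = 1 := by
  have hprob := gm_isProbabilityMeasure (n + 2) L (by omega) β
  have h1 : ∫ S : Conf (n + 2) L, ∑ a, ∑ b, cc a (S x) ^ 2 * cc b (S y) ^ 2
      ∂(gm (n + 2) L β) = 1 := by
    have h2 : ∀ S : Conf (n + 2) L, ∑ a, ∑ b, cc a (S x) ^ 2 * cc b (S y) ^ 2 = 1 := by
      intro S
      rw [← Finset.sum_mul_sum, sum_cc_sq, sum_cc_sq, one_mul]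
    simp only [h2]
    simp
  rw [integral_finsetSum] at h1
  · have h3 : ∀ a : Fin (n + 2), ∫ S : Conf (n + 2) L, ∑ b, cc a (S x) ^ 2 * cc b (S y) ^ 2
        ∂(gm (n + 2) L β) = MM n L β x y 0 0 + (n + 1 : ℝ) * MM n L β x y 0 1 := by
      intro a
      rw [integral_finsetSum]
      · change ∑ b, MM n L β x y a b = _
        rw [← Finset.add_sum_erase _ _ (Finset.mem_univ a), MM_diag]
        congr 1
        rw [Finset.sum_congr rfl fun b hb => MM_off n L β x y a b (Finset.ne_of_mem_erase hb).symm]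
        rw [Finset.sum_const, Finset.card_erase_of_mem (Finset.mem_univ a), Finset.card_univ,
          Fintype.card_fin, nsmul_eq_mul]
        push_cast
        simp
      · intro b _
        exact gm_integrable n L β (((cont_cc n a x).pow 2).mul ((cont_cc n b y).pow 2))
    rw [Finset.sum_congr rfl fun a _ => h3 a, Finset.sum_const, Finset.card_univ,
      Fintype.card_fin, nsmul_eq_mul] at h1
    push_cast at h1
    linarith
  · intro a _
    refine gm_integrable n L β (continuous_finsetSum _ fun b _ => ?_)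
    exact ((cont_cc n a x).pow 2).mul ((cont_cc n b y).pow 2)

theorem sq_corr (n L : ℕ) [NeZero L] (β : ℝ) (x y : Tor L) :
    |∫ S, (‖zeta (S x)‖ ^ 2 - 2 / (n + 2 : ℝ)) * (‖zeta (S y)‖ ^ 2 - 2 / (n + 2 : ℝ))
        ∂(gm (n + 2) L β)| ≤
      ‖∫ S, zeta (S x) ^ 2 * conj (zeta (S y)) ^ 2 ∂(gm (n + 2) L β)‖ := by
  have hprob := gm_isProbabilityMeasure (n + 2) L (by omega) β
  have hN : (0:ℝ) < n + 2 := by positivity
  set A := MM n L β x y 0 0 with hA
  set B := MM n L β x y 0 1 with hB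
  have hrel := MM_rel n L β x y
  rw [← hA, ← hB] at hrel
  have h00 : Continuous fun S : Conf (n + 2) L => cc 0 (S x) ^ 2 * cc 0 (S y) ^ 2 :=
    ((cont_cc n 0 x).pow 2).mul ((cont_cc n 0 y).pow 2)
  have h01 : Continuous fun S : Conf (n + 2) L => cc 0 (S x) ^ 2 * cc 1 (S y) ^ 2 :=
    ((cont_cc n 0 x).pow 2).mul ((cont_cc n 1 y).pow 2)
  have h10 : Continuous fun S : Conf (n + 2) L => cc 1 (S x) ^ 2 * cc 0 (S y) ^ 2 :=
    ((cont_cc n 1 x).pow 2).mul ((cont_cc n 0 y).pow 2)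
  have h11 : Continuous fun S : Conf (n + 2) L => cc 1 (S x) ^ 2 * cc 1 (S y) ^ 2 :=
    ((cont_cc n 1 x).pow 2).mul ((cont_cc n 1 y).pow 2)
  have i00 : ∫ S : Conf (n + 2) L, cc 0 (S x) ^ 2 * cc 0 (S y) ^ 2 ∂(gm (n + 2) L β) = A := rfl
  have i01 : ∫ S : Conf (n + 2) L, cc 0 (S x) ^ 2 * cc 1 (S y) ^ 2 ∂(gm (n + 2) L β) = B := rfl
  have i10 : ∫ S : Conf (n + 2) L, cc 1 (S x) ^ 2 * cc 0 (S y) ^ 2 ∂(gm (n + 2) L β) = B := by
    exact MM_off n L β x y 1 0 (by simp)
  have i11 : ∫ S : Conf (n + 2) L, cc 1 (S x) ^ 2 * cc 1 (S y) ^ 2 ∂(gm (n + 2) L β) = A := by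
    exact MM_diag n L β x y 1
  -- the covariance
  have hcov : ∫ S : Conf (n + 2) L, (‖zeta (S x)‖ ^ 2 - 2 / (n + 2 : ℝ)) *
      (‖zeta (S y)‖ ^ 2 - 2 / (n + 2 : ℝ)) ∂(gm (n + 2) L β)
      = 2 * A + 2 * B - (2 / (n + 2 : ℝ)) ^ 2 := by
    have e1 : ∀ S : Conf (n + 2) L, (‖zeta (S x)‖ ^ 2 - 2 / (n + 2 : ℝ)) *
        (‖zeta (S y)‖ ^ 2 - 2 / (n + 2 : ℝ))
        = ((cc 0 (S x) ^ 2 * cc 0 (S y) ^ 2 + cc 0 (S x) ^ 2 * cc 1 (S y) ^ 2)
          + (cc 1 (S x) ^ 2 * cc 0 (S y) ^ 2 + cc 1 (S x) ^ 2 * cc 1 (S y) ^ 2))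
          - (2 / (n + 2 : ℝ)) * ((‖zeta (S x)‖ ^ 2 + ‖zeta (S y)‖ ^ 2) - 2 / (n + 2 : ℝ)) := by
      intro S
      rw [norm_zeta_sq, norm_zeta_sq]; ring
    simp only [e1]
    have hnx : Continuous fun S : Conf (n + 2) L => ‖zeta (S x)‖ ^ 2 := ((cont_zeta n x).norm).pow 2
    have hny : Continuous fun S : Conf (n + 2) L => ‖zeta (S y)‖ ^ 2 := ((cont_zeta n y).norm).pow 2
    have k1 : Continuous fun S : Conf (n + 2) L =>
        cc 0 (S x) ^ 2 * cc 0 (S y) ^ 2 + cc 0 (S x) ^ 2 * cc 1 (S y) ^ 2 := h00.add h01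
    have k2 : Continuous fun S : Conf (n + 2) L =>
        cc 1 (S x) ^ 2 * cc 0 (S y) ^ 2 + cc 1 (S x) ^ 2 * cc 1 (S y) ^ 2 := h10.add h11
    have k3 : Continuous fun S : Conf (n + 2) L =>
        ((cc 0 (S x) ^ 2 * cc 0 (S y) ^ 2 + cc 0 (S x) ^ 2 * cc 1 (S y) ^ 2)
          + (cc 1 (S x) ^ 2 * cc 0 (S y) ^ 2 + cc 1 (S x) ^ 2 * cc 1 (S y) ^ 2)) := k1.add k2
    have k4 : Continuous fun S : Conf (n + 2) L => ‖zeta (S x)‖ ^ 2 + ‖zeta (S y)‖ ^ 2 :=
      hnx.add hny
    have k6 : Continuous fun _ : Conf (n + 2) L => 2 / (n + 2 : ℝ) := continuous_const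
    have k5 : Continuous fun S : Conf (n + 2) L =>
        (2 / (n + 2 : ℝ)) * ((‖zeta (S x)‖ ^ 2 + ‖zeta (S y)‖ ^ 2) - 2 / (n + 2 : ℝ)) :=
      continuous_const.mul (k4.sub k6)
    rw [integral_sub (gm_integrable n L β k3) (gm_integrable n L β k5),
      integral_add (gm_integrable n L β k1) (gm_integrable n L β k2),
      integral_add (gm_integrable n L β h00) (gm_integrable n L β h01),
      integral_add (gm_integrable n L β h10) (gm_integrable n L β h11), i00, i01, i10, i11,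
      integral_const_mul, integral_sub (gm_integrable n L β k4) (gm_integrable n L β k6),
      integral_add (gm_integrable n L β hnx) (gm_integrable n L β hny), sq_mean, sq_mean,
      integral_const, probReal_univ, one_smul]
    ring
  -- the spin-two correlation
  have hc : Continuous fun S : Conf (n + 2) L => zeta (S x) ^ 2 * conj (zeta (S y)) ^ 2 :=
    ((cont_zeta n x).pow 2).mul ((Complex.continuous_conj.comp (cont_zeta n y)).pow 2)
  have hre : (∫ S : Conf (n + 2) L, zeta (S x) ^ 2 * conj (zeta (S y)) ^ 2 ∂(gm (n + 2) L β)).re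
      = 2 * (2 * A - 2 * B) := by
    rw [integral_re' n L β hc]
    have hR : Continuous fun S : Conf (n + 2) L => (cc 0 (S x) ^ 2 - cc 1 (S x) ^ 2) *
        (cc 0 (S y) ^ 2 - cc 1 (S y) ^ 2) :=
      (((cont_cc n 0 x).pow 2).sub ((cont_cc n 1 x).pow 2)).mul
        (((cont_cc n 0 y).pow 2).sub ((cont_cc n 1 y).pow 2))
    have hI : Continuous fun S : Conf (n + 2) L => (2 * (cc 0 (S x) * cc 1 (S x))) *
        (2 * (cc 0 (S y) * cc 1 (S y))) :=
      (continuous_const.mul ((cont_cc n 0 x).mul (cont_cc n 1 x))).mul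
        (continuous_const.mul ((cont_cc n 0 y).mul (cont_cc n 1 y)))
    have e2 : ∀ S : Conf (n + 2) L, (zeta (S x) ^ 2 * conj (zeta (S y)) ^ 2).re
        = (cc 0 (S x) ^ 2 - cc 1 (S x) ^ 2) * (cc 0 (S y) ^ 2 - cc 1 (S y) ^ 2)
          + (2 * (cc 0 (S x) * cc 1 (S x))) * (2 * (cc 0 (S y) * cc 1 (S y))) := by
      intro S
      simp only [pow_two, Complex.mul_re, Complex.mul_im, Complex.conj_re, Complex.conj_im,
        zeta_re, zeta_im]
      ring
    simp only [e2]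
    rw [integral_add (gm_integrable n L β hR) (gm_integrable n L β hI)]
    have iR : ∫ S : Conf (n + 2) L, (cc 0 (S x) ^ 2 - cc 1 (S x) ^ 2) *
        (cc 0 (S y) ^ 2 - cc 1 (S y) ^ 2) ∂(gm (n + 2) L β) = 2 * A - 2 * B := by
      have e3 : ∀ S : Conf (n + 2) L, (cc 0 (S x) ^ 2 - cc 1 (S x) ^ 2) *
          (cc 0 (S y) ^ 2 - cc 1 (S y) ^ 2)
          = (cc 0 (S x) ^ 2 * cc 0 (S y) ^ 2 - cc 0 (S x) ^ 2 * cc 1 (S y) ^ 2)
          - (cc 1 (S x) ^ 2 * cc 0 (S y) ^ 2 - cc 1 (S x) ^ 2 * cc 1 (S y) ^ 2) := by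
        intro S; ring
      simp only [e3]
      have k1 : Continuous fun S : Conf (n + 2) L =>
          cc 0 (S x) ^ 2 * cc 0 (S y) ^ 2 - cc 0 (S x) ^ 2 * cc 1 (S y) ^ 2 := h00.sub h01
      have k2 : Continuous fun S : Conf (n + 2) L =>
          cc 1 (S x) ^ 2 * cc 0 (S y) ^ 2 - cc 1 (S x) ^ 2 * cc 1 (S y) ^ 2 := h10.sub h11
      rw [integral_sub (gm_integrable n L β k1) (gm_integrable n L β k2),
        integral_sub (gm_integrable n L β h00) (gm_integrable n L β h01),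
        integral_sub (gm_integrable n L β h10) (gm_integrable n L β h11), i00, i01, i10, i11]
      ring
    have iI : ∫ S : Conf (n + 2) L, (2 * (cc 0 (S x) * cc 1 (S x))) *
        (2 * (cc 0 (S y) * cc 1 (S y))) ∂(gm (n + 2) L β) = 2 * A - 2 * B := by
      rw [← iR]
      have h := refl_inv n L β (fun c => (2 * ((c x).1 * (c x).2)) * (2 * ((c y).1 * (c y).2)))
      simp only at h
      rw [← h]
      refine integral_congr_ae (Filter.Eventually.of_forall fun S => ?_)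
      simp only
      have hs2 : Real.sqrt 2 * Real.sqrt 2 = 2 := Real.mul_self_sqrt (by norm_num)
      have hmul : ∀ p q : ℝ, 2 * (p / Real.sqrt 2 * (q / Real.sqrt 2)) = p * q := by
        intro p q
        rw [div_mul_div_comm, hs2]; ring
      rw [hmul, hmul]
      ring
    rw [iR, iI]; ring
  have hle : |(∫ S : Conf (n + 2) L, zeta (S x) ^ 2 * conj (zeta (S y)) ^ 2
      ∂(gm (n + 2) L β)).re| ≤ ‖∫ S : Conf (n + 2) L, zeta (S x) ^ 2 * conj (zeta (S y)) ^ 2
      ∂(gm (n + 2) L β)‖ := Complex.abs_re_le_norm _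
  refine le_trans ?_ hle
  rw [hre, hcov]
  have hAB : 2 * A + 2 * B - (2 / (n + 2 : ℝ)) ^ 2 = (2 * A - 2 * B) * (n / (n + 2 : ℝ)) := by
    have hA2 : A = 1 / (n + 2 : ℝ) - (n + 1) * B := by
      field_simp
      nlinarith [hrel]
    rw [hA2]
    field_simp
    ring
  rw [hAB, abs_mul, abs_mul]
  have h5 : |(n : ℝ) / (n + 2)| ≤ 1 := by
    rw [abs_of_nonneg (by positivity), div_le_one hN]; linarith
  have h6 : |(2:ℝ)| = 2 := by norm_num
  rw [h6]
  nlinarith [abs_nonneg (2 * A - 2 * B)]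

end Pool.Agent.H5R2.ON
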