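import Mathlib
import Pool.Agent.H5R2.ON.Defs
import Pool.Agent.H5R2.ON.Dist

/-!
# Task 5 (helper143): the two-centred logarithmic potential
-/

set_option autoImplicit false

noncomputable section

namespace Pool.Agent.H5R2.ON

namespace Dsc

/-! ### elementary inequalities -/

lemma sq_le_sinh_sq (x : ℝ) : x ^ 2 ≤ Real.sinh x ^ 2 := by
  rcases le_total 0 x with h | h
  · have h1 := Real.self_le_sinh_iff.2 h
    exact pow_le_pow_left₀ h h1 2
  · have h1 := Real.sinh_le_self_iff.2 h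
    have h2 : (-x) ^ 2 ≤ (-Real.sinh x) ^ 2 := pow_le_pow_left₀ (by linarith) (by linarith) 2
    nlinarith

lemma log_sub_sq {s s' : ℝ} (hs : 0 < s) (hs' : 0 < s') :
    (Real.log s' - Real.log s) ^ 2 ≤ (s' ^ 2 - s ^ 2) ^ 2 / (4 * s ^ 2 * s' ^ 2) := by
  have h1 := sq_le_sinh_sq (Real.log (s' / s))
  rw [Real.sinh_log (by positivity), Real.log_div hs'.ne' hs.ne'] at h1
  refine h1.trans (le_of_eq ?_)
  field_simp
  ring

lemma cosh_bound {t : ℝ} (ht : t ^ 2 ≤ 1) : Real.cosh t - 1 ≤ t ^ 2 / 2 * (1 + t ^ 2) := by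
  have h1 := Real.cosh_le_exp_half_sq t
  have h2 : |t ^ 2 / 2| ≤ 1 := by
    rw [abs_of_nonneg (by positivity)]
    linarith
  have h3 := (abs_le.1 (Real.abs_exp_sub_one_sub_id_le h2)).2
  nlinarith [sq_nonneg (t ^ 2)]

/-! ### the profile -/

/-- logarithmic profile -/
def lg (R r : ℝ) : ℝ := max 0 (Real.log R - Real.log (max 1 r))

lemma lg_zero_of_le {R r : ℝ} (hR : 1 ≤ R) (h : R ≤ r) : lg R r = 0 := by
  unfold lg
  apply max_eq_left
  have : Real.log R ≤ Real.log (max 1 r) :=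
    Real.log_le_log (by linarith) (h.trans (le_max_right _ _))
  linarith

lemma lg_at_zero {R : ℝ} (hR : 1 ≤ R) : lg R 0 = Real.log R := by
  unfold lg
  have h : max (1 : ℝ) 0 = 1 := max_eq_left zero_le_one
  rw [h, Real.log_one, sub_zero]
  exact max_eq_right (Real.log_nonneg hR)

lemma lg_sub (R r r' : ℝ) : |lg R r - lg R r'| ≤ |Real.log (max 1 r) - Real.log (max 1 r')| := by
  unfold lg
  rw [max_comm 0, max_comm 0]
  refine (abs_max_sub_max_le_abs _ _ _).trans (le_of_eq ?_)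
  rw [abs_sub_comm]
  congr 1
  ring

lemma log_lip {s s' : ℝ} (hs : 0 < s) (hs' : 0 < s') {m : ℝ} (hm : 0 < m) (h1 : m ≤ s)
    (h2 : m ≤ s') : |Real.log s - Real.log s'| ≤ |s - s'| / m := by
  wlog h : s' ≤ s generalizing s s'
  · rw [abs_sub_comm, abs_sub_comm s]
    exact this hs' hs h2 h1 (le_of_not_ge h)
  rw [abs_of_nonneg (sub_nonneg.2 (Real.log_le_log hs' h)), abs_of_nonneg (sub_nonneg.2 h),
    ← Real.log_div hs.ne' hs'.ne']
  refine (Real.log_le_sub_one_of_pos (by positivity)).trans ?_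
  rw [div_sub_one hs'.ne']
  exact div_le_div_of_nonneg_left (by linarith) hm h2

lemma lg_diff_one {R r r' : ℝ} (h : |r - r'| ≤ 1) : |lg R r - lg R r'| ≤ 1 := by
  refine (lg_sub R r r').trans ((log_lip (lt_of_lt_of_le one_pos (le_max_left _ _))
    (lt_of_lt_of_le one_pos (le_max_left _ _)) one_pos (le_max_left _ _)
      (le_max_left _ _)).trans ?_)
  rw [div_one]
  refine le_trans ?_ h
  rw [max_comm 1, max_comm 1]
  exact abs_max_sub_max_le_abs _ _ _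

lemma lg_diff_far {R r r' : ℝ} (hr : 2 ≤ r) (h : |r - r'| ≤ 1) :
    |lg R r - lg R r'| ≤ 1 / (r - 1) := by
  have h1 : r - 1 ≤ r' := by
    have := (abs_le.1 h).2
    linarith
  have e1 : max 1 r = r := max_eq_right (by linarith)
  have e2 : max 1 r' = r' := max_eq_right (by linarith)
  refine (lg_sub R r r').trans ?_
  rw [e1, e2]
  refine (log_lip (by linarith) (by linarith) (m := r - 1) (by linarith) (by linarith) h1).trans ?_
  exact div_le_div_of_nonneg_right h (by linarith)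

lemma lg_diff_all {R r r' : ℝ} (hr : 0 ≤ r) (h : |r - r'| ≤ 1) :
    |lg R r - lg R r'| ≤ 3 / (1 + r) := by
  rcases le_or_gt 2 r with h2 | h2
  · refine (lg_diff_far h2 h).trans ?_
    rw [div_le_div_iff₀ (by linarith) (by linarith)]
    linarith
  · refine (lg_diff_one h).trans ?_
    rw [le_div_iff₀ (by linarith)]
    linarith

lemma lg_diff_sq {R r r' : ℝ} (hr : 2 ≤ r) (h : |r - r'| ≤ 1) :
    (lg R r - lg R r') ^ 2 ≤ (r' ^ 2 - r ^ 2) ^ 2 / (4 * r ^ 2 * (r - 1) ^ 2) := by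
  have h1 : r - 1 ≤ r' := by
    have := (abs_le.1 h).2
    linarith
  have e1 : max 1 r = r := max_eq_right (by linarith)
  have e2 : max 1 r' = r' := max_eq_right (by linarith)
  have h2 := lg_sub R r r'
  rw [e1, e2] at h2
  have h3 : (lg R r - lg R r') ^ 2 ≤ (Real.log r' - Real.log r) ^ 2 := by
    rw [← sq_abs (lg R r - lg R r'), ← sq_abs (Real.log r' - Real.log r), abs_sub_comm (Real.log r')]
    exact pow_le_pow_left₀ (abs_nonneg _) h2 2
  refine h3.trans ((log_sub_sq (by linarith) (by linarith)).trans ?_)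
  have h4 : 0 < r - 1 := by linarith
  have h5 : (r - 1) ^ 2 ≤ r' ^ 2 := pow_le_pow_left₀ h4.le h1 2
  have h6 : 0 < r := by linarith
  gcongr

/-! ### one centre -/

variable {L : ℕ} [NeZero L]

/-- Dirichlet energy at a point -/
def En (R : ℝ) (x z : Tor L) : ℝ :=
  (1 / 4) * ((lg R (tnorm (z - x)) - lg R (tnorm (z + (1, 0) - x))) ^ 2 +
    (lg R (tnorm (z - x)) - lg R (tnorm (z - (1, 0) - x))) ^ 2 +
    (lg R (tnorm (z - x)) - lg R (tnorm (z + (0, 1) - x))) ^ 2 +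
    (lg R (tnorm (z - x)) - lg R (tnorm (z - (0, 1) - x))) ^ 2)

lemma step (x z e : Tor L) (he : IsUnitVec e) :
    |tnorm (z - x) - tnorm (z + e - x)| ≤ 1 := by
  have h := abs_tnorm_add_unit he (z - x)
  rw [abs_sub_comm]
  have e1 : z - x + e = z + e - x := by abel
  rwa [e1] at h

lemma step' (x z e : Tor L) (he : IsUnitVec (-e)) :
    |tnorm (z - x) - tnorm (z - e - x)| ≤ 1 := by
  have h := step x z (-e) he
  rwa [← sub_eq_add_neg] at h

omit [NeZero L] in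
lemma u1 : IsUnitVec ((1, 0) : Tor L) := Or.inl rfl
omit [NeZero L] in
lemma u2 : IsUnitVec (-(1, 0) : Tor L) := Or.inr (Or.inl rfl)
omit [NeZero L] in
lemma u3 : IsUnitVec ((0, 1) : Tor L) := Or.inr (Or.inr (Or.inl rfl))
omit [NeZero L] in
lemma u4 : IsUnitVec (-(0, 1) : Tor L) := Or.inr (Or.inr (Or.inr rfl))

/-- one-centred weight -/
def w1 (R δ : ℝ) (x z : Tor L) : ℝ := Wt (fun v => δ * lg R (tnorm (v - x))) z

lemma cosh_nn (t : ℝ) : 0 ≤ Real.cosh t - 1 := by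
  have := Real.one_le_cosh t
  linarith

omit [NeZero L] in
lemma Wt_nonneg (a : Tor L → ℝ) (z : Tor L) : 0 ≤ Wt a z := by
  unfold Wt
  have h1 := cosh_nn (a z - a (z + (1, 0)))
  have h2 := cosh_nn (a z - a (z - (1, 0)))
  have h3 := cosh_nn (a z - a (z + (0, 1)))
  have h4 := cosh_nn (a z - a (z - (0, 1)))
  linarith

lemma cosh_delta {δ D : ℝ} (hδ : 0 < δ) (hδ1 : δ ≤ 1) (hD : |D| ≤ 1) :
    Real.cosh (δ * D) - 1 ≤ δ ^ 2 * (1 + δ ^ 2) / 2 * D ^ 2 := by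
  have hD2 : D ^ 2 ≤ 1 := by
    rw [← sq_abs]
    exact pow_le_one₀ (abs_nonneg _) hD
  have hδ2 : δ ^ 2 ≤ 1 := pow_le_one₀ hδ.le hδ1
  have h0 : 0 ≤ δ ^ 2 := by positivity
  have h1 : (δ * D) ^ 2 ≤ δ ^ 2 := by
    rw [mul_pow]
    nlinarith [sq_nonneg D]
  have h2 := cosh_bound (t := δ * D) (h1.trans hδ2)
  refine h2.trans ?_
  have h3 : (δ * D) ^ 2 / 2 * (1 + (δ * D) ^ 2) ≤ (δ * D) ^ 2 / 2 * (1 + δ ^ 2) := by gcongr
  refine h3.trans (le_of_eq ?_)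
  ring

lemma w1_le (R : ℝ) {δ : ℝ} (hδ : 0 < δ) (hδ1 : δ ≤ 1) (x z : Tor L) :
    w1 R δ x z ≤ δ ^ 2 * (1 + δ ^ 2) * En R x z := by
  have key : ∀ z' : Tor L, |tnorm (z - x) - tnorm (z' - x)| ≤ 1 →
      Real.cosh (δ * lg R (tnorm (z - x)) - δ * lg R (tnorm (z' - x))) - 1 ≤
        δ ^ 2 * (1 + δ ^ 2) / 2 * (lg R (tnorm (z - x)) - lg R (tnorm (z' - x))) ^ 2 := by
    intro z' h
    rw [← mul_sub]
    exact cosh_delta hδ hδ1 (lg_diff_one h)
  have h1 := key (z + (1, 0)) (step x z _ u1)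
  have h2 := key (z - (1, 0)) (step' x z _ u2)
  have h3 := key (z + (0, 1)) (step x z _ u3)
  have h4 := key (z - (0, 1)) (step' x z _ u4)
  unfold w1 Wt En
  linarith

lemma En_le_one (R : ℝ) (x z : Tor L) : En R x z ≤ 1 := by
  have key : ∀ z' : Tor L, |tnorm (z - x) - tnorm (z' - x)| ≤ 1 →
      (lg R (tnorm (z - x)) - lg R (tnorm (z' - x))) ^ 2 ≤ 1 := by
    intro z' h
    rw [← sq_abs]
    exact pow_le_one₀ (abs_nonneg _) (lg_diff_one h)
  have h1 := key (z + (1, 0)) (step x z _ u1)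
  have h2 := key (z - (1, 0)) (step' x z _ u2)
  have h3 := key (z + (0, 1)) (step x z _ u3)
  have h4 := key (z - (0, 1)) (step' x z _ u4)
  unfold En
  linarith

lemma En_le_all (R : ℝ) (x z : Tor L) : En R x z ≤ 9 / (1 + tnorm (z - x)) ^ 2 := by
  have h0 := tnorm_nonneg (z - x)
  have key : ∀ z' : Tor L, |tnorm (z - x) - tnorm (z' - x)| ≤ 1 →
      (lg R (tnorm (z - x)) - lg R (tnorm (z' - x))) ^ 2 ≤ 9 / (1 + tnorm (z - x)) ^ 2 := by
    intro z' h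
    rw [← sq_abs]
    have h1 := pow_le_pow_left₀ (abs_nonneg _) (lg_diff_all (R := R) h0 h) 2
    refine h1.trans (le_of_eq ?_)
    rw [div_pow]
    norm_num
  have h1 := key (z + (1, 0)) (step x z _ u1)
  have h2 := key (z - (1, 0)) (step' x z _ u2)
  have h3 := key (z + (0, 1)) (step x z _ u3)
  have h4 := key (z - (0, 1)) (step' x z _ u4)
  unfold En
  linarith

omit [NeZero L] in
/-- far from the centre all differences vanish -/
lemma far_zero {R : ℝ} (hR : 1 ≤ R) {x z : Tor L} (h : R + 1 ≤ tnorm (z - x)) {z' : Tor L}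
    (hz' : |tnorm (z - x) - tnorm (z' - x)| ≤ 1) :
    lg R (tnorm (z - x)) = 0 ∧ lg R (tnorm (z' - x)) = 0 := by
  have h1 := (abs_le.1 hz').2
  exact ⟨lg_zero_of_le hR (by linarith), lg_zero_of_le hR (by linarith)⟩

lemma En_far {R : ℝ} (hR : 1 ≤ R) {x z : Tor L} (h : R + 1 ≤ tnorm (z - x)) : En R x z = 0 := by
  obtain ⟨a0, a1⟩ := far_zero hR h (step x z _ u1)
  obtain ⟨-, a2⟩ := far_zero hR h (step' x z _ u2)
  obtain ⟨-, a3⟩ := far_zero hR h (step x z _ u3)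
  obtain ⟨-, a4⟩ := far_zero hR h (step' x z _ u4)
  unfold En
  rw [a0, a1, a2, a3, a4]
  norm_num

lemma w1_far {R : ℝ} (hR : 1 ≤ R) {δ : ℝ} (hδ : 0 < δ) (hδ1 : δ ≤ 1) {x z : Tor L}
    (h : R + 1 ≤ tnorm (z - x)) : w1 R δ x z = 0 := by
  apply le_antisymm
  · have := w1_le R hδ hδ1 x z
    rwa [En_far hR h, mul_zero] at this
  · exact Wt_nonneg _ _

/-- majorant on the integer lattice -/
def Gf (p : ℤ × ℤ) : ℝ :=
  (if p = 0 then 1 else 0) + (1 / 2) * ((p.1 : ℝ) ^ 2 + (p.2 : ℝ) ^ 2)⁻¹ +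
    8 * (((p.1 : ℝ) ^ 2 + (p.2 : ℝ) ^ 2)⁻¹ * (Real.sqrt ((p.1 : ℝ) ^ 2 + (p.2 : ℝ) ^ 2))⁻¹)

lemma Gf_nonneg (p : ℤ × ℤ) : 0 ≤ Gf p := by
  unfold Gf
  have : (0 : ℝ) ≤ if p = 0 then 1 else 0 := by split_ifs <;> norm_num
  positivity

/-- coordinates do not wrap around -/
lemma nowrap {u : ZMod L} {c : ℤ} (hc : |c| ≤ 1) (h : (|u.valMinAbs| + 1) * 2 < L) :
    (u + (c : ZMod L)).valMinAbs = u.valMinAbs + c := by
  rw [ZMod.valMinAbs_spec]
  have h1 := neg_abs_le u.valMinAbs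
  have h2 := le_abs_self u.valMinAbs
  have h3 := neg_abs_le c
  have h4 := le_abs_self c
  refine ⟨?_, ?_, ?_⟩
  · push_cast
    rfl
  · linarith
  · linarith

omit [NeZero L] in
lemma tnorm_sq (u : Tor L) : tnorm u ^ 2 = (u.1.valMinAbs : ℝ) ^ 2 + (u.2.valMinAbs : ℝ) ^ 2 := by
  unfold tnorm
  rw [Real.sq_sqrt (by positivity)]

omit [NeZero L] in
lemma fin_ineq {r : ℝ} (hr : 2 ≤ r) : (2 * r ^ 2 + 1) / (4 * r ^ 2 * (r - 1) ^ 2) ≤
    (1 / 2) * (r ^ 2)⁻¹ + 8 * ((r ^ 2)⁻¹ * r⁻¹) := by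
  have hr0 : 0 < r := by linarith
  have h1 : (1 / 2) * (r ^ 2)⁻¹ + 8 * ((r ^ 2)⁻¹ * r⁻¹) = (2 * r + 32) / (4 * r ^ 3) := by
    field_simp
    ring
  have h2 : 0 < r - 1 := by linarith
  rw [h1, div_le_div_iff₀ (by positivity) (by positivity)]
  have h3 : (2 * r ^ 2 + 1) * r ≤ (2 * r + 32) * (r - 1) ^ 2 := by
    nlinarith [sq_nonneg (r - 2)]
  have h4 : 0 ≤ 4 * r ^ 2 := by positivity
  calc (2 * r ^ 2 + 1) * (4 * r ^ 3) = (4 * r ^ 2) * ((2 * r ^ 2 + 1) * r) := by ring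
    _ ≤ (4 * r ^ 2) * ((2 * r + 32) * (r - 1) ^ 2) := mul_le_mul_of_nonneg_left h3 h4
    _ = (2 * r + 32) * (4 * r ^ 2 * (r - 1) ^ 2) := by ring

lemma En_le_Gf {R : ℝ} (hR : 4 ≤ R) (hL : 2 * R + 4 < L) (x z : Tor L) :
    En R x z ≤ Gf (crd (z - x)) := by
  set u := z - x with hu
  set r := tnorm u with hr
  have hr0 : 0 ≤ r := tnorm_nonneg u
  have hr2 : r ^ 2 = (u.1.valMinAbs : ℝ) ^ 2 + (u.2.valMinAbs : ℝ) ^ 2 := tnorm_sq u
  have hG : Gf (crd u) = (if crd u = 0 then 1 else 0) + (1 / 2) * (r ^ 2)⁻¹ +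
      8 * ((r ^ 2)⁻¹ * r⁻¹) := by
    unfold Gf crd
    rw [← hr2, Real.sqrt_sq hr0]
  rcases le_or_gt (R + 1) r with hfar | hnear
  · rw [En_far (by linarith) hfar]
    exact Gf_nonneg _
  by_cases h0 : u = 0
  · have h1 : crd u = 0 := by
      rw [h0]
      simp [crd]
    have h2 : r = 0 := by rw [hr, h0, tnorm_zero]
    rw [hG, if_pos h1, h2]
    simpa using En_le_one R x z
  have hr1 : 1 ≤ r := by
    have h1 : 1 ≤ r ^ 2 := by
      rw [hr2]
      have h2 : (1 : ℤ) ≤ u.1.valMinAbs ^ 2 + u.2.valMinAbs ^ 2 := by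
        by_contra hcon
        push Not at hcon
        apply h0
        have h3 := sq_nonneg u.1.valMinAbs
        have h4 := sq_nonneg u.2.valMinAbs
        have h5 : u.1.valMinAbs ^ 2 = 0 := by omega
        have h6 : u.2.valMinAbs ^ 2 = 0 := by omega
        have h7 := (ZMod.valMinAbs_eq_zero u.1).1 (pow_eq_zero_iff (two_ne_zero) |>.1 h5)
        have h8 := (ZMod.valMinAbs_eq_zero u.2).1 (pow_eq_zero_iff (two_ne_zero) |>.1 h6)
        exact Prod.ext h7 h8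
      exact_mod_cast h2
    nlinarith
  rw [hG]
  have hif : (0 : ℝ) ≤ if crd u = 0 then 1 else 0 := by split_ifs <;> norm_num
  rcases lt_or_ge r 2 with hr2' | hr2'
  · have h1 := En_le_one R x z
    have h2 : 1 ≤ 8 * ((r ^ 2)⁻¹ * r⁻¹) := by
      rw [← mul_inv, ← div_eq_mul_inv, le_div_iff₀ (by positivity)]
      have : r ^ 2 * r ≤ 2 ^ 2 * 2 := by gcongr
      linarith
    have h3 : 0 ≤ (1 / 2) * (r ^ 2)⁻¹ := by positivity
    linarith
  -- main case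
  have hab : ∀ c : ℤ, |(c : ℝ)| ≤ r → (|c| + 1) * 2 < (L : ℤ) := by
    intro c hc
    have h1 : ((|c| : ℤ) : ℝ) ≤ r := by
      push_cast
      exact hc
    have h2 : ((((|c| + 1) * 2 : ℤ)) : ℝ) < ((L : ℤ) : ℝ) := by
      push_cast
      have : (|(c : ℝ)| : ℝ) ≤ r := hc
      linarith
    exact_mod_cast h2
  have ha : (|u.1.valMinAbs| + 1) * 2 < (L : ℤ) := by
    apply hab
    rw [← Real.sqrt_sq_eq_abs, hr]
    unfold tnorm
    exact Real.sqrt_le_sqrt (by nlinarith [sq_nonneg (u.2.valMinAbs : ℝ)])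
  have hb : (|u.2.valMinAbs| + 1) * 2 < (L : ℤ) := by
    apply hab
    rw [← Real.sqrt_sq_eq_abs, hr]
    unfold tnorm
    exact Real.sqrt_le_sqrt (by nlinarith [sq_nonneg (u.1.valMinAbs : ℝ)])
  have q1 : tnorm (z + (1, 0) - x) ^ 2 = ((u.1.valMinAbs : ℝ) + 1) ^ 2 + (u.2.valMinAbs : ℝ) ^ 2 := by
    have e : z + (1, 0) - x = (u.1 + ((1 : ℤ) : ZMod L), u.2) := by
      rw [hu]
      ext
      · simp
        ring
      · simp
    rw [e, tnorm_sq, nowrap (by norm_num) ha]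
    push_cast
    ring
  have q2 : tnorm (z - (1, 0) - x) ^ 2 = ((u.1.valMinAbs : ℝ) - 1) ^ 2 + (u.2.valMinAbs : ℝ) ^ 2 := by
    have e : z - (1, 0) - x = (u.1 + ((-1 : ℤ) : ZMod L), u.2) := by
      rw [hu]
      ext
      · simp
        ring
      · simp
    rw [e, tnorm_sq, nowrap (by norm_num) ha]
    push_cast
    ring
  have q3 : tnorm (z + (0, 1) - x) ^ 2 = (u.1.valMinAbs : ℝ) ^ 2 + ((u.2.valMinAbs : ℝ) + 1) ^ 2 := by
    have e : z + (0, 1) - x = (u.1, u.2 + ((1 : ℤ) : ZMod L)) := by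
      rw [hu]
      ext
      · simp
      · simp
        ring
    rw [e, tnorm_sq, nowrap (by norm_num) hb]
    push_cast
    ring
  have q4 : tnorm (z - (0, 1) - x) ^ 2 = (u.1.valMinAbs : ℝ) ^ 2 + ((u.2.valMinAbs : ℝ) - 1) ^ 2 := by
    have e : z - (0, 1) - x = (u.1, u.2 + ((-1 : ℤ) : ZMod L)) := by
      rw [hu]
      ext
      · simp
      · simp
        ring
    rw [e, tnorm_sq, nowrap (by norm_num) hb]
    push_cast
    ring
  have s1 := lg_diff_sq (R := R) hr2' (step x z _ u1)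
  have s2 := lg_diff_sq (R := R) hr2' (step' x z _ u2)
  have s3 := lg_diff_sq (R := R) hr2' (step x z _ u3)
  have s4 := lg_diff_sq (R := R) hr2' (step' x z _ u4)
  set a : ℝ := (u.1.valMinAbs : ℝ) with hadef
  set b : ℝ := (u.2.valMinAbs : ℝ) with hbdef
  have n1 : tnorm (z + (1, 0) - x) ^ 2 - r ^ 2 = 2 * a + 1 := by
    rw [q1, hr2]
    ring
  have n2 : tnorm (z - (1, 0) - x) ^ 2 - r ^ 2 = -2 * a + 1 := by
    rw [q2, hr2]
    ring
  have n3 : tnorm (z + (0, 1) - x) ^ 2 - r ^ 2 = 2 * b + 1 := by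
    rw [q3, hr2]
    ring
  have n4 : tnorm (z - (0, 1) - x) ^ 2 - r ^ 2 = -2 * b + 1 := by
    rw [q4, hr2]
    ring
  rw [n1] at s1
  rw [n2] at s2
  rw [n3] at s3
  rw [n4] at s4
  have hE : En R x z ≤ (2 * r ^ 2 + 1) / (4 * r ^ 2 * (r - 1) ^ 2) := by
    set Dn := 4 * r ^ 2 * (r - 1) ^ 2 with hDn
    have e1 : (2 * r ^ 2 + 1) / Dn = (1 / 4) * ((2 * a + 1) ^ 2 / Dn + (-2 * a + 1) ^ 2 / Dn +
        (2 * b + 1) ^ 2 / Dn + (-2 * b + 1) ^ 2 / Dn) := by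
      rw [← add_div, ← add_div, ← add_div, mul_div_assoc', hr2]
      congr 1
      ring
    rw [e1]
    unfold En
    rw [← hu, ← hr]
    linarith
  have hfin := fin_ineq hr2'
  linarith

/-! ### lattice sums -/

lemma even_sum (f : ℤ → ℝ) (M : ℕ) : ∑ a ∈ Finset.Icc (-(M : ℤ)) M, f a =
    f 0 + ∑ i ∈ Finset.range M, (f (i + 1) + f (-(i + 1))) := by
  induction M with
  | zero => simp
  | succ M ih =>
    have h1 : Finset.Icc (-((M + 1 : ℕ) : ℤ)) ((M + 1 : ℕ) : ℤ) =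
        insert ((M : ℤ) + 1) (insert (-((M : ℤ) + 1)) (Finset.Icc (-(M : ℤ)) M)) := by
      ext a
      simp only [Finset.mem_Icc, Finset.mem_insert]
      push_cast
      omega
    have h2 : ((M : ℤ) + 1) ∉ insert (-((M : ℤ) + 1)) (Finset.Icc (-(M : ℤ)) M) := by
      simp only [Finset.mem_Icc, Finset.mem_insert]
      omega
    have h3 : (-((M : ℤ) + 1)) ∉ Finset.Icc (-(M : ℤ)) M := by
      simp only [Finset.mem_Icc]
      omega
    rw [h1, Finset.sum_insert h2, Finset.sum_insert h3, ih, Finset.sum_range_succ]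
    ring

lemma sum_inv_sq (M : ℕ) : ∑ i ∈ Finset.range M, (((i : ℝ) + 1) ^ 2)⁻¹ ≤ 2 := by
  have key : ∑ i ∈ Finset.range M, (((i : ℝ) + 1) ^ 2)⁻¹ ≤ 2 - 2 / ((M : ℝ) + 1) := by
    induction M with
    | zero => norm_num
    | succ M ih =>
      rw [Finset.sum_range_succ]
      have h1 : (((M : ℝ) + 1) ^ 2)⁻¹ ≤ 2 / ((M : ℝ) + 1) - 2 / (((M + 1 : ℕ) : ℝ) + 1) := by
        push_cast
        have e : 2 / ((M : ℝ) + 1) - 2 / ((M : ℝ) + 1 + 1) = 2 / (((M : ℝ) + 1) * ((M : ℝ) + 2)) := by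
          field_simp
          ring
        rw [e, inv_eq_one_div, div_le_div_iff₀ (by positivity) (by positivity)]
        nlinarith [(Nat.cast_nonneg M : (0 : ℝ) ≤ M)]
      linarith
  have : 0 ≤ 2 / ((M : ℝ) + 1) := by positivity
  linarith

lemma arctan_step {b : ℝ} (hb : 0 < b) (M : ℕ) :
    (((M : ℝ) + 1) ^ 2 + b ^ 2)⁻¹ ≤
      Real.arctan (((M : ℝ) + 1) / b) / b - Real.arctan ((M : ℝ) / b) / b := by
  have hM : (0 : ℝ) ≤ M := Nat.cast_nonneg M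
  have hd : ∀ x : ℝ, HasDerivAt (fun x => Real.arctan (x / b) / b) ((x ^ 2 + b ^ 2)⁻¹) x := by
    intro x
    have h1 : HasDerivAt (fun x => Real.arctan (x / b) / b)
        (1 / (1 + (x / b) ^ 2) * (1 / b) / b) x :=
      ((hasDerivAt_id x).div_const b).arctan.div_const b
    have h2 : 1 / (1 + (x / b) ^ 2) * (1 / b) / b = (x ^ 2 + b ^ 2)⁻¹ := by
      have h3 : 0 < x ^ 2 + b ^ 2 := by positivity
      field_simp
      ring
    rw [← h2]
    exact h1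
  have h := Convex.mul_sub_le_image_sub_of_le_deriv (convex_Icc (M : ℝ) (M + 1))
    (f := fun x => Real.arctan (x / b) / b)
    (fun x _ => (hd x).continuousAt.continuousWithinAt)
    (fun x _ => (hd x).differentiableAt.differentiableWithinAt)
    (C := (((M : ℝ) + 1) ^ 2 + b ^ 2)⁻¹) (by
      intro x hx
      rw [interior_Icc] at hx
      rw [(hd x).deriv]
      have h2 : 0 < x := lt_of_le_of_lt hM hx.1
      have h3 : x ≤ (M : ℝ) + 1 := hx.2.le
      gcongr)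
    (M : ℝ) (by simp) ((M : ℝ) + 1) (by simp) (by linarith)
  have e : (M : ℝ) + 1 - M = 1 := by ring
  rw [e, mul_one] at h
  exact h

lemma row_half {b : ℝ} (hb : 0 < b) (M : ℕ) :
    ∑ i ∈ Finset.range M, (((i : ℝ) + 1) ^ 2 + b ^ 2)⁻¹ ≤ Real.pi / 2 / b := by
  have key : ∑ i ∈ Finset.range M, (((i : ℝ) + 1) ^ 2 + b ^ 2)⁻¹ ≤
      Real.arctan ((M : ℝ) / b) / b := by
    induction M with
    | zero => simp
    | succ M ih =>
      rw [Finset.sum_range_succ]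
      have := arctan_step hb M
      push_cast
      linarith
  refine key.trans ?_
  have := (Real.arctan_lt_pi_div_two ((M : ℝ) / b)).le
  gcongr

/-- full row -/
lemma row_sum {b : ℝ} (hb : 0 < b) (M : ℕ) :
    ∑ a ∈ Finset.Icc (-(M : ℤ)) M, (((a : ℝ)) ^ 2 + b ^ 2)⁻¹ ≤ Real.pi / b + (b ^ 2)⁻¹ := by
  rw [even_sum (fun a : ℤ => ((a : ℝ) ^ 2 + b ^ 2)⁻¹) M]
  have h1 := row_half hb M
  have h2 : ∑ i ∈ Finset.range M, (((((i : ℤ) + 1 : ℤ) : ℝ) ^ 2 + b ^ 2)⁻¹ +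
      ((((-((i : ℤ) + 1) : ℤ)) : ℝ) ^ 2 + b ^ 2)⁻¹) =
        2 * ∑ i ∈ Finset.range M, (((i : ℝ) + 1) ^ 2 + b ^ 2)⁻¹ := by
    rw [Finset.mul_sum]
    refine Finset.sum_congr rfl fun i _ => ?_
    push_cast
    ring_nf
  rw [h2]
  have h3 : ((((0 : ℤ)) : ℝ) ^ 2 + b ^ 2)⁻¹ = (b ^ 2)⁻¹ := by simp
  rw [h3]
  have h4 : Real.pi / b = 2 * (Real.pi / 2 / b) := by ring
  rw [h4]
  linarith

/-- the row through a nonzero integer -/
lemma Gf_row {b : ℤ} (hb : b ≠ 0) (M : ℕ) :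
    ∑ a ∈ Finset.Icc (-(M : ℤ)) M, Gf (a, b) ≤
      Real.pi / 2 * |(b : ℝ)|⁻¹ + (8 * Real.pi + 9) * ((b : ℝ) ^ 2)⁻¹ := by
  have hb' : (b : ℝ) ≠ 0 := by exact_mod_cast hb
  have hb1 : (1 : ℝ) ≤ |(b : ℝ)| := by
    have h1 : (1 : ℤ) ≤ |b| := Int.one_le_abs hb
    exact_mod_cast h1
  have hb0 : 0 < |(b : ℝ)| := by linarith
  have hrow := row_sum hb0 M
  rw [sq_abs] at hrow
  have hpt : ∀ a : ℤ, Gf (a, b) ≤ (1 / 2 + 8 * |(b : ℝ)|⁻¹) * ((a : ℝ) ^ 2 + (b : ℝ) ^ 2)⁻¹ := by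
    intro a
    unfold Gf
    have h1 : ¬ ((a, b) : ℤ × ℤ) = 0 := by
      intro h
      exact hb (congrArg Prod.snd h)
    rw [if_neg h1]
    have h2 : (Real.sqrt ((a : ℝ) ^ 2 + (b : ℝ) ^ 2))⁻¹ ≤ |(b : ℝ)|⁻¹ := by
      apply inv_anti₀ hb0
      rw [← Real.sqrt_sq_eq_abs]
      exact Real.sqrt_le_sqrt (by nlinarith [sq_nonneg (a : ℝ)])
    have h3 : 0 ≤ ((a : ℝ) ^ 2 + (b : ℝ) ^ 2)⁻¹ := by positivity
    have h4 := mul_le_mul_of_nonneg_left h2 h3
    simp only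
    linarith
  calc ∑ a ∈ Finset.Icc (-(M : ℤ)) M, Gf (a, b)
      ≤ ∑ a ∈ Finset.Icc (-(M : ℤ)) M,
          (1 / 2 + 8 * |(b : ℝ)|⁻¹) * ((a : ℝ) ^ 2 + (b : ℝ) ^ 2)⁻¹ :=
        Finset.sum_le_sum fun a _ => hpt a
    _ = (1 / 2 + 8 * |(b : ℝ)|⁻¹) *
          ∑ a ∈ Finset.Icc (-(M : ℤ)) M, ((a : ℝ) ^ 2 + (b : ℝ) ^ 2)⁻¹ := by
        rw [Finset.mul_sum]
    _ ≤ (1 / 2 + 8 * |(b : ℝ)|⁻¹) * (Real.pi / |(b : ℝ)| + ((b : ℝ) ^ 2)⁻¹) := by
        gcongr
    _ ≤ _ := by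
        have e1 : ((b : ℝ) ^ 2)⁻¹ = |(b : ℝ)|⁻¹ * |(b : ℝ)|⁻¹ := by
          rw [← mul_inv, ← sq, sq_abs]
        set t := |(b : ℝ)|⁻¹ with ht
        have ht0 : 0 ≤ t := by positivity
        have ht1 : t ≤ 1 := inv_le_one_of_one_le₀ hb1
        have e2 : Real.pi / |(b : ℝ)| = Real.pi * t := div_eq_mul_inv _ _
        rw [e1, e2]
        have hpi := Real.pi_pos
        have h5 : t * t * t ≤ t * t * 1 := by gcongr
        nlinarith [mul_nonneg ht0 ht0]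

lemma Gf_zero_row (M : ℕ) : ∑ a ∈ Finset.Icc (-(M : ℤ)) M, Gf (a, 0) ≤ 35 := by
  rw [even_sum (fun a : ℤ => Gf (a, 0)) M]
  have h0 : Gf ((0 : ℤ), (0 : ℤ)) = 1 := by
    unfold Gf
    have : (((0 : ℤ), (0 : ℤ)) : ℤ × ℤ) = 0 := rfl
    rw [if_pos this]
    simp
  have h1 : ∀ a : ℤ, a ≠ 0 → 1 ≤ |(a : ℝ)| → Gf (a, 0) ≤ (17 / 2) * ((a : ℝ) ^ 2)⁻¹ := by
    intro a ha ha1
    unfold Gf
    have h2 : ¬ ((a, 0) : ℤ × ℤ) = 0 := by
      intro h
      exact ha (congrArg Prod.fst h)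
    rw [if_neg h2]
    simp only [Int.cast_zero, ne_eq, OfNat.ofNat_ne_zero, not_false_eq_true, zero_pow, add_zero,
      Real.sqrt_sq_eq_abs]
    have h3 : |(a : ℝ)|⁻¹ ≤ 1 := inv_le_one_of_one_le₀ ha1
    have h4 : 0 ≤ ((a : ℝ) ^ 2)⁻¹ := by positivity
    nlinarith [mul_le_mul_of_nonneg_left h3 h4]
  have h2 : ∑ i ∈ Finset.range M, (Gf ((i : ℤ) + 1, 0) + Gf (-((i : ℤ) + 1), 0)) ≤
      17 * ∑ i ∈ Finset.range M, (((i : ℝ) + 1) ^ 2)⁻¹ := by
    rw [Finset.mul_sum]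
    refine Finset.sum_le_sum fun i _ => ?_
    have hi : (0 : ℝ) ≤ i := Nat.cast_nonneg i
    have h3 := h1 ((i : ℤ) + 1) (by omega) (by
      push_cast
      rw [abs_of_nonneg (by positivity)]
      linarith)
    have h4 := h1 (-((i : ℤ) + 1)) (by omega) (by
      push_cast
      rw [abs_neg, abs_of_nonneg (by positivity)]
      linarith)
    push_cast at h3 h4
    have e : (-((i : ℝ) + 1)) ^ 2 = ((i : ℝ) + 1) ^ 2 := by ring
    rw [e] at h4
    linarith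
  have h3 := sum_inv_sq M
  have h4 : Gf ((0 : ℤ), (0 : ℤ)) + ∑ i ∈ Finset.range M,
      (Gf ((i : ℤ) + 1, 0) + Gf (-((i : ℤ) + 1), 0)) ≤ 35 := by
    rw [h0]
    linarith
  exact h4

lemma Gf_box {ρ : ℝ} (hρ : 1 ≤ ρ) :
    ∑ p ∈ Finset.Icc (-(⌊ρ⌋₊ : ℤ)) ⌊ρ⌋₊ ×ˢ Finset.Icc (-(⌊ρ⌋₊ : ℤ)) ⌊ρ⌋₊, Gf p ≤
      Real.pi * Real.log ρ + 300 := by
  set M := ⌊ρ⌋₊ with hM
  have hM1 : 1 ≤ M := Nat.le_floor (by exact_mod_cast hρ)
  rw [Finset.sum_product_right, even_sum (fun b : ℤ => ∑ a ∈ Finset.Icc (-(M : ℤ)) M, Gf (a, b)) M]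
  have h0 := Gf_zero_row M
  have hpi := Real.pi_pos
  have hpi4 := Real.pi_lt_d2
  have h1 : ∑ i ∈ Finset.range M, (∑ a ∈ Finset.Icc (-(M : ℤ)) M, Gf (a, (i : ℤ) + 1) +
      ∑ a ∈ Finset.Icc (-(M : ℤ)) M, Gf (a, -((i : ℤ) + 1))) ≤
        Real.pi * ∑ i ∈ Finset.range M, ((i : ℝ) + 1)⁻¹ +
          (16 * Real.pi + 18) * ∑ i ∈ Finset.range M, (((i : ℝ) + 1) ^ 2)⁻¹ := by
    rw [Finset.mul_sum, Finset.mul_sum, ← Finset.sum_add_distrib]
    refine Finset.sum_le_sum fun i _ => ?_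
    have hi : (0 : ℝ) ≤ i := Nat.cast_nonneg i
    have h2 := Gf_row (b := (i : ℤ) + 1) (by omega) M
    have h3 := Gf_row (b := -((i : ℤ) + 1)) (by omega) M
    have e1 : |((((i : ℤ) + 1 : ℤ)) : ℝ)| = (i : ℝ) + 1 := by
      push_cast
      exact abs_of_nonneg (by positivity)
    have e2 : |(((-((i : ℤ) + 1) : ℤ)) : ℝ)| = (i : ℝ) + 1 := by
      rw [Int.cast_neg, abs_neg, e1]
    have e3 : ((((i : ℤ) + 1 : ℤ)) : ℝ) ^ 2 = ((i : ℝ) + 1) ^ 2 := by push_cast; ring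
    have e4 : (((-((i : ℤ) + 1) : ℤ)) : ℝ) ^ 2 = ((i : ℝ) + 1) ^ 2 := by push_cast; ring
    rw [e1, e3] at h2
    rw [e2, e4] at h3
    linarith
  have h2 := sum_inv_sq M
  have h3 : ∑ i ∈ Finset.range M, ((i : ℝ) + 1)⁻¹ ≤ 1 + Real.log ρ := by
    have h4 := harmonic_le_one_add_log M
    have h5 : ((harmonic M : ℚ) : ℝ) = ∑ i ∈ Finset.range M, ((i : ℝ) + 1)⁻¹ := by
      unfold harmonic
      push_cast
      rfl
    rw [h5] at h4
    refine h4.trans ?_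
    have h6 : Real.log (M : ℝ) ≤ Real.log ρ :=
      Real.log_le_log (by exact_mod_cast hM1) (Nat.floor_le (by linarith))
    linarith
  have h4 : Real.pi * ∑ i ∈ Finset.range M, ((i : ℝ) + 1)⁻¹ ≤ Real.pi * (1 + Real.log ρ) := by
    gcongr
  have h5 : (16 * Real.pi + 18) * ∑ i ∈ Finset.range M, (((i : ℝ) + 1) ^ 2)⁻¹ ≤
      (16 * Real.pi + 18) * 2 := by gcongr
  linarith

/-- growth of the one-centred weight -/
lemma w1_sum {R : ℝ} (hR : 4 ≤ R) (hL : 2 * R + 4 < L) {δ : ℝ} (hδ : 0 < δ) (hδ1 : δ ≤ 1)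
    (x : Tor L) {ρ : ℝ} (hρ : 1 ≤ ρ) :
    ∑ z ∈ Finset.univ.filter (fun z => tnorm (z - x) < ρ), w1 R δ x z ≤
      δ ^ 2 * (1 + δ ^ 2) * (Real.pi * Real.log ρ + 300) := by
  have h0 : 0 ≤ δ ^ 2 * (1 + δ ^ 2) := by positivity
  have h1 : ∑ z ∈ Finset.univ.filter (fun z => tnorm (z - x) < ρ), w1 R δ x z ≤
      δ ^ 2 * (1 + δ ^ 2) *
        ∑ z ∈ Finset.univ.filter (fun z => tnorm (z - x) < ρ), Gf (crd (z - x)) := by
    rw [Finset.mul_sum]
    refine Finset.sum_le_sum fun z _ => ?_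
    exact (w1_le R hδ hδ1 x z).trans (mul_le_mul_of_nonneg_left (En_le_Gf hR hL x z) h0)
  refine h1.trans (mul_le_mul_of_nonneg_left (le_trans ?_ (Gf_box hρ)) h0)
  have hinj : Set.InjOn (fun z : Tor L => crd (z - x))
      (Finset.univ.filter (fun z : Tor L => tnorm (z - x) < ρ)) :=
    fun z _ z' _ h => sub_left_injective (crd_injective h)
  rw [← Finset.sum_image (g := fun z : Tor L => crd (z - x)) (f := Gf) hinj]
  apply Finset.sum_le_sum_of_subset_of_nonneg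
  · intro p hp
    obtain ⟨z, hz, rfl⟩ := Finset.mem_image.1 hp
    exact crd_mem _ ρ (Finset.mem_filter.1 hz).2.le
  · intro p _ _
    exact Gf_nonneg p

end Dsc

open Dsc in
/-- The two-centred logarithmic potential. -/
theorem disc : ∃ K : ℝ, 0 < K ∧ ∀ (L : ℕ) [NeZero L] (x y : Tor L) (δ : ℝ), 0 < δ → δ ≤ 1 →
    16 ≤ tnorm (x - y) → ∃ a : Tor L → ℝ,
      2 * δ * Real.log (tnorm (x - y)) - K ≤ a x - a y ∧
      (∀ z, 0 ≤ Wt a z) ∧
      (∀ z, Wt a z ≤ K * δ ^ 2 / (1 + dd x y z) ^ 2) ∧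
      (∀ z, tnorm (x - y) ≤ dd x y z → Wt a z = 0) ∧
      (∀ ρ : ℝ, 1 ≤ ρ → ∑ z ∈ Finset.univ.filter (fun z => dd x y z < ρ), Wt a z ≤
        2 * Real.pi * (1 + δ ^ 2) * δ ^ 2 * Real.log ρ + K * δ ^ 2) := by
  refine ⟨1200, by norm_num, ?_⟩
  intro L _ x y δ hδ hδ1 hD
  set D := tnorm (x - y) with hDdef
  set R := D / 4 with hRdef
  have hR : 4 ≤ R := by linarith
  have hR1 : 1 ≤ R := by linarith
  have hDR : D = 4 * R := by rw [hRdef]; ring
  have hδ2 : δ ^ 2 ≤ 1 := pow_le_one₀ hδ.le hδ1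
  have hδ0 : 0 ≤ δ ^ 2 := by positivity
  have hL : 2 * R + 4 < L := by
    by_contra hcon
    push Not at hcon
    have hLR : (L : ℝ) ≤ 3 * R := by linarith
    have hL0 : (0 : ℝ) ≤ L := Nat.cast_nonneg L
    have h1 : ∀ u : ZMod L, 4 * (u.valMinAbs : ℝ) ^ 2 ≤ (L : ℝ) ^ 2 := by
      intro u
      have h2 := u.valMinAbs_mem_Ioc
      have h3 : ((u.valMinAbs : ℤ) : ℝ) * 2 ≤ (L : ℝ) := by exact_mod_cast h2.2
      have h4 : -(L : ℝ) ≤ ((u.valMinAbs : ℤ) : ℝ) * 2 := by exact_mod_cast h2.1.le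
      nlinarith
    have h2 := tnorm_sq (x - y)
    have h3 := h1 (x - y).1
    have h4 := h1 (x - y).2
    rw [← hDdef, hDR] at h2
    nlinarith
  have htri : ∀ z, 4 * R ≤ tnorm (z - x) + tnorm (z - y) := by
    intro z
    have h1 := tnorm_add_le (x - z) (z - y)
    rw [sub_add_sub_cancel, tnorm_sub_comm x z, ← hDdef, hDR] at h1
    exact h1
  let a : Tor L → ℝ := fun z => δ * lg R (tnorm (z - x)) - δ * lg R (tnorm (z - y))
  have hterm : ∀ z z' : Tor L, |tnorm (z - x) - tnorm (z' - x)| ≤ 1 →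
      |tnorm (z - y) - tnorm (z' - y)| ≤ 1 → Real.cosh (a z - a z') - 1 =
        (Real.cosh (δ * lg R (tnorm (z - x)) - δ * lg R (tnorm (z' - x))) - 1) +
          (Real.cosh (δ * lg R (tnorm (z - y)) - δ * lg R (tnorm (z' - y))) - 1) := by
    intro z z' h1 h2
    have h3 := htri z
    rcases le_or_gt (R + 1) (tnorm (z - x)) with h | h
    · obtain ⟨e1, e2⟩ := far_zero hR1 h h1
      simp only [a, e1, e2, mul_zero, zero_sub, sub_zero, Real.cosh_zero]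
      rw [← Real.cosh_neg (-(δ * lg R (tnorm (z - y))) - -(δ * lg R (tnorm (z' - y))))]
      ring_nf
    · obtain ⟨e1, e2⟩ := far_zero hR1 (x := y) (z := z) (by linarith) h2
      simp only [a, e1, e2, mul_zero, sub_zero, Real.cosh_zero]
      ring
  have hsplit : ∀ z, Wt a z = w1 R δ x z + w1 R δ y z := by
    intro z
    have h1 := hterm z (z + (1, 0)) (step x z _ u1) (step y z _ u1)
    have h2 := hterm z (z - (1, 0)) (step' x z _ u2) (step' y z _ u2)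
    have h3 := hterm z (z + (0, 1)) (step x z _ u3) (step y z _ u3)
    have h4 := hterm z (z - (0, 1)) (step' x z _ u4) (step' y z _ u4)
    unfold w1 Wt
    rw [h1, h2, h3, h4]
    ring
  refine ⟨a, ?_, fun z => Wt_nonneg a z, ?_, ?_, ?_⟩
  · have h1 : a x - a y = 2 * δ * Real.log R := by
      have e0 : lg R (tnorm (x - x)) = Real.log R := by rw [sub_self, tnorm_zero, lg_at_zero hR1]
      have e1 : lg R (tnorm (y - y)) = Real.log R := by rw [sub_self, tnorm_zero, lg_at_zero hR1]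
      have e2 : lg R (tnorm (x - y)) = 0 := lg_zero_of_le hR1 (by rw [← hDdef]; linarith)
      have e3 : lg R (tnorm (y - x)) = 0 :=
        lg_zero_of_le hR1 (by rw [tnorm_sub_comm, ← hDdef]; linarith)
      simp only [a, e0, e1, e2, e3]
      ring
    have h2 : Real.log R = Real.log D - Real.log 4 := by
      rw [hRdef, Real.log_div (by linarith) (by norm_num)]
    have h3 : Real.log 4 ≤ 3 := by
      have := Real.log_le_sub_one_of_pos (x := 4) (by norm_num)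
      linarith
    have h4 : 0 ≤ Real.log 4 := Real.log_nonneg (by norm_num)
    rw [h1, h2]
    nlinarith
  · intro z
    rw [hsplit]
    have hx := (w1_le R hδ hδ1 x z).trans
      (mul_le_mul_of_nonneg_left (En_le_all R x z) (by positivity))
    have hy := (w1_le R hδ hδ1 y z).trans
      (mul_le_mul_of_nonneg_left (En_le_all R y z) (by positivity))
    have hdd0 : 0 ≤ dd x y z := le_min (tnorm_nonneg _) (tnorm_nonneg _)
    have e1 : 9 / (1 + tnorm (z - x)) ^ 2 ≤ 9 / (1 + dd x y z) ^ 2 := by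
      have : dd x y z ≤ tnorm (z - x) := min_le_left _ _
      gcongr
    have e2 : 9 / (1 + tnorm (z - y)) ^ 2 ≤ 9 / (1 + dd x y z) ^ 2 := by
      have : dd x y z ≤ tnorm (z - y) := min_le_right _ _
      gcongr
    have h1 : w1 R δ x z + w1 R δ y z ≤ δ ^ 2 * (1 + δ ^ 2) * (18 / (1 + dd x y z) ^ 2) := by
      have h2 : 0 ≤ δ ^ 2 * (1 + δ ^ 2) := by positivity
      have h3 := mul_le_mul_of_nonneg_left e1 h2
      have h4 := mul_le_mul_of_nonneg_left e2 h2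
      have h5 : 18 / (1 + dd x y z) ^ 2 = 9 / (1 + dd x y z) ^ 2 + 9 / (1 + dd x y z) ^ 2 := by
        ring
      rw [h5, mul_add]
      linarith
    refine h1.trans ?_
    rw [mul_div_assoc']
    apply div_le_div_of_nonneg_right _ (by positivity)
    nlinarith
  · intro z hz
    have h1 : D ≤ tnorm (z - x) := hz.trans (min_le_left _ _)
    have h2 : D ≤ tnorm (z - y) := hz.trans (min_le_right _ _)
    rw [hsplit, w1_far hR1 hδ hδ1 (by linarith), w1_far hR1 hδ hδ1 (by linarith), add_zero]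
  · intro ρ hρ
    have h1 : ∑ z ∈ Finset.univ.filter (fun z => dd x y z < ρ), Wt a z =
        ∑ z ∈ Finset.univ.filter (fun z => dd x y z < ρ), w1 R δ x z +
          ∑ z ∈ Finset.univ.filter (fun z => dd x y z < ρ), w1 R δ y z := by
      rw [← Finset.sum_add_distrib]
      exact Finset.sum_congr rfl fun z _ => hsplit z
    have h2 : ∑ z ∈ Finset.univ.filter (fun z => dd x y z < ρ), w1 R δ x z ≤
        ∑ z ∈ Finset.univ.filter (fun z => tnorm (z - x) < ρ), w1 R δ x z := by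
      rw [← Finset.sum_filter_ne_zero]
      apply Finset.sum_le_sum_of_subset_of_nonneg
      · intro z hz
        obtain ⟨hz1, hz2⟩ := Finset.mem_filter.1 hz
        have hz3 := (Finset.mem_filter.1 hz1).2
        have h3 : tnorm (z - x) < R + 1 := by
          by_contra hcon
          exact hz2 (w1_far hR1 hδ hδ1 (not_lt.1 hcon))
        have h4 := htri z
        have h5 : dd x y z = tnorm (z - x) := min_eq_left (by linarith)
        rw [h5] at hz3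
        exact Finset.mem_filter.2 ⟨Finset.mem_univ _, hz3⟩
      · intro z _ _
        exact Wt_nonneg _ _
    have h3 : ∑ z ∈ Finset.univ.filter (fun z => dd x y z < ρ), w1 R δ y z ≤
        ∑ z ∈ Finset.univ.filter (fun z => tnorm (z - y) < ρ), w1 R δ y z := by
      rw [← Finset.sum_filter_ne_zero]
      apply Finset.sum_le_sum_of_subset_of_nonneg
      · intro z hz
        obtain ⟨hz1, hz2⟩ := Finset.mem_filter.1 hz
        have hz3 := (Finset.mem_filter.1 hz1).2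
        have h3 : tnorm (z - y) < R + 1 := by
          by_contra hcon
          exact hz2 (w1_far hR1 hδ hδ1 (not_lt.1 hcon))
        have h4 := htri z
        have h5 : dd x y z = tnorm (z - y) := min_eq_right (by linarith)
        rw [h5] at hz3
        exact Finset.mem_filter.2 ⟨Finset.mem_univ _, hz3⟩
      · intro z _ _
        exact Wt_nonneg _ _
    have h4 := w1_sum hR hL hδ hδ1 x hρ
    have h5 := w1_sum hR hL hδ hδ1 y hρ
    rw [h1]
    have h6 : δ ^ 2 * (1 + δ ^ 2) * 600 ≤ 1200 * δ ^ 2 := by nlinarith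
    nlinarith

end Pool.Agent.H5R2.ON
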