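import Mathlib
import Pool.Agent.H5R2.ON.Defs
import Pool.Agent.H5R2.ON.Dist
import Pool.Agent.H5R2.ON.Disc

/-!
# The two-centred logarithmic potential, every `δ > 0` (helper143)
-/

set_option autoImplicit false

noncomputable section

namespace Pool.Agent.H5R2.ON

namespace Dsc

variable {L : ℕ} [NeZero L]

/-- the constant in the correction term -/
def BB (δ : ℝ) : ℝ := δ ^ 4 * Real.exp (δ ^ 2 / 2) / 4

lemma BB_nonneg (δ : ℝ) : 0 ≤ BB δ := by
  unfold BB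
  positivity

lemma cosh_delta2 {δ D : ℝ} (hD : |D| ≤ 1) :
    Real.cosh (δ * D) - 1 ≤ δ ^ 2 / 2 * D ^ 2 + BB δ * D ^ 4 := by
  have hD2 : D ^ 2 ≤ 1 := by
    rw [← sq_abs]
    exact pow_le_one₀ (abs_nonneg _) hD
  have h1 := Real.cosh_le_exp_half_sq (δ * D)
  set s := (δ * D) ^ 2 / 2 with hs
  have hs0 : 0 ≤ s := by positivity
  have hs1 : s ≤ δ ^ 2 / 2 := by
    rw [hs, mul_pow]
    nlinarith [sq_nonneg δ]
  have h2 : Real.exp s - 1 ≤ s * Real.exp s := by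
    have h3 := Real.add_one_le_exp (-s)
    have h4 : Real.exp (-s) * Real.exp s = 1 := by
      rw [← Real.exp_add]
      simp
    nlinarith [Real.exp_pos s]
  have h3 : Real.exp s ≤ Real.exp (δ ^ 2 / 2) := Real.exp_le_exp.2 hs1
  have h4 : Real.exp s - 1 ≤ s + s ^ 2 * Real.exp (δ ^ 2 / 2) := by
    have h5 : s * (Real.exp s - 1) ≤ s * (s * Real.exp s) := mul_le_mul_of_nonneg_left h2 hs0
    have h6 : s ^ 2 * Real.exp s ≤ s ^ 2 * Real.exp (δ ^ 2 / 2) := by gcongr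
    nlinarith
  have h5 : s + s ^ 2 * Real.exp (δ ^ 2 / 2) = δ ^ 2 / 2 * D ^ 2 + BB δ * D ^ 4 := by
    unfold BB
    rw [hs]
    ring
  linarith

lemma w1_le2 (R : ℝ) (δ : ℝ) (x z : Tor L) :
    w1 R δ x z ≤ δ ^ 2 * En R x z + 162 * BB δ / (1 + tnorm (z - x)) ^ 4 := by
  have h0 := tnorm_nonneg (z - x)
  have hB := BB_nonneg δ
  have key : ∀ z' : Tor L, |tnorm (z - x) - tnorm (z' - x)| ≤ 1 →
      Real.cosh (δ * lg R (tnorm (z - x)) - δ * lg R (tnorm (z' - x))) - 1 ≤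
        δ ^ 2 / 2 * (lg R (tnorm (z - x)) - lg R (tnorm (z' - x))) ^ 2 +
          81 * BB δ / (1 + tnorm (z - x)) ^ 4 := by
    intro z' h
    rw [← mul_sub]
    refine (cosh_delta2 (lg_diff_one h)).trans ?_
    have h1 := pow_le_pow_left₀ (abs_nonneg _) (lg_diff_all (R := R) h0 h) 4
    have h2 : |lg R (tnorm (z - x)) - lg R (tnorm (z' - x))| ^ 4 =
        (lg R (tnorm (z - x)) - lg R (tnorm (z' - x))) ^ 4 := by
      rw [show (4 : ℕ) = 2 * 2 by norm_num, pow_mul, pow_mul, sq_abs]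
    rw [h2, div_pow] at h1
    have h3 := mul_le_mul_of_nonneg_left h1 hB
    have h4 : BB δ * (3 ^ 4 / (1 + tnorm (z - x)) ^ 4) = 81 * BB δ / (1 + tnorm (z - x)) ^ 4 := by
      ring
    rw [h4] at h3
    linarith
  have h1 := key (z + (1, 0)) (step x z _ u1)
  have h2 := key (z - (1, 0)) (step' x z _ u2)
  have h3 := key (z + (0, 1)) (step x z _ u3)
  have h4 := key (z - (0, 1)) (step' x z _ u4)
  have h5 : 162 * BB δ / (1 + tnorm (z - x)) ^ 4 = 2 * (81 * BB δ / (1 + tnorm (z - x)) ^ 4) := by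
    ring
  unfold w1 Wt En
  rw [h5]
  linarith

lemma w1_le3 (R : ℝ) (δ : ℝ) (x z : Tor L) :
    w1 R δ x z ≤ (9 * δ ^ 2 + 162 * BB δ) / (1 + tnorm (z - x)) ^ 2 := by
  have h0 := tnorm_nonneg (z - x)
  have hB := BB_nonneg δ
  refine (w1_le2 R δ x z).trans ?_
  have h1 := mul_le_mul_of_nonneg_left (En_le_all R x z) (sq_nonneg δ)
  have h2 : 162 * BB δ / (1 + tnorm (z - x)) ^ 4 ≤ 162 * BB δ / (1 + tnorm (z - x)) ^ 2 := by
    apply div_le_div_of_nonneg_left (by positivity) (by positivity)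
    exact pow_le_pow_right₀ (by linarith) (by norm_num)
  have h3 : (9 * δ ^ 2 + 162 * BB δ) / (1 + tnorm (z - x)) ^ 2 =
      δ ^ 2 * (9 / (1 + tnorm (z - x)) ^ 2) + 162 * BB δ / (1 + tnorm (z - x)) ^ 2 := by ring
  rw [h3]
  linarith

lemma w1_far2 {R : ℝ} (hR : 1 ≤ R) (δ : ℝ) {x z : Tor L}
    (h : R + 1 ≤ tnorm (z - x)) : w1 R δ x z = 0 := by
  obtain ⟨a0, a1⟩ := far_zero hR h (step x z _ u1)
  obtain ⟨-, a2⟩ := far_zero hR h (step' x z _ u2)
  obtain ⟨-, a3⟩ := far_zero hR h (step x z _ u3)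
  obtain ⟨-, a4⟩ := far_zero hR h (step' x z _ u4)
  unfold w1 Wt
  simp only [a0, a1, a2, a3, a4]
  simp

lemma row4 (M : ℕ) : ∑ a ∈ Finset.Icc (-(M : ℤ)) M, (1 + (a : ℝ) ^ 2)⁻¹ ≤ 5 := by
  rw [even_sum (fun a : ℤ => (1 + (a : ℝ) ^ 2)⁻¹) M]
  have h1 : ∑ i ∈ Finset.range M, ((1 + ((((i : ℤ) + 1 : ℤ)) : ℝ) ^ 2)⁻¹ +
      (1 + (((-((i : ℤ) + 1) : ℤ)) : ℝ) ^ 2)⁻¹) ≤
        2 * ∑ i ∈ Finset.range M, (((i : ℝ) + 1) ^ 2)⁻¹ := by
    rw [Finset.mul_sum]
    refine Finset.sum_le_sum fun i _ => ?_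
    have hi : (0 : ℝ) ≤ i := Nat.cast_nonneg i
    have e3 : ((((i : ℤ) + 1 : ℤ)) : ℝ) ^ 2 = ((i : ℝ) + 1) ^ 2 := by push_cast; ring
    have e4 : (((-((i : ℤ) + 1) : ℤ)) : ℝ) ^ 2 = ((i : ℝ) + 1) ^ 2 := by push_cast; ring
    rw [e3, e4]
    have h2 : (1 + ((i : ℝ) + 1) ^ 2)⁻¹ ≤ (((i : ℝ) + 1) ^ 2)⁻¹ := by
      apply inv_anti₀ (by positivity)
      linarith
    linarith
  have h2 := sum_inv_sq M
  have h3 : (1 + (((0 : ℤ)) : ℝ) ^ 2)⁻¹ = 1 := by simp
  rw [h3]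
  linarith

lemma box4 (M : ℕ) : ∑ p ∈ Finset.Icc (-(M : ℤ)) M ×ˢ Finset.Icc (-(M : ℤ)) M,
    (1 + ((p.1 : ℤ) : ℝ) ^ 2)⁻¹ * (1 + ((p.2 : ℤ) : ℝ) ^ 2)⁻¹ ≤ 25 := by
  rw [Finset.sum_product]
  simp only
  rw [← Finset.sum_mul_sum]
  have h := row4 M
  have h0 : 0 ≤ ∑ a ∈ Finset.Icc (-(M : ℤ)) M, (1 + (a : ℝ) ^ 2)⁻¹ :=
    Finset.sum_nonneg fun a _ => by positivity
  nlinarith

omit [NeZero L] in
/-- majorant for the fourth powers -/
lemma four_le (u : Tor L) : 1 / (1 + tnorm u) ^ 4 ≤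
    (1 + (((crd u).1 : ℤ) : ℝ) ^ 2)⁻¹ * (1 + (((crd u).2 : ℤ) : ℝ) ^ 2)⁻¹ := by
  have h0 := tnorm_nonneg u
  have h2 := tnorm_sq u
  unfold crd
  simp only
  rw [← mul_inv, ← one_div]
  apply one_div_le_one_div_of_le (by positivity)
  have h3 : 1 + tnorm u ^ 2 ≤ (1 + tnorm u) ^ 2 := by nlinarith
  have h4 : (1 + tnorm u ^ 2) ^ 2 ≤ (1 + tnorm u) ^ 4 := by
    have := pow_le_pow_left₀ (by positivity) h3 2
    calc (1 + tnorm u ^ 2) ^ 2 ≤ ((1 + tnorm u) ^ 2) ^ 2 := this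
      _ = (1 + tnorm u) ^ 4 := by ring
  refine le_trans ?_ h4
  rw [h2]
  nlinarith [sq_nonneg (u.1.valMinAbs : ℝ), sq_nonneg (u.2.valMinAbs : ℝ),
    mul_nonneg (sq_nonneg (u.1.valMinAbs : ℝ)) (sq_nonneg (u.2.valMinAbs : ℝ)),
    sq_nonneg ((u.1.valMinAbs : ℝ) ^ 2), sq_nonneg ((u.2.valMinAbs : ℝ) ^ 2)]

/-- growth of the one-centred weight -/
lemma w1_sum2 {R : ℝ} (hR : 4 ≤ R) (hL : 2 * R + 4 < L) (δ : ℝ)
    (x : Tor L) {ρ : ℝ} (hρ : 1 ≤ ρ) :
    ∑ z ∈ Finset.univ.filter (fun z => tnorm (z - x) < ρ), w1 R δ x z ≤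
      δ ^ 2 * (Real.pi * Real.log ρ + 300) + 4050 * BB δ := by
  have hB := BB_nonneg δ
  let g : ℤ × ℤ → ℝ := fun p => δ ^ 2 * Gf p + 162 * BB δ *
    ((1 + ((p.1 : ℤ) : ℝ) ^ 2)⁻¹ * (1 + ((p.2 : ℤ) : ℝ) ^ 2)⁻¹)
  have hg0 : ∀ p, 0 ≤ g p := by
    intro p
    have := Gf_nonneg p
    simp only [g]
    positivity
  have h1 : ∑ z ∈ Finset.univ.filter (fun z => tnorm (z - x) < ρ), w1 R δ x z ≤
      ∑ z ∈ Finset.univ.filter (fun z => tnorm (z - x) < ρ), g (crd (z - x)) := by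
    refine Finset.sum_le_sum fun z _ => ?_
    refine (w1_le2 R δ x z).trans ?_
    have h2 := mul_le_mul_of_nonneg_left (En_le_Gf hR hL x z) (sq_nonneg δ)
    have h3 := mul_le_mul_of_nonneg_left (four_le (z - x)) (show 0 ≤ 162 * BB δ by positivity)
    have h4 : 162 * BB δ * (1 / (1 + tnorm (z - x)) ^ 4) =
        162 * BB δ / (1 + tnorm (z - x)) ^ 4 := by ring
    rw [h4] at h3
    exact add_le_add h2 h3
  have hinj : Set.InjOn (fun z : Tor L => crd (z - x))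
      (Finset.univ.filter (fun z : Tor L => tnorm (z - x) < ρ)) :=
    fun z _ z' _ h => sub_left_injective (crd_injective h)
  rw [← Finset.sum_image (g := fun z : Tor L => crd (z - x)) (f := g) hinj] at h1
  refine h1.trans ?_
  have h2 : ∑ p ∈ (Finset.univ.filter (fun z : Tor L => tnorm (z - x) < ρ)).image
      (fun z : Tor L => crd (z - x)), g p ≤
        ∑ p ∈ Finset.Icc (-(⌊ρ⌋₊ : ℤ)) ⌊ρ⌋₊ ×ˢ Finset.Icc (-(⌊ρ⌋₊ : ℤ)) ⌊ρ⌋₊, g p := by
    apply Finset.sum_le_sum_of_subset_of_nonneg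
    · intro p hp
      obtain ⟨z, hz, rfl⟩ := Finset.mem_image.1 hp
      exact crd_mem _ ρ (Finset.mem_filter.1 hz).2.le
    · intro p _ _
      exact hg0 p
  refine h2.trans ?_
  simp only [g]
  rw [Finset.sum_add_distrib, ← Finset.mul_sum, ← Finset.mul_sum]
  have h3 := mul_le_mul_of_nonneg_left (Gf_box hρ) (sq_nonneg δ)
  have h4 := mul_le_mul_of_nonneg_left (box4 ⌊ρ⌋₊) (show 0 ≤ 162 * BB δ by positivity)
  linarith

end Dsc

open Dsc in
/-- The two-centred logarithmic potential, for every `δ > 0`. -/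
theorem disc2 (δ : ℝ) (hδ : 0 < δ) : ∃ K : ℝ, 0 < K ∧ ∀ (L : ℕ) [NeZero L] (x y : Tor L),
    16 ≤ tnorm (x - y) → ∃ a : Tor L → ℝ,
      2 * δ * Real.log (tnorm (x - y)) - K ≤ a x - a y ∧
      (∀ z, 0 ≤ Wt a z) ∧
      (∀ z, Wt a z ≤ K / (1 + dd x y z) ^ 2) ∧
      (∀ z, tnorm (x - y) ≤ dd x y z → Wt a z = 0) ∧
      (∀ ρ : ℝ, 1 ≤ ρ → ∑ z ∈ Finset.univ.filter (fun z => dd x y z < ρ), Wt a z ≤
        2 * Real.pi * δ ^ 2 * Real.log ρ + K) := by
  have hB := BB_nonneg δ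
  refine ⟨6 * δ + 600 * δ ^ 2 + 8100 * BB δ, by positivity, ?_⟩
  intro L _ x y hD
  set D := tnorm (x - y) with hDdef
  set R := D / 4 with hRdef
  have hR : 4 ≤ R := by linarith
  have hR1 : 1 ≤ R := by linarith
  have hDR : D = 4 * R := by rw [hRdef]; ring
  have hδ0 : 0 ≤ δ ^ 2 := by positivity
  have hL : 2 * R + 4 < L := by
    by_contra hcon
    push Not at hcon
    have hLR : (L : ℝ) ≤ 3 * R := by linarith
    have hL0 : (0 : ℝ) ≤ L := Nat.cast_nonneg L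
    have h1 : ∀ u : ZMod L, 4 * (u.valMinAbs : ℝ) ^ 2 ≤ (L : ℝ) ^ 2 := by
      intro u
      have h2 := u.valMinAbs_mem_Ioc
      have h3 : ((u.valMinAbs : ℤ) : ℝ) * 2 ≤ (L : ℝ) := by exact_mod_cast h2.2
      have h4 : -(L : ℝ) ≤ ((u.valMinAbs : ℤ) : ℝ) * 2 := by exact_mod_cast h2.1.le
      nlinarith
    have h2 := tnorm_sq (x - y)
    have h3 := h1 (x - y).1
    have h4 := h1 (x - y).2
    rw [← hDdef, hDR] at h2
    nlinarith
  have htri : ∀ z, 4 * R ≤ tnorm (z - x) + tnorm (z - y) := by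
    intro z
    have h1 := tnorm_add_le (x - z) (z - y)
    rw [sub_add_sub_cancel, tnorm_sub_comm x z, ← hDdef, hDR] at h1
    exact h1
  let a : Tor L → ℝ := fun z => δ * lg R (tnorm (z - x)) - δ * lg R (tnorm (z - y))
  have hterm : ∀ z z' : Tor L, |tnorm (z - x) - tnorm (z' - x)| ≤ 1 →
      |tnorm (z - y) - tnorm (z' - y)| ≤ 1 → Real.cosh (a z - a z') - 1 =
        (Real.cosh (δ * lg R (tnorm (z - x)) - δ * lg R (tnorm (z' - x))) - 1) +
          (Real.cosh (δ * lg R (tnorm (z - y)) - δ * lg R (tnorm (z' - y))) - 1) := by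
    intro z z' h1 h2
    have h3 := htri z
    rcases le_or_gt (R + 1) (tnorm (z - x)) with h | h
    · obtain ⟨e1, e2⟩ := far_zero hR1 h h1
      simp only [a, e1, e2, mul_zero, zero_sub, sub_zero, Real.cosh_zero]
      rw [← Real.cosh_neg (-(δ * lg R (tnorm (z - y))) - -(δ * lg R (tnorm (z' - y))))]
      ring_nf
    · obtain ⟨e1, e2⟩ := far_zero hR1 (x := y) (z := z) (by linarith) h2
      simp only [a, e1, e2, mul_zero, sub_zero, Real.cosh_zero]
      ring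
  have hsplit : ∀ z, Wt a z = w1 R δ x z + w1 R δ y z := by
    intro z
    have h1 := hterm z (z + (1, 0)) (step x z _ u1) (step y z _ u1)
    have h2 := hterm z (z - (1, 0)) (step' x z _ u2) (step' y z _ u2)
    have h3 := hterm z (z + (0, 1)) (step x z _ u3) (step y z _ u3)
    have h4 := hterm z (z - (0, 1)) (step' x z _ u4) (step' y z _ u4)
    unfold w1 Wt
    rw [h1, h2, h3, h4]
    ring
  refine ⟨a, ?_, fun z => Wt_nonneg a z, ?_, ?_, ?_⟩
  · have h1 : a x - a y = 2 * δ * Real.log R := by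
      have e0 : lg R (tnorm (x - x)) = Real.log R := by rw [sub_self, tnorm_zero, lg_at_zero hR1]
      have e1 : lg R (tnorm (y - y)) = Real.log R := by rw [sub_self, tnorm_zero, lg_at_zero hR1]
      have e2 : lg R (tnorm (x - y)) = 0 := lg_zero_of_le hR1 (by rw [← hDdef]; linarith)
      have e3 : lg R (tnorm (y - x)) = 0 :=
        lg_zero_of_le hR1 (by rw [tnorm_sub_comm, ← hDdef]; linarith)
      simp only [a, e0, e1, e2, e3]
      ring
    have h2 : Real.log R = Real.log D - Real.log 4 := by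
      rw [hRdef, Real.log_div (by linarith) (by norm_num)]
    have h3 : Real.log 4 ≤ 3 := by
      have := Real.log_le_sub_one_of_pos (x := 4) (by norm_num)
      linarith
    rw [h1, h2]
    nlinarith
  · intro z
    rw [hsplit]
    have hx := w1_le3 R δ x z
    have hy := w1_le3 R δ y z
    have hdd0 : 0 ≤ dd x y z := le_min (tnorm_nonneg _) (tnorm_nonneg _)
    have hc : 0 ≤ 9 * δ ^ 2 + 162 * BB δ := by positivity
    have e1 : (9 * δ ^ 2 + 162 * BB δ) / (1 + tnorm (z - x)) ^ 2 ≤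
        (9 * δ ^ 2 + 162 * BB δ) / (1 + dd x y z) ^ 2 := by
      have : dd x y z ≤ tnorm (z - x) := min_le_left _ _
      gcongr
    have e2 : (9 * δ ^ 2 + 162 * BB δ) / (1 + tnorm (z - y)) ^ 2 ≤
        (9 * δ ^ 2 + 162 * BB δ) / (1 + dd x y z) ^ 2 := by
      have : dd x y z ≤ tnorm (z - y) := min_le_right _ _
      gcongr
    calc w1 R δ x z + w1 R δ y z ≤ (9 * δ ^ 2 + 162 * BB δ) / (1 + dd x y z) ^ 2 +
          (9 * δ ^ 2 + 162 * BB δ) / (1 + dd x y z) ^ 2 := by linarith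
      _ = (18 * δ ^ 2 + 324 * BB δ) / (1 + dd x y z) ^ 2 := by ring
      _ ≤ _ := by
          apply div_le_div_of_nonneg_right _ (by positivity)
          nlinarith
  · intro z hz
    have h1 : D ≤ tnorm (z - x) := hz.trans (min_le_left _ _)
    have h2 : D ≤ tnorm (z - y) := hz.trans (min_le_right _ _)
    rw [hsplit, w1_far2 hR1 δ (by linarith), w1_far2 hR1 δ (by linarith), add_zero]
  · intro ρ hρ
    have h1 : ∑ z ∈ Finset.univ.filter (fun z => dd x y z < ρ), Wt a z =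
        ∑ z ∈ Finset.univ.filter (fun z => dd x y z < ρ), w1 R δ x z +
          ∑ z ∈ Finset.univ.filter (fun z => dd x y z < ρ), w1 R δ y z := by
      rw [← Finset.sum_add_distrib]
      exact Finset.sum_congr rfl fun z _ => hsplit z
    have h2 : ∑ z ∈ Finset.univ.filter (fun z => dd x y z < ρ), w1 R δ x z ≤
        ∑ z ∈ Finset.univ.filter (fun z => tnorm (z - x) < ρ), w1 R δ x z := by
      rw [← Finset.sum_filter_ne_zero]
      apply Finset.sum_le_sum_of_subset_of_nonneg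
      · intro z hz
        obtain ⟨hz1, hz2⟩ := Finset.mem_filter.1 hz
        have hz3 := (Finset.mem_filter.1 hz1).2
        have h3 : tnorm (z - x) < R + 1 := by
          by_contra hcon
          exact hz2 (w1_far2 hR1 δ (not_lt.1 hcon))
        have h4 := htri z
        have h5 : dd x y z = tnorm (z - x) := min_eq_left (by linarith)
        rw [h5] at hz3
        exact Finset.mem_filter.2 ⟨Finset.mem_univ _, hz3⟩
      · intro z _ _
        exact Wt_nonneg _ _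
    have h3 : ∑ z ∈ Finset.univ.filter (fun z => dd x y z < ρ), w1 R δ y z ≤
        ∑ z ∈ Finset.univ.filter (fun z => tnorm (z - y) < ρ), w1 R δ y z := by
      rw [← Finset.sum_filter_ne_zero]
      apply Finset.sum_le_sum_of_subset_of_nonneg
      · intro z hz
        obtain ⟨hz1, hz2⟩ := Finset.mem_filter.1 hz
        have hz3 := (Finset.mem_filter.1 hz1).2
        have h3 : tnorm (z - y) < R + 1 := by
          by_contra hcon
          exact hz2 (w1_far2 hR1 δ (not_lt.1 hcon))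
        have h4 := htri z
        have h5 : dd x y z = tnorm (z - y) := min_eq_right (by linarith)
        rw [h5] at hz3
        exact Finset.mem_filter.2 ⟨Finset.mem_univ _, hz3⟩
      · intro z _ _
        exact Wt_nonneg _ _
    have h4 := w1_sum2 hR hL δ x hρ
    have h5 := w1_sum2 hR hL δ y hρ
    rw [h1]
    have h6 : 2 * (δ ^ 2 * (Real.pi * Real.log ρ + 300) + 4050 * BB δ) =
        2 * Real.pi * δ ^ 2 * Real.log ρ + (600 * δ ^ 2 + 8100 * BB δ) := by ring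
    linarith

end Pool.Agent.H5R2.ON
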