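import Mathlib
import Pool.Agent.H5R2.ON.Defs
import Pool.Agent.H5R2.ON.Basic
import Pool.Agent.H5R2.ON.Dist

set_option autoImplicit false

noncomputable section

namespace Pool.Agent.H5R2.ON.Cheb

open MeasureTheory Metric ComplexConjugate Finset

/-! ### The largest bad scale -/

theorem largest_bad (X W : ℕ → ℝ) (c ε : ℝ) (hε : 0 ≤ ε)
    (hXW : ∀ k, X k ≤ W k) (J : ℕ) :
    (∑ k ∈ range J, X k ≤ c * ∑ k ∈ range J, W k + J * ε) ∨
    ∃ j ∈ range J, ε < X j - c * W j ∧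
      ∑ k ∈ range J, X k ≤
        (1 - c) * ∑ k ∈ range (j + 1), W k + c * ∑ k ∈ range J, W k + J * ε := by
  induction J with
  | zero => left; simp
  | succ J ih =>
    by_cases hb : ε < X J - c * W J
    · right
      refine ⟨J, by simp, hb, ?_⟩
      have h1 : ∑ k ∈ range (J + 1), X k ≤ ∑ k ∈ range (J + 1), W k :=
        sum_le_sum fun k _ => hXW k
      have h2 : (0 : ℝ) ≤ ((J + 1 : ℕ) : ℝ) * ε := by positivity
      linarith
    · push Not at hb
      rcases ih with h | ⟨j, hj, hj1, hj2⟩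
      · left
        rw [sum_range_succ, sum_range_succ]
        push_cast
        nlinarith
      · right
        refine ⟨j, ?_, hj1, ?_⟩
        · rw [mem_range] at hj ⊢
          omega
        · rw [sum_range_succ (fun k => X k) J, sum_range_succ (fun k => W k) J]
          push_cast
          nlinarith

/-- pointwise exponential bound -/
theorem exp_pointwise (X W : ℕ → ℝ) (c ε β : ℝ) (hε : 0 < ε)
    (hβ : 0 ≤ β) (hXW : ∀ k, X k ≤ W k) (J : ℕ) :
    Real.exp (β * ∑ k ∈ range J, X k) ≤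
      Real.exp (β * (c * ∑ k ∈ range J, W k + J * ε)) +
      ∑ j ∈ range J, (X j - c * W j) ^ 2 * (ε ^ 2)⁻¹ *
        Real.exp (β * ((1 - c) * ∑ k ∈ range (j + 1), W k + c * ∑ k ∈ range J, W k + J * ε)) := by
  have hnn : ∀ j ∈ range J, 0 ≤ (X j - c * W j) ^ 2 * (ε ^ 2)⁻¹ *
        Real.exp (β * ((1 - c) * ∑ k ∈ range (j + 1), W k + c * ∑ k ∈ range J, W k + J * ε)) := by
    intro j _
    positivity
  rcases largest_bad X W c ε hε.le hXW J with h | ⟨j, hj, hj1, hj2⟩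
  · have h1 : Real.exp (β * ∑ k ∈ range J, X k) ≤
        Real.exp (β * (c * ∑ k ∈ range J, W k + J * ε)) :=
      Real.exp_le_exp.mpr (mul_le_mul_of_nonneg_left h hβ)
    have h2 := sum_nonneg hnn
    linarith
  · have h1 : Real.exp (β * ∑ k ∈ range J, X k) ≤
        Real.exp (β * ((1 - c) * ∑ k ∈ range (j + 1), W k + c * ∑ k ∈ range J, W k + J * ε)) :=
      Real.exp_le_exp.mpr (mul_le_mul_of_nonneg_left hj2 hβ)
    have h2 := single_le_sum hnn hj
    have h3 : 1 ≤ (X j - c * W j) ^ 2 * (ε ^ 2)⁻¹ := by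
      rw [← div_eq_mul_inv, one_le_div (by positivity)]
      nlinarith
    have h4 : Real.exp (β * ((1 - c) * ∑ k ∈ range (j + 1), W k + c * ∑ k ∈ range J, W k
        + J * ε)) ≤ (X j - c * W j) ^ 2 * (ε ^ 2)⁻¹ *
        Real.exp (β * ((1 - c) * ∑ k ∈ range (j + 1), W k + c * ∑ k ∈ range J, W k + J * ε)) := by
      nlinarith [Real.exp_pos (β * ((1 - c) * ∑ k ∈ range (j + 1), W k + c * ∑ k ∈ range J, W k
        + J * ε))]
    have h5 := Real.exp_pos (β * (c * ∑ k ∈ range J, W k + J * ε))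
    linarith

/-! ### Counting -/

theorem card_near (K₄ : ℝ)
    (hK₄ : ∀ (L : ℕ) [NeZero L] (x : Tor L) (ρ : ℝ), 0 ≤ ρ →
      ((Finset.univ.filter fun z : Tor L => tnorm (z - x) ≤ ρ).card : ℝ) ≤ K₄ * (1 + ρ) ^ 2)
    {L : ℕ} [NeZero L] (x : Tor L) (k : ℕ) :
    ((univ.filter fun z : Tor L => 1 + tnorm (z - x) < 2 ^ k).card : ℝ) ≤ K₄ * 4 ^ k := by
  have h1 : (1 : ℝ) ≤ 2 ^ k := one_le_pow₀ (by norm_num)
  have h := hK₄ L x (2 ^ k - 1) (by linarith)
  have h2 : ((univ.filter fun z : Tor L => 1 + tnorm (z - x) < 2 ^ k).card : ℝ) ≤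
      ((univ.filter fun z : Tor L => tnorm (z - x) ≤ 2 ^ k - 1).card : ℝ) := by
    apply Nat.cast_le.mpr
    apply card_le_card
    intro z hz
    rw [mem_filter] at hz ⊢
    exact ⟨hz.1, by linarith [hz.2]⟩
  have h3 : K₄ * (1 + ((2 : ℝ) ^ k - 1)) ^ 2 = K₄ * 4 ^ k := by
    rw [show (4 : ℝ) = 2 ^ 2 by norm_num, ← pow_mul, mul_comm 2 k, pow_mul]
    ring
  linarith

theorem rpow_scale (p : ℝ) (hp : 0 < p) (k : ℕ) (t : ℝ) (ht : (2 : ℝ) ^ k ≤ 1 + t) :
    (1 + t) ^ (-p) ≤ ((2 : ℝ) ^ (-p)) ^ k := by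
  have h0 : (0 : ℝ) < 2 ^ k := by positivity
  have h1 : (1 + t) ^ (-p) ≤ ((2 : ℝ) ^ k) ^ (-p) :=
    Real.rpow_le_rpow_of_nonpos h0 ht (by linarith)
  have h2 : ((2 : ℝ) ^ k) ^ (-p) = ((2 : ℝ) ^ (-p)) ^ k := by
    rw [← Real.rpow_natCast, ← Real.rpow_natCast, ← Real.rpow_mul (by norm_num),
      ← Real.rpow_mul (by norm_num), mul_comm]
  linarith

theorem tn_nonneg {L : ℕ} (x : Tor L) : 0 ≤ tnorm x := Real.sqrt_nonneg _

theorem sum_near (K₄ : ℝ) (hK₄0 : 0 < K₄)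
    (hK₄ : ∀ (L : ℕ) [NeZero L] (x : Tor L) (ρ : ℝ), 0 ≤ ρ →
      ((Finset.univ.filter fun z : Tor L => tnorm (z - x) ≤ ρ).card : ℝ) ≤ K₄ * (1 + ρ) ^ 2)
    (p : ℝ) (hp : 0 < p) (hp1 : p ≤ 1)
    {L : ℕ} [NeZero L] (z : Tor L) (k : ℕ) :
    ∑ z' ∈ univ.filter (fun z' : Tor L => 1 + tnorm (z' - z) < 2 ^ k), (1 + tnorm (z' - z)) ^ (-p)
      ≤ 4 * K₄ * (4 * (2 : ℝ) ^ (-p)) ^ k := by
  have hb : (1 / 2 : ℝ) ≤ (2 : ℝ) ^ (-p) := by
    have : (2 : ℝ) ^ (-1 : ℝ) ≤ (2 : ℝ) ^ (-p) :=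
      Real.rpow_le_rpow_of_exponent_le (by norm_num) (by linarith)
    rw [Real.rpow_neg_one] at this
    linarith
  set b : ℝ := (2 : ℝ) ^ (-p) with hbdef
  have hb0 : 0 < b := by positivity
  induction k with
  | zero =>
    have : (univ.filter (fun z' : Tor L => 1 + tnorm (z' - z) < 2 ^ 0)) = ∅ := by
      apply filter_eq_empty_iff.mpr
      intro z' _
      have := tn_nonneg (z' - z)
      simp only [pow_zero, not_lt]
      linarith
    rw [this]
    simp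
    positivity
  | succ k ih =>
    have hsplit : univ.filter (fun z' : Tor L => 1 + tnorm (z' - z) < 2 ^ (k + 1)) =
        univ.filter (fun z' : Tor L => 1 + tnorm (z' - z) < 2 ^ k) ∪
        univ.filter (fun z' : Tor L => 1 + tnorm (z' - z) < 2 ^ (k + 1) ∧
          2 ^ k ≤ 1 + tnorm (z' - z)) := by
      ext z'
      simp only [mem_filter, mem_univ, true_and, mem_union]
      constructor
      · intro h
        by_cases h' : 1 + tnorm (z' - z) < 2 ^ k
        · exact Or.inl h'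
        · exact Or.inr ⟨h, not_lt.mp h'⟩
      · rintro (h | h)
        · exact h.trans_le (pow_le_pow_right₀ (by norm_num) (by omega))
        · exact h.1
    rw [hsplit]
    have h1 : ∑ z' ∈ univ.filter (fun z' : Tor L => 1 + tnorm (z' - z) < 2 ^ k) ∪
        univ.filter (fun z' : Tor L => 1 + tnorm (z' - z) < 2 ^ (k + 1) ∧
          2 ^ k ≤ 1 + tnorm (z' - z)), (1 + tnorm (z' - z)) ^ (-p) ≤
        ∑ z' ∈ univ.filter (fun z' : Tor L => 1 + tnorm (z' - z) < 2 ^ k),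
          (1 + tnorm (z' - z)) ^ (-p) +
        ∑ z' ∈ univ.filter (fun z' : Tor L => 1 + tnorm (z' - z) < 2 ^ (k + 1) ∧
          2 ^ k ≤ 1 + tnorm (z' - z)), (1 + tnorm (z' - z)) ^ (-p) := by
      rw [← sum_union_inter]
      have : 0 ≤ ∑ z' ∈ univ.filter (fun z' : Tor L => 1 + tnorm (z' - z) < 2 ^ k) ∩
        univ.filter (fun z' : Tor L => 1 + tnorm (z' - z) < 2 ^ (k + 1) ∧
          2 ^ k ≤ 1 + tnorm (z' - z)), (1 + tnorm (z' - z)) ^ (-p) := by
        apply sum_nonneg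
        intro z' _
        have := tn_nonneg (z' - z)
        positivity
      linarith
    have h2 : ∑ z' ∈ univ.filter (fun z' : Tor L => 1 + tnorm (z' - z) < 2 ^ (k + 1) ∧
          2 ^ k ≤ 1 + tnorm (z' - z)), (1 + tnorm (z' - z)) ^ (-p) ≤ K₄ * 4 ^ (k + 1) * b ^ k := by
      have h3 : ∑ z' ∈ univ.filter (fun z' : Tor L => 1 + tnorm (z' - z) < 2 ^ (k + 1) ∧
          2 ^ k ≤ 1 + tnorm (z' - z)), (1 + tnorm (z' - z)) ^ (-p) ≤
          ∑ z' ∈ univ.filter (fun z' : Tor L => 1 + tnorm (z' - z) < 2 ^ (k + 1) ∧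
          2 ^ k ≤ 1 + tnorm (z' - z)), b ^ k := by
        apply sum_le_sum
        intro z' hz'
        rw [mem_filter] at hz'
        exact rpow_scale p hp k _ hz'.2.2
      rw [sum_const, nsmul_eq_mul] at h3
      have h4 : ((univ.filter (fun z' : Tor L => 1 + tnorm (z' - z) < 2 ^ (k + 1) ∧
          2 ^ k ≤ 1 + tnorm (z' - z))).card : ℝ) ≤ K₄ * 4 ^ (k + 1) := by
        refine le_trans ?_ (card_near K₄ hK₄ z (k + 1))
        apply Nat.cast_le.mpr
        apply card_le_card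
        intro z' hz'
        rw [mem_filter] at hz' ⊢
        exact ⟨hz'.1, hz'.2.1⟩
      have h5 : 0 < b ^ k := by positivity
      nlinarith
    have h6 : 0 < K₄ * (4 * b) ^ k := by positivity
    have h7 : K₄ * 4 ^ (k + 1) * b ^ k = 4 * (K₄ * (4 * b) ^ k) := by
      rw [mul_pow, pow_succ]
      ring
    have h8 : 4 * K₄ * (4 * b) ^ (k + 1) = (4 * (4 * b)) * (K₄ * (4 * b) ^ k) := by
      rw [pow_succ]
      ring
    have h9 : 4 * K₄ * (4 * b) ^ k = 4 * (K₄ * (4 * b) ^ k) := by ring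
    rw [h8]
    rw [h9] at ih
    rw [h7] at h2
    nlinarith

/-- the annulus of scale `k` -/
def ann {L : ℕ} [NeZero L] (x y : Tor L) (k : ℕ) : Finset (Tor L) :=
  univ.filter fun z => 2 ^ k ≤ 1 + dd x y z ∧ 1 + dd x y z < 2 ^ (k + 1)

theorem dd_nonneg {L : ℕ} (x y z : Tor L) : 0 ≤ dd x y z :=
  le_min (tn_nonneg _) (tn_nonneg _)

theorem card_ann (K₄ : ℝ)
    (hK₄ : ∀ (L : ℕ) [NeZero L] (x : Tor L) (ρ : ℝ), 0 ≤ ρ →
      ((Finset.univ.filter fun z : Tor L => tnorm (z - x) ≤ ρ).card : ℝ) ≤ K₄ * (1 + ρ) ^ 2)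
    {L : ℕ} [NeZero L] (x y : Tor L) (k : ℕ) :
    ((ann x y k).card : ℝ) ≤ 8 * K₄ * 4 ^ k := by
  have h1 := card_near K₄ hK₄ x (k + 1)
  have h2 := card_near K₄ hK₄ y (k + 1)
  have h3 : ((ann x y k).card : ℝ) ≤
      ((univ.filter fun z : Tor L => 1 + tnorm (z - x) < 2 ^ (k + 1)).card : ℝ) +
      ((univ.filter fun z : Tor L => 1 + tnorm (z - y) < 2 ^ (k + 1)).card : ℝ) := by
    rw [← Nat.cast_add]
    apply Nat.cast_le.mpr
    refine le_trans (card_le_card ?_) (card_union_le _ _)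
    intro z hz
    rw [ann, mem_filter] at hz
    rw [mem_union, mem_filter, mem_filter]
    have hz2 := hz.2.2
    unfold dd at hz2
    rcases min_choice (tnorm (z - x)) (tnorm (z - y)) with h | h
    · rw [h] at hz2
      exact Or.inl ⟨hz.1, hz2⟩
    · rw [h] at hz2
      exact Or.inr ⟨hz.1, hz2⟩
  have h4 : K₄ * (4 : ℝ) ^ (k + 1) = 4 * (K₄ * 4 ^ k) := by
    rw [pow_succ]
    ring
  linarith

theorem sum_ann (K₄ : ℝ) (hK₄0 : 0 < K₄)
    (hK₄ : ∀ (L : ℕ) [NeZero L] (x : Tor L) (ρ : ℝ), 0 ≤ ρ →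
      ((Finset.univ.filter fun z : Tor L => tnorm (z - x) ≤ ρ).card : ℝ) ≤ K₄ * (1 + ρ) ^ 2)
    (p : ℝ) (hp : 0 < p) (hp1 : p ≤ 1)
    {L : ℕ} [NeZero L] (x y z : Tor L) (k : ℕ) :
    ∑ z' ∈ ann x y k, (1 + tnorm (z' - z)) ^ (-p) ≤ 12 * K₄ * (4 * (2 : ℝ) ^ (-p)) ^ k := by
  have h1 := sum_near K₄ hK₄0 hK₄ p hp hp1 z k
  have h2 := card_ann K₄ hK₄ x y k
  have hb0 : 0 < (2 : ℝ) ^ (-p) := by positivity
  set b : ℝ := (2 : ℝ) ^ (-p) with hbdef
  have h3 : ∑ z' ∈ ann x y k, (1 + tnorm (z' - z)) ^ (-p) =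
      ∑ z' ∈ (ann x y k).filter (fun z' => 1 + tnorm (z' - z) < 2 ^ k),
        (1 + tnorm (z' - z)) ^ (-p) +
      ∑ z' ∈ (ann x y k).filter (fun z' => ¬ (1 + tnorm (z' - z) < 2 ^ k)),
        (1 + tnorm (z' - z)) ^ (-p) := (sum_filter_add_sum_filter_not _ _ _).symm
  have h4 : ∑ z' ∈ (ann x y k).filter (fun z' => 1 + tnorm (z' - z) < 2 ^ k),
        (1 + tnorm (z' - z)) ^ (-p) ≤
      ∑ z' ∈ univ.filter (fun z' : Tor L => 1 + tnorm (z' - z) < 2 ^ k),
        (1 + tnorm (z' - z)) ^ (-p) := by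
    apply sum_le_sum_of_subset_of_nonneg
    · intro z' hz'
      rw [mem_filter] at hz' ⊢
      exact ⟨mem_univ _, hz'.2⟩
    · intro z' _ _
      have := tn_nonneg (z' - z)
      positivity
  have h5 : ∑ z' ∈ (ann x y k).filter (fun z' => ¬ (1 + tnorm (z' - z) < 2 ^ k)),
        (1 + tnorm (z' - z)) ^ (-p) ≤ ((ann x y k).card : ℝ) * b ^ k := by
    have h6 : ∑ z' ∈ (ann x y k).filter (fun z' => ¬ (1 + tnorm (z' - z) < 2 ^ k)),
        (1 + tnorm (z' - z)) ^ (-p) ≤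
        ∑ z' ∈ (ann x y k).filter (fun z' => ¬ (1 + tnorm (z' - z) < 2 ^ k)), b ^ k := by
      apply sum_le_sum
      intro z' hz'
      rw [mem_filter] at hz'
      exact rpow_scale p hp k _ (not_lt.mp hz'.2)
    rw [sum_const, nsmul_eq_mul] at h6
    refine h6.trans ?_
    apply mul_le_mul_of_nonneg_right _ (by positivity)
    exact Nat.cast_le.mpr (card_filter_le _ _)
  have h7 : ((ann x y k).card : ℝ) * b ^ k ≤ 8 * K₄ * 4 ^ k * b ^ k :=
    mul_le_mul_of_nonneg_right h2 (by positivity)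
  have h8 : 8 * K₄ * 4 ^ k * b ^ k = 8 * K₄ * (4 * b) ^ k := by
    rw [mul_pow]
    ring
  linarith

/-! ### Second moment -/

theorem int_bdd {Ω : Type*} [MeasurableSpace Ω] (μ : Measure Ω) [IsProbabilityMeasure μ]
    (f : Ω → ℝ) (hf : Measurable f) (C : ℝ) (hC : ∀ ω, |f ω| ≤ C) : Integrable f μ :=
  Integrable.of_bound hf.aestronglyMeasurable C (Filter.Eventually.of_forall fun ω => by
    rw [Real.norm_eq_abs]
    exact hC ω)

theorem var_bound (K₄ : ℝ) (hK₄0 : 0 < K₄)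
    (hK₄ : ∀ (L : ℕ) [NeZero L] (x : Tor L) (ρ : ℝ), 0 ≤ ρ →
      ((Finset.univ.filter fun z : Tor L => tnorm (z - x) ≤ ρ).card : ℝ) ≤ K₄ * (1 + ρ) ^ 2)
    (p C₂ K : ℝ) (hp : 0 < p) (hp1 : p ≤ 1) (hC₂ : 0 < C₂) (hK : 0 < K)
    {Ω : Type*} [MeasurableSpace Ω] (μ : Measure Ω) [IsProbabilityMeasure μ]
    {L : ℕ} [NeZero L] (f : Tor L → Ω → ℝ) (hf : ∀ z, Measurable (f z))
    (hf1 : ∀ z ω, |f z ω| ≤ 1)
    (hcorr : ∀ x y, |∫ ω, f x ω * f y ω ∂μ| ≤ C₂ * (1 + tnorm (x - y)) ^ (-p))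
    (x y : Tor L) (w : Tor L → ℝ) (hw0 : ∀ z, 0 ≤ w z) (hwK : ∀ z, w z ≤ K / (1 + dd x y z) ^ 2)
    (k : ℕ) :
    ∫ ω, (∑ z ∈ ann x y k, w z * f z ω) ^ 2 ∂μ ≤
      96 * C₂ * K ^ 2 * K₄ ^ 2 * ((2 : ℝ) ^ (-p)) ^ k := by
  have hb0 : 0 < (2 : ℝ) ^ (-p) := by positivity
  have hsum := fun z => sum_ann K₄ hK₄0 hK₄ p hp hp1 x y z k
  have hcard := card_ann K₄ hK₄ x y k
  set b : ℝ := (2 : ℝ) ^ (-p) with hbdef
  have hint : ∀ z z' : Tor L, Integrable (fun ω => f z ω * f z' ω) μ := by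
    intro z z'
    refine int_bdd μ _ ((hf z).mul (hf z')) 1 fun ω => ?_
    rw [abs_mul]
    calc |f z ω| * |f z' ω| ≤ 1 * 1 :=
          mul_le_mul (hf1 z ω) (hf1 z' ω) (abs_nonneg _) zero_le_one
      _ = 1 := one_mul 1
  have h1 : ∀ ω, (∑ z ∈ ann x y k, w z * f z ω) ^ 2 =
      ∑ z ∈ ann x y k, ∑ z' ∈ ann x y k, (w z * w z') * (f z ω * f z' ω) := by
    intro ω
    rw [sq, sum_mul_sum]
    refine sum_congr rfl fun z _ => sum_congr rfl fun z' _ => ?_
    ring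
  have h2 : ∫ ω, (∑ z ∈ ann x y k, w z * f z ω) ^ 2 ∂μ =
      ∑ z ∈ ann x y k, ∑ z' ∈ ann x y k, (w z * w z') * ∫ ω, f z ω * f z' ω ∂μ := by
    simp only [h1]
    rw [integral_finsetSum]
    · refine sum_congr rfl fun z _ => ?_
      rw [integral_finsetSum]
      · refine sum_congr rfl fun z' _ => ?_
        rw [integral_const_mul]
      · intro z' _
        exact (hint z z').const_mul _
    · intro z _
      exact integrable_finsetSum _ fun z' _ => (hint z z').const_mul _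
  rw [h2]
  have h4k : (0 : ℝ) < 4 ^ k := by positivity
  have hwk : ∀ z ∈ ann x y k, w z ≤ K / 4 ^ k := by
    intro z hz
    rw [ann, mem_filter] at hz
    refine (hwK z).trans ?_
    apply div_le_div_of_nonneg_left hK.le h4k
    have h5 : ((2 : ℝ) ^ k) ^ 2 ≤ (1 + dd x y z) ^ 2 :=
      pow_le_pow_left₀ (by positivity) hz.2.1 2
    rw [← pow_mul, mul_comm k 2, pow_mul] at h5
    norm_num at h5
    exact h5
  have h3 : ∀ z ∈ ann x y k, ∑ z' ∈ ann x y k, (w z * w z') * ∫ ω, f z ω * f z' ω ∂μ ≤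
      (K / 4 ^ k) * (K / 4 ^ k) * (C₂ * (12 * K₄ * (4 * b) ^ k)) := by
    intro z hz
    have h6 : ∑ z' ∈ ann x y k, (w z * w z') * ∫ ω, f z ω * f z' ω ∂μ ≤
        ∑ z' ∈ ann x y k, (K / 4 ^ k) * (K / 4 ^ k) * (C₂ * (1 + tnorm (z' - z)) ^ (-p)) := by
      apply sum_le_sum
      intro z' hz'
      have h7 : ∫ ω, f z ω * f z' ω ∂μ ≤ C₂ * (1 + tnorm (z' - z)) ^ (-p) := by
        have := (le_abs_self _).trans (hcorr z' z)
        simp only [mul_comm (f z' _)] at this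
        exact this
      have h8 : 0 ≤ C₂ * (1 + tnorm (z' - z)) ^ (-p) := by
        have := tn_nonneg (z' - z)
        positivity
      have h9 : w z * w z' ≤ (K / 4 ^ k) * (K / 4 ^ k) :=
        mul_le_mul (hwk z hz) (hwk z' hz') (hw0 z') (by positivity)
      calc (w z * w z') * ∫ ω, f z ω * f z' ω ∂μ
          ≤ (w z * w z') * (C₂ * (1 + tnorm (z' - z)) ^ (-p)) :=
            mul_le_mul_of_nonneg_left h7 (mul_nonneg (hw0 z) (hw0 z'))
        _ ≤ _ := mul_le_mul_of_nonneg_right h9 h8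
    refine h6.trans ?_
    rw [← mul_sum, ← mul_sum]
    have h10 : 0 ≤ (K / 4 ^ k) * (K / 4 ^ k) := by positivity
    apply mul_le_mul_of_nonneg_left _ h10
    exact mul_le_mul_of_nonneg_left (hsum z) hC₂.le
  have h11 : ∑ z ∈ ann x y k, ∑ z' ∈ ann x y k, (w z * w z') * ∫ ω, f z ω * f z' ω ∂μ ≤
      ((ann x y k).card : ℝ) * ((K / 4 ^ k) * (K / 4 ^ k) * (C₂ * (12 * K₄ * (4 * b) ^ k))) := by
    rw [← nsmul_eq_mul, ← sum_const]
    exact sum_le_sum h3
  refine h11.trans ?_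
  have h12 : 0 ≤ (K / 4 ^ k) * (K / 4 ^ k) * (C₂ * (12 * K₄ * (4 * b) ^ k)) := by positivity
  refine (mul_le_mul_of_nonneg_right hcard h12).trans (le_of_eq ?_)
  rw [mul_pow]
  field_simp
  ring

/-! ### Sums over annuli -/

theorem sum_ann_range {L : ℕ} [NeZero L] (x y : Tor L) (g : Tor L → ℝ) (J : ℕ) :
    ∑ k ∈ range J, ∑ z ∈ ann x y k, g z =
      ∑ z ∈ univ.filter (fun z => 1 + dd x y z < 2 ^ J), g z := by
  induction J with
  | zero =>
    have : (univ.filter (fun z => 1 + dd x y z < 2 ^ 0)) = ∅ := by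
      apply filter_eq_empty_iff.mpr
      intro z' _
      have := dd_nonneg x y z'
      simp only [pow_zero, not_lt]
      linarith
    rw [this]
    simp
  | succ J ih =>
    rw [sum_range_succ, ih]
    rw [← sum_union]
    · refine sum_congr ?_ fun _ _ => rfl
      ext z
      simp only [ann, mem_filter, mem_univ, true_and, mem_union]
      constructor
      · rintro (h | h)
        · exact h.trans_le (pow_le_pow_right₀ (by norm_num) (by omega))
        · exact h.2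
      · intro h
        by_cases h' : 1 + dd x y z < 2 ^ J
        · exact Or.inl h'
        · exact Or.inr ⟨not_lt.mp h', h⟩
    · rw [disjoint_left]
      intro z hz hz'
      rw [mem_filter] at hz
      rw [ann, mem_filter] at hz'
      exact absurd hz.2 (not_lt.mpr hz'.2.1)

/-! ### Real analysis -/

/-- the geometric factor -/
theorem geom_factor (q l D : ℝ) (n₀ j : ℕ) (hl : 0 < l) (hD : 1 ≤ D) (hj : j ≤ n₀)
    (hn₀ : n₀ * l ≤ l + Real.log D) :
    Real.exp (j * l * q) ≤ Real.exp (|q| * l) * (1 + D ^ q) := by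
  have hD0 : 0 < D := by linarith
  have hDq : 0 < D ^ q := Real.rpow_pos_of_pos hD0 q
  have h1 : 1 ≤ Real.exp (|q| * l) := Real.one_le_exp (by positivity)
  have hjl : (j : ℝ) * l ≤ n₀ * l := by
    have : (j : ℝ) ≤ n₀ := by exact_mod_cast hj
    nlinarith
  have hjl0 : 0 ≤ (j : ℝ) * l := by positivity
  rcases le_total q 0 with hq | hq
  · have h2 : Real.exp (j * l * q) ≤ 1 := by
      rw [← Real.exp_zero]
      apply Real.exp_le_exp.mpr
      nlinarith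
    nlinarith
  · rw [abs_of_nonneg hq]
    have h3 : Real.exp (j * l * q) ≤ Real.exp (q * l) * D ^ q := by
      rw [Real.rpow_def_of_pos hD0, ← Real.exp_add]
      apply Real.exp_le_exp.mpr
      nlinarith
    have h4 : 0 < Real.exp (q * l) := Real.exp_pos _
    nlinarith

/-- the abstract form of the exponential moment bound -/
theorem moment_abs (K₄ : ℝ) (hK₄0 : 0 < K₄)
    (hK₄ : ∀ (L : ℕ) [NeZero L] (x : Tor L) (ρ : ℝ), 0 ≤ ρ →
      ((Finset.univ.filter fun z : Tor L => tnorm (z - x) ≤ ρ).card : ℝ) ≤ K₄ * (1 + ρ) ^ 2)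
    (β p C₂ K V η c : ℝ) (hβ : 0 < β) (hp : 0 < p) (hp1 : p ≤ 1)
    (hC₂ : 0 < C₂) (hK : 0 < K) (hV : 0 ≤ V) (hη : 0 < η) (hc0 : 0 ≤ c) (hc1 : c ≤ 1) :
    ∃ C : ℝ, 0 < C ∧ ∀ (L : ℕ) [NeZero L] (Ω : Type) [MeasurableSpace Ω] (μ : Measure Ω)
      [IsProbabilityMeasure μ] (r : Tor L → Ω → ℝ), (∀ z, Measurable (r z)) →
      (∀ z ω, 0 ≤ r z ω) → (∀ z ω, r z ω ≤ 1) →
      (∀ x y, |∫ ω, (r x ω - c) * (r y ω - c) ∂μ| ≤ C₂ * (1 + tnorm (x - y)) ^ (-p)) →
      ∀ (x y : Tor L) (w : Tor L → ℝ), 16 ≤ tnorm (x - y) →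
      (∀ z, 0 ≤ w z) → (∀ z, w z ≤ K / (1 + dd x y z) ^ 2) →
      (∀ z, tnorm (x - y) ≤ dd x y z → w z = 0) →
      (∀ ρ : ℝ, 1 ≤ ρ → ∑ z ∈ Finset.univ.filter (fun z => dd x y z < ρ), w z ≤
        V * Real.log ρ + K) →
      ∫ ω, Real.exp (β * ∑ z, w z * r z ω) ∂μ ≤
        C * tnorm (x - y) ^ η *
          (tnorm (x - y) ^ (c * (β * V)) + tnorm (x - y) ^ (β * V - p)) := by
  set l : ℝ := Real.log 2 with hldef
  have hl : 0 < l := Real.log_pos (by norm_num)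
  set ε : ℝ := η * l / (2 * β) with hεdef
  have hε : 0 < ε := by positivity
  have hβε : β * ε = η * l / 2 := by
    rw [hεdef]
    field_simp
  set C₃ : ℝ := 96 * C₂ * K ^ 2 * K₄ ^ 2 with hC₃def
  have hC₃ : 0 < C₃ := by positivity
  set q : ℝ := β * (1 - c) * V - p with hqdef
  set Ca : ℝ := Real.exp (β * c * K + η * l) with hCadef
  have hCa : 0 < Ca := Real.exp_pos _
  set Cb : ℝ := (ε ^ 2)⁻¹ * C₃ * Real.exp (β * (1 - c) * (V * l + K)) * Ca *
    Real.exp (|q| * l) with hCbdef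
  have hCb : 0 < Cb := by positivity
  refine ⟨Ca + (2 + 2 / (η * l)) * Cb, by positivity, ?_⟩
  intro L _ Ω _ μ _ r hrm hr0 hr1 hcorr x y w hd hw0 hwK hwd hwV
  set D : ℝ := tnorm (x - y) with hDdef
  have hD0 : 0 < D := by linarith
  have hD1 : 1 ≤ D := by linarith
  obtain ⟨n₀, hn1, hn2⟩ := exists_nat_pow_near (x := 1 + D) (y := 2) (by linarith) (by norm_num)
  have hlogD : 0 ≤ Real.log D := Real.log_nonneg hD1
  have hn₀l : (n₀ : ℝ) * l ≤ l + Real.log D := by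
    have h1 : Real.log ((2 : ℝ) ^ n₀) ≤ Real.log (2 * D) :=
      Real.log_le_log (by positivity) (by linarith)
    rw [Real.log_pow, Real.log_mul (by norm_num) hD0.ne'] at h1
    exact h1
  -- the sums
  have hfull : ∀ g : Tor L → ℝ, (∀ z, w z = 0 → g z = 0) →
      ∑ k ∈ range (n₀ + 1), ∑ z ∈ ann x y k, g z = ∑ z, g z := by
    intro g hg
    rw [sum_ann_range]
    apply sum_filter_of_ne
    intro z _ hgz
    by_contra hcon
    apply hgz
    apply hg
    apply hwd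
    push Not at hcon
    linarith
  set W : ℕ → ℝ := fun k => ∑ z ∈ ann x y k, w z with hWdef
  have hW0 : ∀ k, 0 ≤ W k := fun k => sum_nonneg fun z _ => hw0 z
  have hWtot : ∑ k ∈ range (n₀ + 1), W k ≤ V * Real.log D + K := by
    rw [hWdef]
    simp only
    rw [hfull w fun z hz => hz]
    refine le_trans (le_of_eq ?_) (hwV D hD1)
    symm
    apply sum_filter_of_ne
    intro z _ hgz
    by_contra hcon
    exact hgz (hwd z (not_lt.mp hcon))
  have hWpart : ∀ j : ℕ, ∑ k ∈ range (j + 1), W k ≤ V * ((j + 1 : ℝ) * l) + K := by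
    intro j
    rw [hWdef]
    simp only
    rw [sum_ann_range]
    have h1 : (1 : ℝ) ≤ 2 ^ (j + 1) - 1 := by
      have : (1 : ℝ) ≤ 2 ^ j := one_le_pow₀ (by norm_num)
      rw [pow_succ]
      linarith
    have h2 := hwV (2 ^ (j + 1) - 1) h1
    have h3 : (univ.filter fun z => 1 + dd x y z < 2 ^ (j + 1)) =
        univ.filter fun z => dd x y z < 2 ^ (j + 1) - 1 := by
      ext z
      simp only [mem_filter, mem_univ, true_and]
      constructor
      · intro h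
        linarith
      · intro h
        linarith
    rw [h3]
    refine h2.trans ?_
    have h4 : Real.log ((2 : ℝ) ^ (j + 1) - 1) ≤ (j + 1 : ℝ) * l := by
      have h5 : Real.log ((2 : ℝ) ^ (j + 1) - 1) ≤ Real.log ((2 : ℝ) ^ (j + 1)) :=
        Real.log_le_log (by linarith) (by linarith)
      rw [Real.log_pow] at h5
      push_cast at h5
      exact h5
    have := mul_le_mul_of_nonneg_left h4 hV
    linarith
  -- pointwise
  have hpt : ∀ ω, Real.exp (β * ∑ z, w z * r z ω) ≤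
      Real.exp (β * (c * ∑ k ∈ range (n₀ + 1), W k + ((n₀ + 1 : ℕ) : ℝ) * ε)) +
      ∑ j ∈ range (n₀ + 1), (∑ z ∈ ann x y j, w z * (r z ω - c)) ^ 2 * (ε ^ 2)⁻¹ *
        Real.exp (β * ((1 - c) * ∑ k ∈ range (j + 1), W k + c * ∑ k ∈ range (n₀ + 1), W k
          + ((n₀ + 1 : ℕ) : ℝ) * ε)) := by
    intro ω
    have h1 := exp_pointwise (fun k => ∑ z ∈ ann x y k, w z * r z ω) W c ε β hε hβ.le
      (fun k => sum_le_sum fun z _ => by nlinarith [hw0 z, hr1 z ω]) (n₀ + 1)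
    rw [hfull (fun z => w z * r z ω) fun z hz => by rw [hz, zero_mul]] at h1
    have h2 : ∀ j, (∑ z ∈ ann x y j, w z * r z ω) - c * W j =
        ∑ z ∈ ann x y j, w z * (r z ω - c) := by
      intro j
      rw [hWdef]
      simp only
      rw [mul_sum, ← sum_sub_distrib]
      refine sum_congr rfl fun z _ => ?_
      ring
    simp only [h2] at h1
    exact h1
  -- integrate
  have hfm : ∀ z, Measurable (fun ω => r z ω - c) := fun z => (hrm z).sub_const c
  have hf1 : ∀ z ω, |r z ω - c| ≤ 1 := by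
    intro z ω
    rw [abs_le]
    constructor
    · linarith [hr0 z ω]
    · linarith [hr1 z ω]
  have hYb : ∀ (j : ℕ) ω, |∑ z ∈ ann x y j, w z * (r z ω - c)| ≤ W j := by
    intro j ω
    refine (abs_sum_le_sum_abs _ _).trans ?_
    apply sum_le_sum
    intro z _
    rw [abs_mul, abs_of_nonneg (hw0 z)]
    nlinarith [hw0 z, hf1 z ω]
  have hYm : ∀ j : ℕ, Measurable (fun ω => (∑ z ∈ ann x y j, w z * (r z ω - c)) ^ 2) := by
    intro j
    apply Measurable.pow_const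
    apply Finset.measurable_sum
    intro z _
    exact (hfm z).const_mul _
  have hYint : ∀ j : ℕ, Integrable (fun ω => (∑ z ∈ ann x y j, w z * (r z ω - c)) ^ 2) μ := by
    intro j
    refine int_bdd μ _ (hYm j) (W j ^ 2) fun ω => ?_
    rw [abs_pow]
    exact pow_le_pow_left₀ (abs_nonneg _) (hYb j ω) 2
  have hLint : Integrable (fun ω => Real.exp (β * ∑ z, w z * r z ω)) μ := by
    refine int_bdd μ _ ?_ (Real.exp (β * ∑ z, w z)) fun ω => ?_
    · apply Real.measurable_exp.comp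
      apply Measurable.const_mul
      apply Finset.measurable_sum
      intro z _
      exact (hrm z).const_mul _
    · rw [abs_of_pos (Real.exp_pos _)]
      apply Real.exp_le_exp.mpr
      apply mul_le_mul_of_nonneg_left _ hβ.le
      exact sum_le_sum fun z _ => by nlinarith [hw0 z, hr1 z ω]
  have hI : ∫ ω, Real.exp (β * ∑ z, w z * r z ω) ∂μ ≤
      Real.exp (β * (c * ∑ k ∈ range (n₀ + 1), W k + ((n₀ + 1 : ℕ) : ℝ) * ε)) +
      ∑ j ∈ range (n₀ + 1), (∫ ω, (∑ z ∈ ann x y j, w z * (r z ω - c)) ^ 2 ∂μ) * (ε ^ 2)⁻¹ *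
        Real.exp (β * ((1 - c) * ∑ k ∈ range (j + 1), W k + c * ∑ k ∈ range (n₀ + 1), W k
          + ((n₀ + 1 : ℕ) : ℝ) * ε)) := by
    have hint1 : Integrable (fun ω => ∑ j ∈ range (n₀ + 1),
        (∑ z ∈ ann x y j, w z * (r z ω - c)) ^ 2 * (ε ^ 2)⁻¹ *
        Real.exp (β * ((1 - c) * ∑ k ∈ range (j + 1), W k + c * ∑ k ∈ range (n₀ + 1), W k
          + ((n₀ + 1 : ℕ) : ℝ) * ε))) μ :=
      integrable_finsetSum _ fun j _ => ((hYint j).mul_const _).mul_const _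
    refine (integral_mono hLint ((integrable_const _).add hint1) hpt).trans (le_of_eq ?_)
    rw [integral_add' (integrable_const _) hint1, integral_const, probReal_univ, one_smul,
      integral_finsetSum _ fun j _ => ((hYint j).mul_const _).mul_const _]
    congr 1
    refine sum_congr rfl fun j _ => ?_
    rw [integral_mul_const, integral_mul_const]
  refine hI.trans ?_
  -- bounds of the two factors
  have hJ : β * (((n₀ + 1 : ℕ) : ℝ) * ε) ≤ η * l + η / 2 * Real.log D := by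
    have h1 : β * (((n₀ + 1 : ℕ) : ℝ) * ε) = ((n₀ : ℝ) * l + l) * (η / 2) := by
      calc β * (((n₀ + 1 : ℕ) : ℝ) * ε) = ((n₀ + 1 : ℕ) : ℝ) * (β * ε) := by ring
        _ = _ := by
          rw [hβε]
          push_cast
          ring
    rw [h1]
    have h2 : ((n₀ : ℝ) * l) * (η / 2) ≤ (l + Real.log D) * (η / 2) :=
      mul_le_mul_of_nonneg_right hn₀l (by positivity)
    linarith
  have hE0 : Real.exp (β * (c * ∑ k ∈ range (n₀ + 1), W k + ((n₀ + 1 : ℕ) : ℝ) * ε)) ≤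
      Ca * (D ^ (c * (β * V)) * D ^ (η / 2)) := by
    rw [hCadef, Real.rpow_def_of_pos hD0, Real.rpow_def_of_pos hD0, ← Real.exp_add,
      ← Real.exp_add]
    apply Real.exp_le_exp.mpr
    have h1 : β * (c * ∑ k ∈ range (n₀ + 1), W k) ≤ β * (c * (V * Real.log D + K)) := by
      apply mul_le_mul_of_nonneg_left _ hβ.le
      exact mul_le_mul_of_nonneg_left hWtot hc0
    linarith
  have hEj : ∀ j ∈ range (n₀ + 1),
      (∫ ω, (∑ z ∈ ann x y j, w z * (r z ω - c)) ^ 2 ∂μ) * (ε ^ 2)⁻¹ *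
        Real.exp (β * ((1 - c) * ∑ k ∈ range (j + 1), W k + c * ∑ k ∈ range (n₀ + 1), W k
          + ((n₀ + 1 : ℕ) : ℝ) * ε)) ≤
      Cb * ((D ^ (c * (β * V)) * D ^ (η / 2)) * (1 + D ^ q)) := by
    intro j hj
    rw [mem_range] at hj
    have hv := var_bound K₄ hK₄0 hK₄ p C₂ K hp hp1 hC₂ hK μ (fun z ω => r z ω - c) hfm hf1
      hcorr x y w hw0 hwK j
    have h1 : Real.exp (β * ((1 - c) * ∑ k ∈ range (j + 1), W k + c * ∑ k ∈ range (n₀ + 1), W k
          + ((n₀ + 1 : ℕ) : ℝ) * ε)) ≤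
        Real.exp (β * (1 - c) * (V * l + K)) * Real.exp (j * l * (β * (1 - c) * V)) *
          (Ca * (D ^ (c * (β * V)) * D ^ (η / 2))) := by
      have h2 : β * ((1 - c) * ∑ k ∈ range (j + 1), W k + c * ∑ k ∈ range (n₀ + 1), W k
          + ((n₀ + 1 : ℕ) : ℝ) * ε) = β * ((1 - c) * ∑ k ∈ range (j + 1), W k) +
          β * (c * ∑ k ∈ range (n₀ + 1), W k + ((n₀ + 1 : ℕ) : ℝ) * ε) := by ring
      rw [h2, Real.exp_add]
      apply mul_le_mul _ hE0 (Real.exp_pos _).le (by positivity)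
      rw [← Real.exp_add]
      apply Real.exp_le_exp.mpr
      have h3 : β * ((1 - c) * ∑ k ∈ range (j + 1), W k) ≤
          β * ((1 - c) * (V * ((j + 1 : ℝ) * l) + K)) := by
        apply mul_le_mul_of_nonneg_left _ hβ.le
        exact mul_le_mul_of_nonneg_left (hWpart j) (by linarith)
      refine h3.trans (le_of_eq ?_)
      ring
    have h4 : ((2 : ℝ) ^ (-p)) ^ j = Real.exp (j * l * (-p)) := by
      rw [Real.rpow_def_of_pos (by norm_num), ← Real.exp_nat_mul]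
      congr 1
      ring
    have h5 := geom_factor q l D n₀ j hl hD1 (by omega) hn₀l
    have h6 : Real.exp (j * l * (-p)) * Real.exp (j * l * (β * (1 - c) * V)) =
        Real.exp (j * l * q) := by
      rw [← Real.exp_add, hqdef]
      congr 1
      ring
    calc (∫ ω, (∑ z ∈ ann x y j, w z * (r z ω - c)) ^ 2 ∂μ) * (ε ^ 2)⁻¹ *
        Real.exp (β * ((1 - c) * ∑ k ∈ range (j + 1), W k + c * ∑ k ∈ range (n₀ + 1), W k
          + ((n₀ + 1 : ℕ) : ℝ) * ε))
        ≤ (C₃ * ((2 : ℝ) ^ (-p)) ^ j) * (ε ^ 2)⁻¹ *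
          (Real.exp (β * (1 - c) * (V * l + K)) * Real.exp (j * l * (β * (1 - c) * V)) *
          (Ca * (D ^ (c * (β * V)) * D ^ (η / 2)))) := by
          apply mul_le_mul _ h1 (Real.exp_pos _).le (by positivity)
          exact mul_le_mul_of_nonneg_right hv (by positivity)
      _ = ((ε ^ 2)⁻¹ * C₃ * Real.exp (β * (1 - c) * (V * l + K)) * Ca) *
          (Real.exp (j * l * (-p)) * Real.exp (j * l * (β * (1 - c) * V))) *
          (D ^ (c * (β * V)) * D ^ (η / 2)) := by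
          rw [h4]
          ring
      _ = ((ε ^ 2)⁻¹ * C₃ * Real.exp (β * (1 - c) * (V * l + K)) * Ca) *
          Real.exp (j * l * q) * (D ^ (c * (β * V)) * D ^ (η / 2)) := by
          rw [h6]
      _ ≤ ((ε ^ 2)⁻¹ * C₃ * Real.exp (β * (1 - c) * (V * l + K)) * Ca) *
          (Real.exp (|q| * l) * (1 + D ^ q)) * (D ^ (c * (β * V)) * D ^ (η / 2)) := by
          apply mul_le_mul_of_nonneg_right _ (by positivity)
          exact mul_le_mul_of_nonneg_left h5 (by positivity)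
      _ = Cb * ((D ^ (c * (β * V)) * D ^ (η / 2)) * (1 + D ^ q)) := by
          rw [hCbdef]
          ring
  have hsum := sum_le_sum hEj
  rw [sum_const, card_range, nsmul_eq_mul] at hsum
  have hDη : 1 ≤ D ^ (η / 2) := Real.one_le_rpow hD1 (by positivity)
  have hJ2 : (((n₀ + 1 : ℕ) : ℝ)) ≤ (2 + 2 / (η * l)) * D ^ (η / 2) := by
    have h1 : Real.log D ≤ D ^ (η / 2) / (η / 2) := Real.log_le_rpow_div hD0.le (by positivity)
    have h2 : (n₀ : ℝ) ≤ 1 + Real.log D / l := by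
      rw [← sub_nonneg]
      have h3 : 1 + Real.log D / l - n₀ = (l + Real.log D - n₀ * l) / l := by
        field_simp
      rw [h3]
      exact div_nonneg (by linarith) hl.le
    have h4 : Real.log D / l ≤ 2 / (η * l) * D ^ (η / 2) := by
      rw [div_le_iff₀ hl]
      refine h1.trans (le_of_eq ?_)
      field_simp
    push_cast
    have h5 : (n₀ : ℝ) + 1 ≤ 2 + 2 / (η * l) * D ^ (η / 2) := by linarith
    linarith
  have hDD : D ^ (η / 2) * D ^ (η / 2) = D ^ η := by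
    rw [← Real.rpow_add hD0]
    congr 1
    ring
  have hqq : D ^ (c * (β * V)) * D ^ q = D ^ (β * V - p) := by
    rw [← Real.rpow_add hD0]
    congr 1
    rw [hqdef]
    ring
  have hA : 0 < D ^ (c * (β * V)) := Real.rpow_pos_of_pos hD0 _
  have hB : 0 < D ^ q := Real.rpow_pos_of_pos hD0 _
  have hE : 0 < D ^ (η / 2) := Real.rpow_pos_of_pos hD0 _
  calc Real.exp (β * (c * ∑ k ∈ range (n₀ + 1), W k + ((n₀ + 1 : ℕ) : ℝ) * ε)) +
      ∑ j ∈ range (n₀ + 1), (∫ ω, (∑ z ∈ ann x y j, w z * (r z ω - c)) ^ 2 ∂μ) * (ε ^ 2)⁻¹ *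
        Real.exp (β * ((1 - c) * ∑ k ∈ range (j + 1), W k + c * ∑ k ∈ range (n₀ + 1), W k
          + ((n₀ + 1 : ℕ) : ℝ) * ε))
      ≤ Ca * (D ^ (c * (β * V)) * D ^ (η / 2)) +
        ((n₀ + 1 : ℕ) : ℝ) * (Cb * ((D ^ (c * (β * V)) * D ^ (η / 2)) * (1 + D ^ q))) :=
        add_le_add hE0 hsum
    _ ≤ Ca * ((D ^ (c * (β * V)) * (D ^ (η / 2) * D ^ (η / 2))) * (1 + D ^ q)) +
        ((2 + 2 / (η * l)) * D ^ (η / 2)) *
          (Cb * ((D ^ (c * (β * V)) * D ^ (η / 2)) * (1 + D ^ q))) := by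
        apply add_le_add
        · apply mul_le_mul_of_nonneg_left _ hCa.le
          have h1 : D ^ (c * (β * V)) * D ^ (η / 2) * 1 ≤
              D ^ (c * (β * V)) * D ^ (η / 2) * (D ^ (η / 2) * (1 + D ^ q)) := by
            apply mul_le_mul_of_nonneg_left _ (by positivity)
            nlinarith
          calc D ^ (c * (β * V)) * D ^ (η / 2) = D ^ (c * (β * V)) * D ^ (η / 2) * 1 := by ring
            _ ≤ _ := h1
            _ = _ := by ring
        · exact mul_le_mul_of_nonneg_right hJ2 (by positivity)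
    _ = (Ca + (2 + 2 / (η * l)) * Cb) * (D ^ (η / 2) * D ^ (η / 2)) *
        (D ^ (c * (β * V)) + D ^ (c * (β * V)) * D ^ q) := by ring
    _ = (Ca + (2 + 2 / (η * l)) * Cb) * D ^ η *
        (D ^ (c * (β * V)) + D ^ (β * V - p)) := by
        rw [hDD, hqq]

/-! ### The in-plane length of a spin -/

theorem norm_zeta_sq {n : ℕ} (s : Sph (n + 2)) :
    ‖zeta s‖ ^ 2 = (s : EuclideanSpace ℝ (Fin (n + 2))) 0 ^ 2 +
      (s : EuclideanSpace ℝ (Fin (n + 2))) 1 ^ 2 := by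
  rw [Complex.sq_norm, Complex.normSq_apply]
  simp only [zeta]
  ring

theorem norm_zeta_sq_le {n : ℕ} (s : Sph (n + 2)) : ‖zeta s‖ ^ 2 ≤ 1 := by
  rw [norm_zeta_sq]
  have h1 : ‖(s : EuclideanSpace ℝ (Fin (n + 2)))‖ = 1 := by
    have := s.2
    rw [mem_sphere_zero_iff_norm] at this
    exact this
  have h2 := EuclideanSpace.norm_sq_eq (s : EuclideanSpace ℝ (Fin (n + 2)))
  rw [h1, Fin.sum_univ_succ, Fin.sum_univ_succ] at h2
  simp only [Real.norm_eq_abs, sq_abs] at h2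
  have h3 : 0 ≤ ∑ i : Fin n, (s : EuclideanSpace ℝ (Fin (n + 2))) i.succ.succ ^ 2 :=
    sum_nonneg fun i _ => sq_nonneg _
  have h4 : (Fin.succ 0 : Fin (n + 2)) = 1 := rfl
  rw [h4] at h2
  linarith

theorem measurable_norm_zeta_sq {n L : ℕ} [NeZero L] (z : Tor L) :
    Measurable fun S : Conf (n + 2) L => ‖zeta (S z)‖ ^ 2 := by
  simp only [norm_zeta_sq]
  have h : ∀ i : Fin (n + 2),
      Continuous fun S : Conf (n + 2) L => (S z : EuclideanSpace ℝ (Fin (n + 2))) i := by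
    intro i
    fun_prop
  exact (((h 0).pow 2).add ((h 1).pow 2)).measurable

end Pool.Agent.H5R2.ON.Cheb

namespace Pool.Agent.H5R2.ON

open MeasureTheory Metric

/-- Exponential moment bound from the decay of the spin-2 correlations. `V` is the constant in
front of the logarithm in the growth of the weights. -/
theorem exp_moment (n : ℕ) (β p C₂ K V η : ℝ) (hβ : 0 < β) (hp : 0 < p) (hp1 : p ≤ 1)
    (hC₂ : 0 < C₂) (hK : 0 < K) (hV : 0 ≤ V) (hη : 0 < η)
    (hcorr : ∀ (L : ℕ) [NeZero L] (x y : Tor L),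
      |∫ S, (‖zeta (S x)‖ ^ 2 - 2 / (n + 2 : ℝ)) * (‖zeta (S y)‖ ^ 2 - 2 / (n + 2 : ℝ))
        ∂(gm (n + 2) L β)| ≤ C₂ * (1 + tnorm (x - y)) ^ (-p)) :
    ∃ C : ℝ, 0 < C ∧ ∀ (L : ℕ) [NeZero L] (x y : Tor L) (w : Tor L → ℝ), 16 ≤ tnorm (x - y) →
      (∀ z, 0 ≤ w z) → (∀ z, w z ≤ K / (1 + dd x y z) ^ 2) →
      (∀ z, tnorm (x - y) ≤ dd x y z → w z = 0) →
      (∀ ρ : ℝ, 1 ≤ ρ → ∑ z ∈ Finset.univ.filter (fun z => dd x y z < ρ), w z ≤
        V * Real.log ρ + K) →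
      ∫ S, Real.exp (β * ∑ z, w z * ‖zeta (S z)‖ ^ 2) ∂(gm (n + 2) L β) ≤
        C * tnorm (x - y) ^ η *
          (tnorm (x - y) ^ (2 / (n + 2 : ℝ) * (β * V)) + tnorm (x - y) ^ (β * V - p)) := by
  obtain ⟨K₄, hK₄0, hK₄⟩ := card_ball_le
  have hn : (0 : ℝ) < n + 2 := by positivity
  have hc1 : 2 / (n + 2 : ℝ) ≤ 1 := by
    rw [div_le_one hn]
    have : (0 : ℝ) ≤ n := Nat.cast_nonneg n
    linarith
  obtain ⟨C, hC, hmain⟩ := Cheb.moment_abs K₄ hK₄0 hK₄ β p C₂ K V η (2 / (n + 2 : ℝ)) hβ hp hp1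
    hC₂ hK hV hη (by positivity) hc1
  refine ⟨C, hC, ?_⟩
  intro L _ x y w hd hw0 hwK hwd hwV
  have : IsProbabilityMeasure (gm (n + 2) L β) :=
    gm_isProbabilityMeasure (n + 2) L (by omega) β
  exact hmain L (Conf (n + 2) L) (gm (n + 2) L β) (fun z S => ‖zeta (S z)‖ ^ 2)
    Cheb.measurable_norm_zeta_sq (fun z S => by positivity) (fun z S => Cheb.norm_zeta_sq_le (S z))
    (hcorr L) x y w hd hw0 hwK hwd hwV

end Pool.Agent.H5R2.ON
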