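import Mathlib
import Pool.Agent.H5R2.ON.Defs
import Pool.Agent.H5R2.ON.Dist
import Pool.Agent.H5R2.ON.Cheb

/-!
# The logarithmic profile
-/

set_option autoImplicit false

noncomputable section

namespace Pool.Agent.H5R2.ON

open Finset

namespace Prof

/-- the logarithmic profile -/
def psi {L : ℕ} (z : Tor L) (R : ℝ) (u : Tor L) : ℝ :=
  max (1 - Real.log (1 + tnorm (u - z)) / Real.log (1 + R)) 0

theorem log_lip (s t : ℝ) (hs : 0 ≤ s) (ht : 0 ≤ t) (hst : |s - t| ≤ 1) :
    |Real.log (1 + s) - Real.log (1 + t)| ≤ 2 / (1 + t) := by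
  have h1 : ∀ a b : ℝ, 0 ≤ a → 0 ≤ b →
      Real.log (1 + a) - Real.log (1 + b) ≤ (a - b) / (1 + b) := by
    intro a b ha hb
    have hpos : 0 < (1 + a) / (1 + b) := by positivity
    rw [← Real.log_div (by linarith) (by linarith)]
    have := Real.log_le_sub_one_of_pos hpos
    refine this.trans (le_of_eq ?_)
    field_simp
    ring
  rw [abs_le] at hst ⊢
  constructor
  · have h2 := h1 t s ht hs
    have h3 : (t - s) / (1 + s) ≤ 2 / (1 + t) := by
      rw [div_le_div_iff₀ (by linarith) (by linarith)]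
      nlinarith
    linarith
  · have h2 := h1 s t hs ht
    have h3 : (s - t) / (1 + t) ≤ 2 / (1 + t) := by
      rw [div_le_div_iff₀ (by linarith) (by linarith)]
      nlinarith
    linarith

theorem psi_zero_of_lt {L : ℕ} (z : Tor L) (R : ℝ) (hR : 2 ≤ R) (u : Tor L)
    (hu : R < tnorm (u - z)) : psi z R u = 0 := by
  unfold psi
  have hl : 0 < Real.log (1 + R) := Real.log_pos (by linarith)
  apply max_eq_right
  have h1 : Real.log (1 + R) ≤ Real.log (1 + tnorm (u - z)) :=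
    Real.log_le_log (by linarith) (by linarith)
  have h2 : 1 ≤ Real.log (1 + tnorm (u - z)) / Real.log (1 + R) := by
    rw [le_div_iff₀ hl]
    linarith
  linarith

theorem psi_diff {L : ℕ} [NeZero L] (z : Tor L) (R : ℝ) (hR : 2 ≤ R) (u e : Tor L)
    (he : IsUnitVec e) :
    (psi z R u - psi z R (u + e)) ^ 2 ≤
      if 1 + tnorm (u - z) < R + 3 then
        4 / (1 + tnorm (u - z)) ^ 2 / Real.log (1 + R) ^ 2 else 0 := by
  have hl : 0 < Real.log (1 + R) := Real.log_pos (by linarith)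
  have ht := tnorm_nonneg (u - z)
  have hs := tnorm_nonneg (u + e - z)
  have hst : |tnorm (u + e - z) - tnorm (u - z)| ≤ 1 := by
    have := abs_tnorm_add_unit he (u - z)
    rw [show u - z + e = u + e - z by abel] at this
    exact this
  split_ifs with hif
  · have h1 : |psi z R u - psi z R (u + e)| ≤ 2 / (1 + tnorm (u - z)) / Real.log (1 + R) := by
      unfold psi
      refine (abs_max_sub_max_le_abs _ _ _).trans ?_
      have h2 : (1 - Real.log (1 + tnorm (u - z)) / Real.log (1 + R)) -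
          (1 - Real.log (1 + tnorm (u + e - z)) / Real.log (1 + R)) =
          (Real.log (1 + tnorm (u + e - z)) - Real.log (1 + tnorm (u - z))) /
            Real.log (1 + R) := by
        ring
      rw [h2, abs_div, abs_of_pos hl]
      exact div_le_div_of_nonneg_right (log_lip _ _ hs ht hst) hl.le
    have h3 := pow_le_pow_left₀ (abs_nonneg _) h1 2
    rw [sq_abs] at h3
    refine h3.trans (le_of_eq ?_)
    field_simp
    norm_num
  · push Not at hif
    rw [abs_le] at hst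
    rw [psi_zero_of_lt z R hR u (by linarith), psi_zero_of_lt z R hR (u + e) (by linarith [hst.1])]
    norm_num

theorem sum_inv_sq (K₄ : ℝ) (hK₄0 : 0 < K₄)
    (hK₄ : ∀ (L : ℕ) [NeZero L] (x : Tor L) (ρ : ℝ), 0 ≤ ρ →
      ((Finset.univ.filter fun z : Tor L => tnorm (z - x) ≤ ρ).card : ℝ) ≤ K₄ * (1 + ρ) ^ 2)
    {L : ℕ} [NeZero L] (z : Tor L) (J : ℕ) :
    ∑ u ∈ univ.filter (fun u : Tor L => 1 + tnorm (u - z) < 2 ^ J), 1 / (1 + tnorm (u - z)) ^ 2
      ≤ 4 * K₄ * J := by
  induction J with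
  | zero =>
    have : (univ.filter (fun z' : Tor L => 1 + tnorm (z' - z) < 2 ^ 0)) = ∅ := by
      apply filter_eq_empty_iff.mpr
      intro z' _
      have := tnorm_nonneg (z' - z)
      simp only [pow_zero, not_lt]
      linarith
    rw [this]
    simp
  | succ k ih =>
    have hsplit : univ.filter (fun z' : Tor L => 1 + tnorm (z' - z) < 2 ^ (k + 1)) =
        univ.filter (fun z' : Tor L => 1 + tnorm (z' - z) < 2 ^ k) ∪
        univ.filter (fun z' : Tor L => 1 + tnorm (z' - z) < 2 ^ (k + 1) ∧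
          2 ^ k ≤ 1 + tnorm (z' - z)) := by
      ext z'
      simp only [mem_filter, mem_univ, true_and, mem_union]
      constructor
      · intro h
        by_cases h' : 1 + tnorm (z' - z) < 2 ^ k
        · exact Or.inl h'
        · exact Or.inr ⟨h, not_lt.mp h'⟩
      · rintro (h | h)
        · exact h.trans_le (pow_le_pow_right₀ (by norm_num) (by omega))
        · exact h.1
    rw [hsplit]
    have h1 : ∑ z' ∈ univ.filter (fun z' : Tor L => 1 + tnorm (z' - z) < 2 ^ k) ∪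
        univ.filter (fun z' : Tor L => 1 + tnorm (z' - z) < 2 ^ (k + 1) ∧
          2 ^ k ≤ 1 + tnorm (z' - z)), 1 / (1 + tnorm (z' - z)) ^ 2 ≤
        ∑ z' ∈ univ.filter (fun z' : Tor L => 1 + tnorm (z' - z) < 2 ^ k),
          1 / (1 + tnorm (z' - z)) ^ 2 +
        ∑ z' ∈ univ.filter (fun z' : Tor L => 1 + tnorm (z' - z) < 2 ^ (k + 1) ∧
          2 ^ k ≤ 1 + tnorm (z' - z)), 1 / (1 + tnorm (z' - z)) ^ 2 := by
      rw [← sum_union_inter]
      have : 0 ≤ ∑ z' ∈ univ.filter (fun z' : Tor L => 1 + tnorm (z' - z) < 2 ^ k) ∩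
        univ.filter (fun z' : Tor L => 1 + tnorm (z' - z) < 2 ^ (k + 1) ∧
          2 ^ k ≤ 1 + tnorm (z' - z)), 1 / (1 + tnorm (z' - z)) ^ 2 := by
        apply sum_nonneg
        intro z' _
        have := tnorm_nonneg (z' - z)
        positivity
      linarith
    have h2 : ∑ z' ∈ univ.filter (fun z' : Tor L => 1 + tnorm (z' - z) < 2 ^ (k + 1) ∧
          2 ^ k ≤ 1 + tnorm (z' - z)), 1 / (1 + tnorm (z' - z)) ^ 2 ≤
          (K₄ * 4 ^ (k + 1)) * (1 / 4 ^ k) := by
      have h3 : ∑ z' ∈ univ.filter (fun z' : Tor L => 1 + tnorm (z' - z) < 2 ^ (k + 1) ∧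
          2 ^ k ≤ 1 + tnorm (z' - z)), 1 / (1 + tnorm (z' - z)) ^ 2 ≤
          ∑ z' ∈ univ.filter (fun z' : Tor L => 1 + tnorm (z' - z) < 2 ^ (k + 1) ∧
          2 ^ k ≤ 1 + tnorm (z' - z)), (1 / 4 ^ k : ℝ) := by
        apply sum_le_sum
        intro z' hz'
        rw [mem_filter] at hz'
        have h5 : ((2 : ℝ) ^ k) ^ 2 ≤ (1 + tnorm (z' - z)) ^ 2 :=
          pow_le_pow_left₀ (by positivity) hz'.2.2 2
        rw [← pow_mul, mul_comm k 2, pow_mul] at h5
        norm_num at h5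
        exact one_div_le_one_div_of_le (by positivity) h5
      rw [sum_const, nsmul_eq_mul] at h3
      have h4 : ((univ.filter (fun z' : Tor L => 1 + tnorm (z' - z) < 2 ^ (k + 1) ∧
          2 ^ k ≤ 1 + tnorm (z' - z))).card : ℝ) ≤ K₄ * 4 ^ (k + 1) := by
        refine le_trans ?_ (Cheb.card_near K₄ hK₄ z (k + 1))
        apply Nat.cast_le.mpr
        apply card_le_card
        intro z' hz'
        rw [mem_filter] at hz' ⊢
        exact ⟨hz'.1, hz'.2.1⟩
      exact h3.trans (mul_le_mul_of_nonneg_right h4 (by positivity))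
    have h6 : (K₄ * 4 ^ (k + 1)) * (1 / 4 ^ k) = 4 * K₄ := by
      rw [pow_succ]
      field_simp
    push_cast
    linarith

theorem sum_diff (K₄ : ℝ) (hK₄0 : 0 < K₄)
    (hK₄ : ∀ (L : ℕ) [NeZero L] (x : Tor L) (ρ : ℝ), 0 ≤ ρ →
      ((Finset.univ.filter fun z : Tor L => tnorm (z - x) ≤ ρ).card : ℝ) ≤ K₄ * (1 + ρ) ^ 2)
    {L : ℕ} [NeZero L] (z : Tor L) (R : ℝ) (hR : 2 ≤ R) (e : Tor L) (he : IsUnitVec e) :
    ∑ u, (psi z R u - psi z R (u + e)) ^ 2 ≤
      16 * K₄ * (3 / Real.log 2) / Real.log R := by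
  have hl : 0 < Real.log (1 + R) := Real.log_pos (by linarith)
  have hlR : 0 < Real.log R := Real.log_pos (by linarith)
  have hl2 : 0 < Real.log 2 := Real.log_pos (by norm_num)
  obtain ⟨n₀, hn1, hn2⟩ := exists_nat_pow_near (x := R + 3) (y := 2) (by linarith) (by norm_num)
  have h1 : ∑ u, (psi z R u - psi z R (u + e)) ^ 2 ≤
      ∑ u, if 1 + tnorm (u - z) < R + 3 then
        4 / (1 + tnorm (u - z)) ^ 2 / Real.log (1 + R) ^ 2 else 0 :=
    sum_le_sum fun u _ => psi_diff z R hR u e he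
  rw [← sum_filter] at h1
  have h2 : ∑ u ∈ univ.filter (fun u => 1 + tnorm (u - z) < R + 3),
        4 / (1 + tnorm (u - z)) ^ 2 / Real.log (1 + R) ^ 2 ≤
      ∑ u ∈ univ.filter (fun u : Tor L => 1 + tnorm (u - z) < 2 ^ (n₀ + 1)),
        4 / (1 + tnorm (u - z)) ^ 2 / Real.log (1 + R) ^ 2 := by
    apply sum_le_sum_of_subset_of_nonneg
    · intro u hu
      rw [mem_filter] at hu ⊢
      exact ⟨hu.1, hu.2.trans hn2⟩
    · intro u _ _
      have := tnorm_nonneg (u - z)
      positivity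
  have h3 : ∑ u ∈ univ.filter (fun u : Tor L => 1 + tnorm (u - z) < 2 ^ (n₀ + 1)),
        4 / (1 + tnorm (u - z)) ^ 2 / Real.log (1 + R) ^ 2 =
      4 / Real.log (1 + R) ^ 2 *
        ∑ u ∈ univ.filter (fun u : Tor L => 1 + tnorm (u - z) < 2 ^ (n₀ + 1)),
        1 / (1 + tnorm (u - z)) ^ 2 := by
    rw [mul_sum]
    refine sum_congr rfl fun u _ => ?_
    ring
  have h4 := sum_inv_sq K₄ hK₄0 hK₄ z (n₀ + 1)
  have h5 : (n₀ : ℝ) * Real.log 2 ≤ Real.log (R + 3) := by
    rw [← Real.log_pow]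
    exact Real.log_le_log (by positivity) hn1
  have h6 : Real.log (R + 3) ≤ Real.log (1 + R) + Real.log 2 := by
    rw [← Real.log_mul (by linarith) (by norm_num)]
    exact Real.log_le_log (by linarith) (by linarith)
  have h7 : Real.log 2 ≤ Real.log (1 + R) := Real.log_le_log (by norm_num) (by linarith)
  have h8 : ((n₀ + 1 : ℕ) : ℝ) ≤ 3 / Real.log 2 * Real.log (1 + R) := by
    rw [div_mul_eq_mul_div, le_div_iff₀ hl2]
    push_cast
    linarith
  have h9 : Real.log R ≤ Real.log (1 + R) := Real.log_le_log (by linarith) (by linarith)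
  calc ∑ u, (psi z R u - psi z R (u + e)) ^ 2
      ≤ 4 / Real.log (1 + R) ^ 2 * (4 * K₄ * ((n₀ + 1 : ℕ) : ℝ)) := by
        refine h1.trans (h2.trans ?_)
        rw [h3]
        exact mul_le_mul_of_nonneg_left h4 (by positivity)
    _ ≤ 4 / Real.log (1 + R) ^ 2 * (4 * K₄ * (3 / Real.log 2 * Real.log (1 + R))) := by
        apply mul_le_mul_of_nonneg_left _ (by positivity)
        exact mul_le_mul_of_nonneg_left h8 (by positivity)
    _ = 16 * K₄ * (3 / Real.log 2) / Real.log (1 + R) := by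
        field_simp
        norm_num
    _ ≤ _ := div_le_div_of_nonneg_left (by positivity) hlR h9

end Prof

/-- The logarithmic profile: a function equal to `1` at `z`, supported in the ball of radius `R`,
with Dirichlet energy of order `1 / log R`. -/
theorem profile : ∃ C : ℝ, 0 < C ∧ ∀ (L : ℕ) [NeZero L] (z : Tor L) (R : ℝ), 2 ≤ R →
    ∃ ψ : Tor L → ℝ, ψ z = 1 ∧ (∀ u, 0 ≤ ψ u ∧ ψ u ≤ 1) ∧
      (∀ u, R < tnorm (u - z) → ψ u = 0) ∧
      ∑ u, ((ψ u - ψ (u + (1, 0))) ^ 2 + (ψ u - ψ (u + (0, 1))) ^ 2) ≤ C / Real.log R := by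
  obtain ⟨K₄, hK₄0, hK₄⟩ := card_ball_le
  have hl2 : 0 < Real.log 2 := Real.log_pos (by norm_num)
  refine ⟨2 * (16 * K₄ * (3 / Real.log 2)), by positivity, ?_⟩
  intro L _ z R hR
  have hl : 0 < Real.log (1 + R) := Real.log_pos (by linarith)
  refine ⟨Prof.psi z R, ?_, fun u => ⟨le_max_right _ _, ?_⟩, Prof.psi_zero_of_lt z R hR, ?_⟩
  · unfold Prof.psi
    rw [sub_self, tnorm_zero, add_zero, Real.log_one, zero_div, sub_zero]
    exact max_eq_left zero_le_one
  · apply max_le _ zero_le_one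
    have h1 : 0 ≤ Real.log (1 + tnorm (u - z)) :=
      Real.log_nonneg (by linarith [tnorm_nonneg (u - z)])
    have h2 : 0 ≤ Real.log (1 + tnorm (u - z)) / Real.log (1 + R) := div_nonneg h1 hl.le
    linarith
  · rw [sum_add_distrib]
    have h1 := Prof.sum_diff K₄ hK₄0 hK₄ z R hR (1, 0) (Or.inl rfl)
    have h2 := Prof.sum_diff K₄ hK₄0 hK₄ z R hR (0, 1) (Or.inr (Or.inr (Or.inl rfl)))
    have h3 : 2 * (16 * K₄ * (3 / Real.log 2)) / Real.log R =
        16 * K₄ * (3 / Real.log 2) / Real.log R + 16 * K₄ * (3 / Real.log 2) / Real.log R := by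
      ring
    linarith

end Pool.Agent.H5R2.ON
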