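import Mathlib
import Pool.Agent.H5R2.ON.Defs

/-!
# Stubs (blueprint) : every statement below is one task
-/

set_option autoImplicit false

noncomputable section

namespace Pool.Agent.H5R2.ON

open MeasureTheory Metric ComplexConjugate

/-! ## Task 1 : `Basic.lean` -/

theorem unif_isProbabilityMeasure (N : ℕ) (hN : N ≠ 0) : IsProbabilityMeasure (unif N) := by
  sorry

/-- invariance of the uniform measure under linear isometries -/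
theorem map_unif (N : ℕ)
    (f : EuclideanSpace ℝ (Fin N) ≃ₗᵢ[ℝ] EuclideanSpace ℝ (Fin N))
    (g : Sph N ≃ₜ Sph N) (hg : ∀ s, (g s : EuclideanSpace ℝ (Fin N)) = f s) :
    (unif N).map g = unif N := by
  sorry

theorem gm_isProbabilityMeasure (N L : ℕ) (hN : N ≠ 0) [NeZero L] (β : ℝ) :
    IsProbabilityMeasure (gm N L β) := by
  sorry

/-- invariance of the Gibbs measure under a global linear isometry -/
theorem integral_gm_rot (N L : ℕ) (hN : N ≠ 0) [NeZero L] (β : ℝ)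
    (f : EuclideanSpace ℝ (Fin N) ≃ₗᵢ[ℝ] EuclideanSpace ℝ (Fin N))
    (g : Sph N ≃ₜ Sph N) (hg : ∀ s, (g s : EuclideanSpace ℝ (Fin N)) = f s)
    (F : Conf N L → ℂ) :
    ∫ S, F (fun x => g (S x)) ∂(gm N L β) = ∫ S, F S ∂(gm N L β) := by
  sorry

/-! ## Task 2 : `MS.lean` -/

/-- McBryan–Spencer inequality with the in-plane lengths kept. -/
theorem ms (n L : ℕ) [NeZero L] (β : ℝ) (hβ : 0 ≤ β) (m : ℕ) (a : Tor L → ℝ) (x y : Tor L) :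
    ‖∫ S, zeta (S x) ^ m * conj (zeta (S y)) ^ m ∂(gm (n + 2) L β)‖ ≤
      Real.exp (-(m * (a x - a y))) *
        ∫ S, Real.exp (β * ∑ z, Wt a z * ‖zeta (S z)‖ ^ 2) ∂(gm (n + 2) L β) := by
  sorry

/-! ## Task 3 : `Sym.lean` -/

theorem inner_eq (n L : ℕ) [NeZero L] (β : ℝ) (x y : Tor L) :
    ∫ S, inner ℝ (S x : EuclideanSpace ℝ (Fin (n + 2))) (S y) ∂(gm (n + 2) L β) =
      ((n + 2 : ℝ) / 2) * (∫ S, zeta (S x) * conj (zeta (S y)) ∂(gm (n + 2) L β)).re := by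
  sorry

theorem sq_mean (n L : ℕ) [NeZero L] (β : ℝ) (x : Tor L) :
    ∫ S, ‖zeta (S x)‖ ^ 2 ∂(gm (n + 2) L β) = 2 / (n + 2 : ℝ) := by
  sorry

theorem sq_corr (n L : ℕ) [NeZero L] (β : ℝ) (x y : Tor L) :
    |∫ S, (‖zeta (S x)‖ ^ 2 - 2 / (n + 2 : ℝ)) * (‖zeta (S y)‖ ^ 2 - 2 / (n + 2 : ℝ))
        ∂(gm (n + 2) L β)| ≤
      ‖∫ S, zeta (S x) ^ 2 * conj (zeta (S y)) ^ 2 ∂(gm (n + 2) L β)‖ := by
  sorry

/-! ## Task 4 : `Dist.lean` (distance on `(ℤ/L)²`) -/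

theorem tnorm_zero {L : ℕ} : tnorm (0 : Tor L) = 0 := by sorry

theorem tnorm_neg {L : ℕ} (x : Tor L) : tnorm (-x) = tnorm x := by sorry

theorem tnorm_add_le {L : ℕ} [NeZero L] (x y : Tor L) : tnorm (x + y) ≤ tnorm x + tnorm y := by
  sorry

/-- number of points in a ball -/
theorem card_ball_le : ∃ K : ℝ, 0 < K ∧ ∀ (L : ℕ) [NeZero L] (x : Tor L) (ρ : ℝ), 0 ≤ ρ →
    ((Finset.univ.filter fun z : Tor L => tnorm (z - x) ≤ ρ).card : ℝ) ≤ K * (1 + ρ) ^ 2 := by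
  sorry

/-! ## Task 5 : `Disc.lean` (purely discrete geometry of `(ℤ/L)²`) -/

/-- The two-centred logarithmic potential. -/
theorem disc : ∃ K : ℝ, 0 < K ∧ ∀ (L : ℕ) [NeZero L] (x y : Tor L) (δ : ℝ), 0 < δ → δ ≤ 1 →
    16 ≤ tnorm (x - y) → ∃ a : Tor L → ℝ,
      2 * δ * Real.log (tnorm (x - y)) - K ≤ a x - a y ∧
      (∀ z, 0 ≤ Wt a z) ∧
      (∀ z, Wt a z ≤ K * δ ^ 2 / (1 + dd x y z) ^ 2) ∧
      (∀ z, tnorm (x - y) ≤ dd x y z → Wt a z = 0) ∧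
      (∀ ρ : ℝ, 1 ≤ ρ → ∑ z ∈ Finset.univ.filter (fun z => dd x y z < ρ), Wt a z ≤
        2 * Real.pi * (1 + δ ^ 2) * δ ^ 2 * Real.log ρ + K * δ ^ 2) := by
  sorry

/-! ## Task 6 : `Cheb.lean` -/

/-- Exponential moment bound from the decay of the spin-2 correlations. `V` is the constant in
front of the logarithm in the growth of the weights. -/
theorem exp_moment (n : ℕ) (β p C₂ K V η : ℝ) (hβ : 0 < β) (hp : 0 < p) (hp1 : p ≤ 1)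
    (hC₂ : 0 < C₂) (hK : 0 < K) (hV : 0 ≤ V) (hη : 0 < η)
    (hcorr : ∀ (L : ℕ) [NeZero L] (x y : Tor L),
      |∫ S, (‖zeta (S x)‖ ^ 2 - 2 / (n + 2 : ℝ)) * (‖zeta (S y)‖ ^ 2 - 2 / (n + 2 : ℝ))
        ∂(gm (n + 2) L β)| ≤ C₂ * (1 + tnorm (x - y)) ^ (-p)) :
    ∃ C : ℝ, 0 < C ∧ ∀ (L : ℕ) [NeZero L] (x y : Tor L) (w : Tor L → ℝ), 16 ≤ tnorm (x - y) →
      (∀ z, 0 ≤ w z) → (∀ z, w z ≤ K / (1 + dd x y z) ^ 2) →
      (∀ z, tnorm (x - y) ≤ dd x y z → w z = 0) →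
      (∀ ρ : ℝ, 1 ≤ ρ → ∑ z ∈ Finset.univ.filter (fun z => dd x y z < ρ), w z ≤
        V * Real.log ρ + K) →
      ∫ S, Real.exp (β * ∑ z, w z * ‖zeta (S z)‖ ^ 2) ∂(gm (n + 2) L β) ≤
        C * tnorm (x - y) ^ η *
          (tnorm (x - y) ^ (2 / (n + 2 : ℝ) * (β * V)) + tnorm (x - y) ^ (β * V - p)) := by
  sorry

/-! ## Task 7 : `Boot1.lean` -/

/-- decay of the spin-`m` correlations with exponent `e / (2πβ)` for large `β` -/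
def Dec (n m : ℕ) (e : ℝ) : Prop :=
  ∃ β₀ : ℝ, 0 < β₀ ∧ ∀ β : ℝ, β₀ ≤ β → ∃ C : ℝ, 0 < C ∧ ∀ (L : ℕ) [NeZero L] (x y : Tor L),
    ‖∫ S, zeta (S x) ^ m * conj (zeta (S y)) ^ m ∂(gm (n + 2) L β)‖ ≤
      C * (1 + tnorm (x - y)) ^ (-(e / (2 * Real.pi * β)))

theorem dec_base (n : ℕ) (e : ℝ) (he : e < 4) : Dec n 2 e := by
  sorry

theorem dec_improve (n m : ℕ) (e s e' : ℝ) (he : 0 < e) (hs : 0 < s) (h : Dec n 2 e)
    (h1 : e' < 2 * m * s - 2 / (n + 2 : ℝ) * s ^ 2) (h2 : e' < e + 2 * m * s - s ^ 2) :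
    Dec n m e' := by
  sorry

/-! ## Task 8 : `Boot2.lean` -/

theorem dec_iter (n : ℕ) (hn : 1 ≤ n) (e : ℝ) (he : e < 16 * (1 - 2 / (n + 2 : ℝ))) :
    Dec n 2 e := by
  sorry

theorem dec_final (n : ℕ) (hn : 1 ≤ n) (κ : ℝ) (hκ : κ < min ((n + 2 : ℝ) / 2) 4) :
    Dec n 1 κ := by
  sorry

theorem main (N : ℕ) (hN : 3 ≤ N) (κ : ℝ) (hκ : κ < min ((N : ℝ) / 2) 4) :
    ∃ β₀ : ℝ, 0 < β₀ ∧ ∀ β : ℝ, β₀ ≤ β → ∃ C : ℝ, ∀ (L : ℕ) [NeZero L] (x y : Tor L),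
      |∫ S, inner ℝ (S x : EuclideanSpace ℝ (Fin N)) (S y) ∂(gm N L β)| ≤
        C * (1 + tnorm (x - y)) ^ (-(κ / (2 * Real.pi * β))) := by
  sorry

end Pool.Agent.H5R2.ON
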